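import Pool.Agent.Work.MP_10c1eb_ag_h28.Interface

set_option autoImplicit false

open TensorProduct Coalgebra WithConv

namespace Pool.TTriv

universe u

/-- PRM (40 lines; uses MON) is in the interface; here the primitive elements. -/
theorem qq_two_of_prim (h : T_PRM.{u}) (p : ℕ) [Fact p.Prime] (k O : Type u) [Field k] [CharP k p]
    [CommRing O] [HopfAlgebra k O] (r : ℕ)
    (hr : ∀ x : O, (comul x : O ⊗[k] O) = x ⊗ₜ[k] 1 + 1 ⊗ₜ[k] x → x ^ (p ^ r) = 0) :
    QQ k O p r 2 := h p k O r hr

/-- The theorem on Hopf algebras: a commutative Hopf algebra over a perfect field of characteristic `p`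
with a conilpotent coalgebra, with nilpotent Frobenius on the primitive elements, such that the image of
Frobenius has finite index and the abelianisation is finite, is finite-dimensional. -/
theorem finite_of_abelianisation_finite (hPRM : T_PRM.{u}) (hABF : T_ABF.{u}) (hFIN : T_FIN.{u})
    (p : ℕ) [Fact p.Prime] (k O : Type u) [Field k] [CharP k p] [CommRing O] [HopfAlgebra k O]
    (hk : ∀ a : k, ∃ b : k, b ^ p = a) (hU : ∀ f : O, ∃ n, f ∈ fil k O n)
    (hI : FiniteDimensional k (inv k O p 1)) (r : ℕ)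
    (hr : ∀ x : O, (comul x : O ⊗[k] O) = x ⊗ₜ[k] 1 + 1 ⊗ₜ[k] x → x ^ (p ^ r) = 0)
    (hA : FiniteDimensional k (Submodule.span k {g : O | IsAbFun k g})) :
    FiniteDimensional k O := by
  have h2 := hPRM p k O r hr
  obtain ⟨s, hs⟩ := hABF p k O hU r h2 hA
  exact hFIN p k O hk hU hI r h2 s hs

end Pool.TTriv
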