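import Pool.Agent.Work.MP_10c1eb_ag_h28.Interface

/-!
# Block ABF
-/

set_option autoImplicit false

open TensorProduct Coalgebra WithConv

namespace Pool.TTriv

universe u

theorem q_ABF (h1 : T_MON.{u}) (h2 : T_QDB.{u}) : T_ABF.{u} := by
  intro p _ k O _ _ _ _ hU r hQ hfd
  obtain ⟨-, hmono, -⟩ := h1 k O
  obtain ⟨S, hS⟩ := (Submodule.fg_iff_finiteDimensional
    (Submodule.span k {g : O | IsAbFun k g})).2 hfd
  choose n hn using hU
  have hW : Submodule.span k {g : O | IsAbFun k g} ≤ fil k O (∑ g ∈ S, n g) := by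
    rw [← hS, Submodule.span_le]
    intro g hg
    have hle : n g ≤ ∑ g ∈ S, n g :=
      Finset.single_le_sum (f := n) (fun _ _ => Nat.zero_le _) (Finset.mem_coe.1 hg)
    exact hmono hle (hn g)
  refine ⟨r * (∑ g ∈ S, n g), fun g hg => ?_⟩
  refine h2 p k O r hQ (∑ g ∈ S, n g) g ?_
  exact hmono (Nat.lt_two_pow_self).le (hW (Submodule.subset_span hg))

end Pool.TTriv
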