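import Pool.Agent.Work.MP_10c1eb_ag_h28.Interface

/-! Block ARI. -/

namespace Pool.TTriv

theorem q_ARI : T_ARI := by
  intro D s r j hD h
  have h1 := h (D ^ (r * j))
  set l := D ^ (r * j) with hl
  have h2 : (2 * D ^ s) ^ l * 2 ^ j = D ^ (s * l) * (2 ^ l * 2 ^ j) := by
    rw [mul_pow, ← pow_mul]
    ring
  have h3 : D ^ (r * j + s * l) = D ^ (s * l) * l := by
    rw [pow_add, ← hl, mul_comm]
  rw [h2, h3] at h1
  have h4 : 2 ^ l * 2 ^ j ≤ l := Nat.le_of_mul_le_mul_left h1 (Nat.pow_pos hD)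
  have h5 : l < 2 ^ l := Nat.lt_two_pow_self
  have h6 : 1 ≤ 2 ^ j := Nat.one_le_two_pow
  have h7 : 2 ^ l * 1 ≤ 2 ^ l * 2 ^ j := Nat.mul_le_mul_left _ h6
  omega

end Pool.TTriv
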