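import Pool.Agent.Work.MP_10c1eb_ag_h28.Interface

/-!
# Block BND
-/

set_option autoImplicit false

open TensorProduct Coalgebra WithConv

namespace Pool.TTriv

universe u

theorem q_BND (hMON : T_MON.{u}) (hQDB : T_QDB.{u}) (hINC : T_INC.{u}) (hINB : T_INB.{u}) :
    T_BND.{u} := by
  intro p _ k O _ _ _ _ hk hU hfd r hQ
  have hmono := (hMON k O).2.1
  have h1 : ∀ n m : ℕ, QQ k O p n m → FiniteDimensional k (fil k O m) ∧
      Module.finrank k (fil k O m) ≤ Module.finrank k (inv k O p 1) ^ n := by
    intro n m h
    have h2 := hINC p k O n m h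
    obtain ⟨h3, h4⟩ := hINB p k O hk hU hfd n
    exact ⟨Submodule.finiteDimensional_of_le h2, (Submodule.finrank_mono h2).trans h4⟩
  have h2 : ∀ m : ℕ, FiniteDimensional k (fil k O m) := by
    intro m
    have h3 := (h1 (r * m) (2 ^ m) (hQDB p k O r hQ m)).1
    exact Submodule.finiteDimensional_of_le (hmono (Nat.lt_two_pow_self (n := m)).le)
  refine ⟨fun n m h => (h1 n m h).2, h2, ?_⟩
  intro hO m
  have hstrict : ∀ m : ℕ, fil k O m < fil k O (m + 1) := by
    intro m
    refine lt_of_le_of_ne (hmono (Nat.le_succ m)) ?_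
    intro heq
    have h5 : ∀ n : ℕ, fil k O (m + n) = fil k O m := by
      intro n
      induction n with
      | zero => rfl
      | succ n ih =>
        have h8 : fil k O (m + (n + 1)) = (tens (fil k O (m + n)) ⊤).comap (dif k O) := rfl
        rw [h8, ih]
        exact heq.symm
    apply hO
    have h6 : fil k O m = ⊤ := by
      rw [eq_top_iff]
      intro f _
      obtain ⟨n, hn⟩ := hU f
      rw [← h5 n]
      exact hmono (Nat.le_add_left n m) hn
    have h7 := h2 m
    rw [h6] at h7
    exact Module.Finite.equiv (Submodule.topEquiv (R := k) (M := O))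
  induction m with
  | zero => exact Nat.zero_le _
  | succ m ih =>
    have h9 := h2 (m + 1)
    have h10 := Submodule.finrank_lt_finrank_of_lt (hstrict m)
    omega

end Pool.TTriv
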