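import Pool.Agent.Work.MP_10c1eb_ag_h28.Interface

set_option autoImplicit false

open TensorProduct Coalgebra WithConv

namespace Pool.TTriv

universe u

/-- The functional `lift z x - lift z 1 - lift 1 x + lift 1 1` on `O ⊗ O`. -/
noncomputable def CDM_th {k O R : Type u} [Field k] [CommRing O] [HopfAlgebra k O] [CommRing R]
    [Algebra k R] (x z : Pt k O R) : O ⊗[k] O →ₗ[k] R :=
  (Algebra.TensorProduct.lift z.ofConv x.ofConv (fun _ _ => Commute.all _ _)).toLinearMap
  - (Algebra.TensorProduct.lift z.ofConv (1 : Pt k O R).ofConv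
      (fun _ _ => Commute.all _ _)).toLinearMap
  - (Algebra.TensorProduct.lift (1 : Pt k O R).ofConv x.ofConv
      (fun _ _ => Commute.all _ _)).toLinearMap
  + (Algebra.TensorProduct.lift (1 : Pt k O R).ofConv (1 : Pt k O R).ofConv
      (fun _ _ => Commute.all _ _)).toLinearMap

theorem CDM_th_tmul {k O R : Type u} [Field k] [CommRing O] [HopfAlgebra k O] [CommRing R]
    [Algebra k R] (x z : Pt k O R) (a b : O) :
    CDM_th x z (a ⊗ₜ[k] b) = (z a - (1 : Pt k O R) a) * (x b - (1 : Pt k O R) b) := by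
  have h : CDM_th x z (a ⊗ₜ[k] b) = z a * x b - z a * (1 : Pt k O R) b
      - (1 : Pt k O R) a * x b + (1 : Pt k O R) a * (1 : Pt k O R) b := by
    simp only [CDM_th, LinearMap.add_apply, LinearMap.sub_apply, AlgHom.toLinearMap_apply,
      Algebra.TensorProduct.lift_tmul]
  rw [h]; ring

theorem CDM_one {k O R : Type u} [Field k] [CommRing O] [HopfAlgebra k O] [CommRing R]
    [Algebra k R] (a : O) : (1 : Pt k O R) a = algebraMap k R (counit (R := k) a) := rfl

theorem CDM_inD {k O R : Type u} [Field k] [CommRing O] [HopfAlgebra k O] [CommRing R]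
    [Algebra k R] (h : T_NJP.{u}) (z : Pt k O R) (m : ℕ) (hz : InD m z) (N : ℕ) (hmN : m ≤ N)
    (hJ : ∀ t, m ≤ t → t < N → ¬ jump k O t) : InD N z := by
  induction N, hmN using Nat.le_induction with
  | base => exact hz
  | succ n hn ih =>
    exact h k O R n z (hJ n hn (Nat.lt_succ_self n)) (ih (fun t h1 h2 => hJ t h1 (by omega)))

theorem q_CDM (_h1 : T_VID.{u}) (h2 : T_NJP.{u}) (h3 : T_TAU) (h4 : T_CNJ.{u})
    (h5 : T_MWS.{u}) (h6 : T_COM.{u}) : T_CDM.{u} := by
  intro k O _ _ _ m K hK R _ _ x z hx hz f hf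
  obtain ⟨τ, t1, t2, t3, t4, t5⟩ := h3 (jump k O) m (K * m)
  obtain ⟨w1, w2, w3⟩ := h5 k O τ m (K * m) K _ t1 t3 t4 t5 hK le_rfl
  have hc := h6 k O (Mw k O τ (K * m)) w2 w3 m f (w1 f hf)
  have hker : tens (Mw k O τ (K * m) 1) ⊤ ⊔ tens ⊤ (fil k O m) ≤ LinearMap.ker (CDM_th x z) := by
    refine sup_le ?_ ?_
    · refine Submodule.map₂_le.2 ?_
      intro a ha b _
      rw [LinearMap.mem_ker, TensorProduct.mk_apply, CDM_th_tmul]
      have hz1 : InD (τ 1) z := CDM_inD h2 z m hz (τ 1) (t1 1) t2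
      have hv : (cv z - 1 : Cv k O R) ∈ VV (cv (k := k) (O := O) (R := R)) (Hs k O τ R) 1 := by
        refine AddSubgroup.subset_closure ⟨[(1, z)], by simp, ?_, by simp, by simp⟩
        intro q hq
        rw [List.mem_singleton] at hq
        subst hq
        exact ⟨le_rfl, hz1⟩
      have hv0 := ha.2 R _ hv
      have : (cv z - 1 : Cv k O R) a = z a - (1 : Pt k O R) a := rfl
      rw [this] at hv0
      rw [hv0, zero_mul]
    · refine Submodule.map₂_le.2 ?_
      intro a _ b hb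
      rw [LinearMap.mem_ker, TensorProduct.mk_apply, CDM_th_tmul, CDM_one b, hx b hb, sub_self,
        mul_zero]
  have h0 := hker hc
  rw [LinearMap.mem_ker] at h0
  have e : CDM_th x z (cj k O f) = (x⁻¹ * z * x) f - ((1 : Pt k O R)⁻¹ * z * 1) f
      - (x⁻¹ * 1 * x) f + ((1 : Pt k O R)⁻¹ * 1 * 1) f := by
    rw [← (h4 k O).1 R x z f, ← (h4 k O).1 R 1 z f, ← (h4 k O).1 R x 1 f, ← (h4 k O).1 R 1 1 f]
    rfl
  rw [e] at h0
  have e2 : (x⁻¹ * 1 * x : Pt k O R) = 1 := by group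
  have e3 : ((1 : Pt k O R)⁻¹ * z * 1) = z := by group
  have e4 : ((1 : Pt k O R)⁻¹ * 1 * 1) = 1 := by group
  rw [e2, e3, e4, sub_add_cancel] at h0
  exact h0

end Pool.TTriv
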