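import Pool.Agent.Work.MP_10c1eb_ag_h28.Interface

set_option autoImplicit false

open TensorProduct Coalgebra WithConv

namespace Pool.TTriv

universe u

theorem q_CMM (hV : T_VID.{u}) : T_CMM.{u} := by
  intro k O _ _ _ R _ _ t x z hz
  obtain ⟨h1, h2, h3, h4, h5, h6⟩ := hV k O R
  have hX : van 1 (cv x - 1) := (h5 1 x).1 (h6 x)
  have hZ : van t (cv z - 1) := (h5 t z).1 hz
  have hxx : cv x * cv x⁻¹ = 1 := by
    rw [← map_mul, mul_inv_cancel, map_one]
  have hzz : cv z⁻¹ * cv z = 1 := by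
    rw [← map_mul, inv_mul_cancel, map_one]
  have hc : van (t + 1) (cv (x * z) - cv (z * x)) := by
    have e : cv (x * z) - cv (z * x) =
        (cv x - 1) * (cv z - 1) - (cv z - 1) * (cv x - 1) := by
      rw [map_mul, map_mul]
      noncomm_ring
    rw [e]
    refine (h4 (t + 1) _ _ ?_ (h1 t 1 _ _ hZ hX)).2
    have h := h1 1 t _ _ hX hZ
    rwa [Nat.add_comm 1 t] at h
  refine ⟨hc, ?_, ?_, ?_, ?_⟩
  · rw [h5]
    have e : cv (x * z * x⁻¹ * z⁻¹) - 1 = (cv (x * z) - cv (z * x)) * cv (x⁻¹ * z⁻¹) := by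
      have e1 : cv (z * x) * cv (x⁻¹ * z⁻¹) = 1 := by
        rw [← map_mul]
        have : z * x * (x⁻¹ * z⁻¹) = 1 := by group
        rw [this, map_one]
      rw [sub_mul, e1, ← map_mul, mul_assoc (x * z)]
    rw [e]
    exact (h2 _ _ _ hc).1
  · rw [h5]
    have e : cv (x * z * x⁻¹) - 1 = cv x * (cv z - 1) * cv x⁻¹ := by
      rw [mul_sub, sub_mul, mul_one, hxx, map_mul, map_mul]
    rw [e]
    exact (h2 _ _ _ (h2 _ _ _ hZ).2).1
  · rw [h5]
    have e : cv z⁻¹ - 1 = (cv z - 1) * 0 - cv z⁻¹ * (cv z - 1) := by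
      rw [mul_sub, hzz]
      noncomm_ring
    rw [e]
    exact (h4 _ _ _ (h2 _ _ 0 hZ).1 (h2 _ _ _ hZ).2).2
  · intro hx
    have hX' : van t (cv x - 1) := (h5 t x).1 hx
    rw [h5]
    have e : cv (x * z) - 1 = (cv x - 1) * (cv z - 1) + (cv x - 1) + (cv z - 1) := by
      rw [map_mul]
      noncomm_ring
    rw [e]
    exact (h4 _ _ _ (h4 _ _ _ (h2 _ _ _ hX').1 hX').1 hZ).1

end Pool.TTriv
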