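import Pool.Agent.Work.MP_10c1eb_ag_h28.Interface

/-!
# Block CNJ: the conjugation coaction
-/

set_option autoImplicit false

open TensorProduct Coalgebra WithConv

namespace Pool.TTriv

universe u

noncomputable section

section

variable {k O : Type u} [Field k] [CommRing O] [HopfAlgebra k O]

/-- The push forward of points. -/
def CNJ_push {M N : Type u} [CommRing M] [Algebra k M] [CommRing N] [Algebra k N]
    (φ : M →ₐ[k] N) : Pt k O M →* Pt k O N where
  toFun x := toConv (φ.comp x.ofConv)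
  map_one' := by
    apply WithConv.ofConv_injective
    apply AlgHom.ext
    intro f
    change φ ((1 : Pt k O M) f) = (1 : Pt k O N) f
    rw [AlgHom.convOne_apply, AlgHom.convOne_apply, AlgHom.commutes]
  map_mul' x y := by
    apply WithConv.ofConv_injective
    exact AlgHom.comp_convMul_distrib φ x y

theorem CNJ_push_apply {M N : Type u} [CommRing M] [Algebra k M] [CommRing N] [Algebra k N]
    (φ : M →ₐ[k] N) (x : Pt k O M) (f : O) : CNJ_push φ x f = φ (x f) := rfl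

/-- The first inclusion. -/
def CNJ_L (k O : Type u) [Field k] [CommRing O] [HopfAlgebra k O] : Pt k O (O ⊗[k] O) :=
  toConv (Algebra.TensorProduct.includeLeft : O →ₐ[k] O ⊗[k] O)

/-- The second inclusion. -/
def CNJ_R (k O : Type u) [Field k] [CommRing O] [HopfAlgebra k O] : Pt k O (O ⊗[k] O) :=
  toConv (Algebra.TensorProduct.includeRight : O →ₐ[k] O ⊗[k] O)

theorem CNJ_cj (k O : Type u) [Field k] [CommRing O] [HopfAlgebra k O] :
    (toConv (cj k O) : Pt k O (O ⊗[k] O)) = (CNJ_R k O)⁻¹ * CNJ_L k O * CNJ_R k O := rfl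

theorem CNJ_cj_apply (f : O) :
    cj k O f = ((CNJ_R k O)⁻¹ * CNJ_L k O * CNJ_R k O : Pt k O (O ⊗[k] O)) f := rfl

/-- the image of the conjugation under an algebra map -/
theorem CNJ_nat {N : Type u} [CommRing N] [Algebra k N] (φ : O ⊗[k] O →ₐ[k] N) :
    CNJ_push φ (toConv (cj k O)) =
      (CNJ_push φ (CNJ_R k O))⁻¹ * CNJ_push φ (CNJ_L k O) * CNJ_push φ (CNJ_R k O) := by
  rw [CNJ_cj, map_mul, map_mul, map_inv]

theorem CNJ_one (R : Type u) [CommRing R] [Algebra k R] (x z : Pt k O R) (f : O) :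
    Algebra.TensorProduct.lift z.ofConv x.ofConv (fun _ _ => Commute.all _ _) (cj k O f) =
      (x⁻¹ * z * x) f := by
  obtain ⟨φ, hφ⟩ : ∃ φ : O ⊗[k] O →ₐ[k] R,
      φ = Algebra.TensorProduct.lift z.ofConv x.ofConv (fun _ _ => Commute.all _ _) := ⟨_, rfl⟩
  have h1 : CNJ_push φ (CNJ_R k O) = x := by
    apply WithConv.ofConv_injective
    apply AlgHom.ext
    intro a
    change φ (1 ⊗ₜ[k] a) = x a
    rw [hφ, Algebra.TensorProduct.lift_tmul]
    rw [map_one, one_mul]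
  have h2 : CNJ_push φ (CNJ_L k O) = z := by
    apply WithConv.ofConv_injective
    apply AlgHom.ext
    intro a
    change φ (a ⊗ₜ[k] 1) = z a
    rw [hφ, Algebra.TensorProduct.lift_tmul]
    rw [map_one, mul_one]
  have h3 := CNJ_nat φ
  rw [h1, h2] at h3
  rw [← hφ, ← h3]
  rfl

/-- right semilinearity -/
theorem CNJ_mulR {M N : Type u} [CommRing M] [Algebra k M] [CommRing N] [Algebra k N]
    (L : M →ₗ[k] N) (i : O →ₗ[k] M) (j : O →ₗ[k] N) (h : ∀ s o, L (s * i o) = L s * j o)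
    (a : Cv k O M) (g : O →ₗ[k] O) :
    (toConv (L ∘ₗ (a * toConv (i ∘ₗ g) : Cv k O M).ofConv) : Cv k O N) =
      toConv (L ∘ₗ a.ofConv) * toConv (j ∘ₗ g) := by
  apply WithConv.ofConv_injective
  apply LinearMap.ext
  intro f
  change L (LinearMap.mul' k M (TensorProduct.map a.ofConv (i ∘ₗ g) (comul f))) =
    LinearMap.mul' k N (TensorProduct.map (L ∘ₗ a.ofConv) (j ∘ₗ g) (comul f))
  generalize (comul f : O ⊗[k] O) = t
  induction t using TensorProduct.induction_on with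
  | zero => simp
  | tmul x y =>
    simp only [TensorProduct.map_tmul, LinearMap.mul'_apply, LinearMap.comp_apply]
    exact h _ _
  | add x y hx hy => simp only [map_add, hx, hy]

/-- left semilinearity -/
theorem CNJ_mulL {M N : Type u} [CommRing M] [Algebra k M] [CommRing N] [Algebra k N]
    (L : M →ₗ[k] N) (i : O →ₗ[k] M) (j : O →ₗ[k] N) (h : ∀ s o, L (s * i o) = L s * j o)
    (a : Cv k O M) (g : O →ₗ[k] O) :
    (toConv (L ∘ₗ (toConv (i ∘ₗ g) * a : Cv k O M).ofConv) : Cv k O N) =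
      toConv (j ∘ₗ g) * toConv (L ∘ₗ a.ofConv) := by
  apply WithConv.ofConv_injective
  apply LinearMap.ext
  intro f
  change L (LinearMap.mul' k M (TensorProduct.map (i ∘ₗ g) a.ofConv (comul f))) =
    LinearMap.mul' k N (TensorProduct.map (j ∘ₗ g) (L ∘ₗ a.ofConv) (comul f))
  generalize (comul f : O ⊗[k] O) = t
  induction t using TensorProduct.induction_on with
  | zero => simp
  | tmul x y =>
    simp only [TensorProduct.map_tmul, LinearMap.mul'_apply, LinearMap.comp_apply]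
    rw [mul_comm, h, mul_comm]
  | add x y hx hy => simp only [map_add, hx, hy]

theorem CNJ_two (R : Type u) [CommRing R] [Algebra k R] (v : O →ₗ[k] R) (f : O) :
    v.rTensor O (cj k O f) =
      (cv ((toConv (Algebra.TensorProduct.includeRight : O →ₐ[k] R ⊗[k] O) :
          Pt k O (R ⊗[k] O))⁻¹) *
        (toConv ((Algebra.TensorProduct.includeLeft : R →ₐ[k] R ⊗[k] O).toLinearMap ∘ₗ v) :
          Cv k O (R ⊗[k] O)) *
        cv (toConv (Algebra.TensorProduct.includeRight : O →ₐ[k] R ⊗[k] O) :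
          Pt k O (R ⊗[k] O))) f := by
  obtain ⟨i, hi⟩ : ∃ i : O →ₗ[k] O ⊗[k] O,
      i = (Algebra.TensorProduct.includeRight : O →ₐ[k] O ⊗[k] O).toLinearMap := ⟨_, rfl⟩
  obtain ⟨j, hj⟩ : ∃ j : O →ₗ[k] R ⊗[k] O,
      j = (Algebra.TensorProduct.includeRight : O →ₐ[k] R ⊗[k] O).toLinearMap := ⟨_, rfl⟩
  obtain ⟨l, hl⟩ : ∃ l : O →ₗ[k] O ⊗[k] O,
      l = (Algebra.TensorProduct.includeLeft : O →ₐ[k] O ⊗[k] O).toLinearMap := ⟨_, rfl⟩
  have h : ∀ (s : O ⊗[k] O) (o : O), v.rTensor O (s * i o) = v.rTensor O s * j o := by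
    intro s o
    have hio : i o = 1 ⊗ₜ[k] o := by rw [hi]; rfl
    have hjo : j o = 1 ⊗ₜ[k] o := by rw [hj]; rfl
    rw [hio, hjo]
    induction s using TensorProduct.induction_on with
    | zero => simp
    | tmul x y =>
      rw [Algebra.TensorProduct.tmul_mul_tmul, mul_one, LinearMap.rTensor_tmul,
        LinearMap.rTensor_tmul, Algebra.TensorProduct.tmul_mul_tmul, mul_one]
    | add x y hx hy => rw [add_mul, map_add, map_add, add_mul, hx, hy]
  have e1 : (toConv (cj k O).toLinearMap : Cv k O (O ⊗[k] O)) =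
      toConv (i ∘ₗ HopfAlgebra.antipode k (A := O)) * toConv l *
        toConv (i ∘ₗ LinearMap.id) := by
    rw [hi, hl]
    rfl
  have e2 : (toConv (v.rTensor O ∘ₗ (cj k O).toLinearMap) : Cv k O (R ⊗[k] O)) =
      toConv (v.rTensor O ∘ₗ (toConv (i ∘ₗ HopfAlgebra.antipode k (A := O)) * toConv l *
        toConv (i ∘ₗ LinearMap.id) : Cv k O (O ⊗[k] O)).ofConv) := by
    rw [← e1]
  rw [CNJ_mulR (v.rTensor O) i j h, CNJ_mulL (v.rTensor O) i j h] at e2
  have e3 : v.rTensor O ∘ₗ (toConv l : Cv k O (O ⊗[k] O)).ofConv =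
      (Algebra.TensorProduct.includeLeft : R →ₐ[k] R ⊗[k] O).toLinearMap ∘ₗ v := by
    apply LinearMap.ext
    intro a
    rw [hl]
    change v.rTensor O (a ⊗ₜ[k] 1) = v a ⊗ₜ[k] 1
    rw [LinearMap.rTensor_tmul]
  rw [e3] at e2
  have e4 := congrArg (fun (w : Cv k O (R ⊗[k] O)) => w f) e2
  refine Eq.trans ?_ (e4.trans ?_)
  · rfl
  · rw [hj]
    rfl

theorem CNJ_three (f : O) :
    TensorProduct.assoc k O O O ((cj k O).toLinearMap.rTensor O (cj k O f)) =
      (comul : O →ₗ[k] O ⊗[k] O).lTensor O (cj k O f) := by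
  -- the three points
  obtain ⟨Y, hY⟩ : ∃ Y : Pt k O (O ⊗[k] (O ⊗[k] O)),
      Y = toConv (Algebra.TensorProduct.includeLeft : O →ₐ[k] O ⊗[k] (O ⊗[k] O)) := ⟨_, rfl⟩
  obtain ⟨A, hA⟩ : ∃ A : Pt k O (O ⊗[k] (O ⊗[k] O)),
      A = CNJ_push (Algebra.TensorProduct.includeRight : O ⊗[k] O →ₐ[k] O ⊗[k] (O ⊗[k] O))
        (CNJ_L k O) := ⟨_, rfl⟩
  obtain ⟨B, hB⟩ : ∃ B : Pt k O (O ⊗[k] (O ⊗[k] O)),
      B = CNJ_push (Algebra.TensorProduct.includeRight : O ⊗[k] O →ₐ[k] O ⊗[k] (O ⊗[k] O))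
        (CNJ_R k O) := ⟨_, rfl⟩
  obtain ⟨P, hP⟩ : ∃ P : O ⊗[k] O →ₐ[k] O ⊗[k] (O ⊗[k] O),
      P = (Algebra.TensorProduct.assoc k k k O O O).toAlgHom.comp
        (Algebra.TensorProduct.map (cj k O) (AlgHom.id k O)) := ⟨_, rfl⟩
  obtain ⟨Q, hQ⟩ : ∃ Q : O ⊗[k] O →ₐ[k] O ⊗[k] (O ⊗[k] O),
      Q = Algebra.TensorProduct.map (AlgHom.id k O) (Bialgebra.comulAlgHom k O) := ⟨_, rfl⟩
  obtain ⟨M, hM⟩ : ∃ M : O ⊗[k] O →ₐ[k] O ⊗[k] (O ⊗[k] O),
      M = (Algebra.TensorProduct.assoc k k k O O O).toAlgHom.comp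
        (Algebra.TensorProduct.includeLeft : O ⊗[k] O →ₐ[k] (O ⊗[k] O) ⊗[k] O) := ⟨_, rfl⟩
  have m1 : CNJ_push M (CNJ_L k O) = Y := by
    apply WithConv.ofConv_injective
    apply AlgHom.ext
    intro a
    rw [hM, hY]
    rfl
  have m2 : CNJ_push M (CNJ_R k O) = A := by
    apply WithConv.ofConv_injective
    apply AlgHom.ext
    intro a
    rw [hM, hA]
    rfl
  have p1 : CNJ_push P (CNJ_R k O) = B := by
    apply WithConv.ofConv_injective
    apply AlgHom.ext
    intro a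
    rw [hP, hB]
    change (Algebra.TensorProduct.assoc k k k O O O) (cj k O 1 ⊗ₜ[k] a) = 1 ⊗ₜ[k] (1 ⊗ₜ[k] a)
    rw [map_one]
    rfl
  have p2 : CNJ_push P (CNJ_L k O) = CNJ_push M (toConv (cj k O)) := by
    apply WithConv.ofConv_injective
    apply AlgHom.ext
    intro a
    rw [hP, hM]
    rfl
  have q1 : CNJ_push Q (CNJ_L k O) = Y := by
    apply WithConv.ofConv_injective
    apply AlgHom.ext
    intro a
    rw [hQ, hY]
    change a ⊗ₜ[k] (Bialgebra.comulAlgHom k O 1) = a ⊗ₜ[k] 1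
    rw [map_one]
  have q2 : CNJ_push Q (CNJ_R k O) = A * B := by
    rw [hA, hB, ← map_mul]
    apply WithConv.ofConv_injective
    apply AlgHom.ext
    intro a
    rw [hQ]
    change (1 : O) ⊗ₜ[k] (comul a : O ⊗[k] O) = (1 : O) ⊗ₜ[k] ((CNJ_L k O * CNJ_R k O) a)
    congr 1
    rw [AlgHom.convMul_apply]
    generalize (comul a : O ⊗[k] O) = t
    induction t using TensorProduct.induction_on with
    | zero => simp
    | tmul x y =>
      rw [Algebra.TensorProduct.lift_tmul]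
      change x ⊗ₜ[k] y = (x ⊗ₜ[k] (1 : O)) * ((1 : O) ⊗ₜ[k] y)
      rw [Algebra.TensorProduct.tmul_mul_tmul, mul_one, one_mul]
    | add x y hx hy => rw [map_add, ← hx, ← hy]
  have key : CNJ_push P (toConv (cj k O)) = CNJ_push Q (toConv (cj k O)) := by
    rw [CNJ_nat P, CNJ_nat Q, p1, p2, CNJ_nat M, m1, m2, q1, q2]
    group
  have h1 := congrArg (fun (w : Pt k O (O ⊗[k] (O ⊗[k] O))) => w f) key
  have h2 : ∀ s : O ⊗[k] O, TensorProduct.assoc k O O O ((cj k O).toLinearMap.rTensor O s) =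
      P s := by
    intro s
    rw [hP]
    induction s using TensorProduct.induction_on with
    | zero => simp
    | tmul x y => rfl
    | add x y hx hy => rw [map_add, map_add, map_add, hx, hy]
  have h3 : ∀ s : O ⊗[k] O, (comul : O →ₗ[k] O ⊗[k] O).lTensor O s = Q s := by
    intro s
    rw [hQ]
    induction s using TensorProduct.induction_on with
    | zero => simp
    | tmul x y => rfl
    | add x y hx hy => rw [map_add, map_add, hx, hy]
  rw [h2, h3]
  exact h1

end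

theorem q_CNJ : T_CNJ.{u} := by
  intro k O _ _ _
  exact ⟨fun R _ _ x z f => CNJ_one R x z f, fun R _ _ v f => CNJ_two R v f,
    fun f => CNJ_three f⟩

end

end Pool.TTriv
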