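import Pool.Agent.Work.MP_10c1eb_ag_h28.Interface

/-!
# Block COM
-/

set_option autoImplicit false

open TensorProduct Coalgebra WithConv

namespace Pool.TTriv

universe u

section

variable {k O : Type u} [Field k] [CommRing O] [HopfAlgebra k O]

/-- The map `l ⊗ id ⊗ id`. -/
noncomputable def COM_L (l : O →ₗ[k] k) : O ⊗[k] (O ⊗[k] O) →ₗ[k] O ⊗[k] O :=
  (TensorProduct.lid k (O ⊗[k] O)).toLinearMap ∘ₗ l.rTensor (O ⊗[k] O)

theorem COM_L_tmul (l : O →ₗ[k] k) (a : O) (s : O ⊗[k] O) :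
    COM_L l (a ⊗ₜ[k] s) = l a • s := by
  simp [COM_L]

theorem COM_sl_tmul (l : O →ₗ[k] k) (a b : O) : sl l (a ⊗ₜ[k] b) = l a • b := by
  simp [sl]

theorem COM_A (l : O →ₗ[k] k) (t : O ⊗[k] O) :
    (comul (sl l t) : O ⊗[k] O) = COM_L l ((comul (R := k) (A := O)).lTensor O t) := by
  induction t using TensorProduct.induction_on with
  | zero => simp
  | tmul a b =>
    rw [COM_sl_tmul, LinearMap.lTensor_tmul, COM_L_tmul, map_smul]
  | add x y hx hy => rw [map_add, map_add, map_add, map_add, hx, hy]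

theorem COM_B0 (l : O →ₗ[k] k) (s : O ⊗[k] O) (b : O) :
    COM_L l (TensorProduct.assoc k O O O (s ⊗ₜ[k] b)) = (sl l s) ⊗ₜ[k] b := by
  induction s using TensorProduct.induction_on with
  | zero => simp
  | tmul c d =>
    rw [TensorProduct.assoc_tmul, COM_L_tmul, COM_sl_tmul, TensorProduct.smul_tmul']
  | add x y hx hy =>
    rw [TensorProduct.add_tmul, map_add, map_add, map_add, hx, hy, TensorProduct.add_tmul]

theorem COM_B (l : O →ₗ[k] k) (g : O →ₗ[k] O ⊗[k] O) (t : O ⊗[k] O) :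
    COM_L l (TensorProduct.assoc k O O O (g.rTensor O t)) = (sl l ∘ₗ g).rTensor O t := by
  induction t using TensorProduct.induction_on with
  | zero => simp
  | tmul a b =>
    rw [LinearMap.rTensor_tmul, COM_B0, LinearMap.rTensor_tmul]
    rfl
  | add x y hx hy => rw [map_add, map_add, map_add, map_add, hx, hy]

end

theorem q_COM (h1 : T_SLI.{u}) (h2 : T_CNJ.{u}) : T_COM.{u} := by
  intro k O _ _ _ M hM1 hM w
  have h3 := (h2 k O).2.2
  induction w with
  | zero =>
    intro f hf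
    exact Submodule.mem_sup_left (hM1 f hf)
  | succ w ih =>
    intro f hf
    rw [(h1 k O (M 1) (fil k O (w + 1)) (cj k O f)).2.2]
    intro l hl
    show comul (sl l (cj k O f)) - (sl l (cj k O f)) ⊗ₜ[k] (1 : O) ∈ tens (fil k O w) ⊤
    have h4 : (comul (sl l (cj k O f)) : O ⊗[k] O) =
        (sl l ∘ₗ (cj k O).toLinearMap).rTensor O (cj k O f) := by
      rw [COM_A, ← h3 f, COM_B]
    have h5 : tens (M (w + 1)) (⊤ : Submodule k O) ≤
        (tens (fil k O w) ⊤).comap ((sl l ∘ₗ (cj k O).toLinearMap).rTensor O) := by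
      refine Submodule.map₂_le.2 (fun a ha b _ => ?_)
      have h6 := ((h1 k O (M 1) (fil k O w) (cj k O a)).2.2).1 (ih a ha) l hl
      exact Submodule.apply_mem_map₂ (TensorProduct.mk k O O) h6 Submodule.mem_top
    have h7 := h5 (hM (w + 1) (by omega) f hf)
    rw [Submodule.mem_comap, map_sub, ← h4, LinearMap.rTensor_tmul] at h7
    exact h7

end Pool.TTriv
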