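import Pool.Agent.Work.MP_10c1eb_ag_h28.Interface

set_option autoImplicit false

open TensorProduct Coalgebra WithConv

namespace Pool.TTriv

universe u

theorem FIN_one_mem (p : ℕ) (k O : Type u) [Field k] [CommRing O] [HopfAlgebra k O] :
    (1 : O) ∈ inv k O p 1 := by
  have h : dif k O 1 = 0 := by
    simp [dif, Bialgebra.comul_one, Algebra.TensorProduct.one_def]
  unfold inv
  rw [Submodule.mem_comap, h]
  exact zero_mem _

theorem q_FIN (_hMON : T_MON.{u}) (hQDB : T_QDB.{u}) (hBND : T_BND.{u}) (hLOG : T_LOG.{u})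
    (hCDM : T_CDM.{u}) (hTWI : T_TWI.{u}) (hARI : T_ARI) : T_FIN.{u} := by
  intro p _ k O _ _ _ _ hk hU hI r h2 s hA
  by_contra hnf
  have hnt : Nontrivial (inv k O p 1) := by
    refine ⟨⟨⟨1, FIN_one_mem p k O⟩, 0, fun h => ?_⟩⟩
    have h1 : (1 : O) = 0 := congrArg Subtype.val h
    have h3 := congrArg (counit (R := k) (A := O)) h1
    simp at h3
  have hD : 1 ≤ Module.finrank k (inv k O p 1) := Module.finrank_pos
  obtain ⟨m₀, hm₀⟩ := hLOG p k O hk hU hI r h2 (2 * Module.finrank k (inv k O p 1) ^ s)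
  have hK : 1 ≤ 2 * Module.finrank k (inv k O p 1) ^ s := by
    have : 0 < Module.finrank k (inv k O p 1) ^ s := pow_pos hD _
    omega
  have key : ∀ l : ℕ, QQ k O p (r * m₀ + s * l)
      ((2 * Module.finrank k (inv k O p 1) ^ s) ^ l * 2 ^ m₀) := by
    intro l
    induction l with
    | zero => simpa using hQDB p k O r h2 m₀
    | succ l ih =>
      have hm : m₀ ≤ (2 * Module.finrank k (inv k O p 1) ^ s) ^ l * 2 ^ m₀ := by
        have h3 : m₀ ≤ 2 ^ m₀ := Nat.lt_two_pow_self.le
        have h4 : 1 ≤ (2 * Module.finrank k (inv k O p 1) ^ s) ^ l := Nat.one_le_pow _ _ hK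
        nlinarith
      have h5 := hCDM k O _ _ (hm₀ _ hm)
      have h6 := hTWI p k O _ _ _ ih h5
      intro f hf
      have hf' : f ∈ fil k O (2 * Module.finrank k (inv k O p 1) ^ s *
          ((2 * Module.finrank k (inv k O p 1) ^ s) ^ l * 2 ^ m₀)) := by
        have e : (2 * Module.finrank k (inv k O p 1) ^ s) ^ (l + 1) * 2 ^ m₀ =
            2 * Module.finrank k (inv k O p 1) ^ s *
              ((2 * Module.finrank k (inv k O p 1) ^ s) ^ l * 2 ^ m₀) := by ring
        rwa [← e]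
      have h7 := hA _ (h6 f hf')
      have h8 : counit (R := k) (f ^ p ^ (r * m₀ + s * l)) =
          (counit (R := k) f) ^ p ^ (r * m₀ + s * l) := Bialgebra.counit_pow _ _
      rw [h8, map_pow, ← pow_mul, ← pow_mul, ← pow_add] at h7
      have e2 : r * m₀ + s * (l + 1) = r * m₀ + s * l + s := by ring
      rw [e2]
      exact h7
  obtain ⟨b1, _, b3⟩ := hBND p k O hk hU hI r h2
  exact hARI _ s r m₀ hD (fun l => (b3 hnf _).trans (b1 _ _ (key l)))

end Pool.TTriv
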