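import Pool.Agent.Work.MP_10c1eb_ag_h28.Interface

/-! # Block FKR -/

set_option autoImplicit false

open TensorProduct

namespace Pool.TTriv

universe u

theorem FKR_mem {p : ℕ} [Fact p.Prime] {k O : Type u} [Field k] [CommRing O] [Algebra k O]
    [CharP O p] (f : O) : f ∈ frk k O p 1 ↔ f ^ p = 0 := by
  constructor
  · intro h
    induction h using Submodule.span_induction with
    | mem x hx => simpa using hx
    | zero => exact zero_pow (Fact.out : p.Prime).ne_zero
    | add x y _ _ hx hy => rw [add_pow_char, hx, hy, add_zero]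
    | smul a x _ hx => rw [smul_pow, hx, smul_zero]
  · intro h
    exact Submodule.subset_span (by simpa using h)

theorem FKR_tens {k O : Type u} [Field k] [CommRing O] [Algebra k O] {A B : Submodule k O}
    {x y : O} (hx : x ∈ A) (hy : y ∈ B) : x ⊗ₜ[k] y ∈ tens A B :=
  Submodule.apply_mem_map₂ _ hx hy

theorem FKR_dual {k M ι : Type u} [Field k] [AddCommGroup M] [Module k M] [DecidableEq ι]
    (v : ι → M) (hv : LinearIndependent k v) (j : ι) :
    ∃ l : M →ₗ[k] k, ∀ i, l (v i) = if i = j then 1 else 0 := by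
  obtain ⟨l, hl⟩ := LinearMap.exists_extend
    ((Finsupp.lapply j : (ι →₀ k) →ₗ[k] k).comp hv.repr)
  refine ⟨l, fun i => ?_⟩
  have hm : v i ∈ Submodule.span k (Set.range v) := Submodule.subset_span ⟨i, rfl⟩
  have h1 := LinearMap.congr_fun hl ⟨v i, hm⟩
  have h2 : hv.repr ⟨v i, hm⟩ = Finsupp.single i 1 := hv.repr_eq_single i _ rfl
  simp only [LinearMap.comp_apply, Submodule.subtype_apply, h2, Finsupp.lapply_apply,
    Finsupp.single_apply] at h1
  exact h1

theorem q_FKR : T_FKR.{u} := by
  intro p _ k O _ _ _ _ hk t ht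
  classical
  rcases subsingleton_or_nontrivial O with hO | hO
  · have h0 : t = 0 := by
      induction t using TensorProduct.induction_on with
      | zero => rfl
      | tmul x y => rw [Subsingleton.elim x 0, TensorProduct.zero_tmul]
      | add x y hx hy =>
        have h1 : ∀ z : O ⊗[k] O, z = 0 := by
          intro z
          induction z using TensorProduct.induction_on with
          | zero => rfl
          | tmul x y => rw [Subsingleton.elim x 0, TensorProduct.zero_tmul]
          | add x y hx hy => rw [hx, hy, add_zero]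
        exact h1 _
    rw [h0]
    exact zero_mem _
  have : CharP O p := charP_of_injective_algebraMap (algebraMap k O).injective p
  have : CharP (O ⊗[k] O) p := charP_of_injective_algebraMap (algebraMap k (O ⊗[k] O)).injective p
  have hp0 : p ≠ 0 := (Fact.out : p.Prime).ne_zero
  obtain ⟨C, hC⟩ := Submodule.exists_isCompl (frk k O p 1)
  let e := Module.Basis.ofVectorSpace k C
  -- the independence of the powers
  choose d hd using hk
  have hli : LinearIndependent k (fun i => ((e i : C) : O) ^ p) := by
    rw [linearIndependent_iff']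
    intro s g hg i hi
    have h1 : (∑ i ∈ s, d (g i) • ((e i : C) : O)) ^ p = 0 := by
      rw [sum_pow_char, ← hg]
      refine Finset.sum_congr rfl fun j _ => ?_
      rw [smul_pow, hd]
    have h2 : (∑ i ∈ s, d (g i) • ((e i : C) : O)) ∈ frk k O p 1 := FKR_mem _ |>.2 h1
    have h3 : (∑ i ∈ s, d (g i) • ((e i : C) : O)) ∈ C :=
      Submodule.sum_mem _ fun j _ => Submodule.smul_mem _ _ (e j).2
    have h4 : (∑ i ∈ s, d (g i) • ((e i : C) : O)) = 0 := by
      have := hC.disjoint.le_bot ⟨h2, h3⟩
      simpa using this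
    have h5 : (∑ i ∈ s, d (g i) • e i) = 0 := by
      apply Subtype.coe_injective
      simpa using h4
    have h6 := linearIndependent_iff'.1 e.linearIndependent s (fun i => d (g i)) h5 i hi
    rw [← hd (g i)]
    simp only [h6, zero_pow hp0]
  -- decomposition of `t`
  have key : ∀ z : O ⊗[k] O, ∃ z' ∈ tens (frk k O p 1) ⊤, ∃ c : _ →₀ O,
      z = z' + c.sum fun i n => ((e i : C) : O) ⊗ₜ[k] n := by
    intro z
    have h1 : z ∈ tens (frk k O p 1) ⊤ ⊔ tens C ⊤ := by
      induction z using TensorProduct.induction_on with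
      | zero => exact zero_mem _
      | tmul x y =>
        obtain ⟨x1, hx1, x2, hx2, rfl⟩ := Submodule.mem_sup.1
          (show x ∈ frk k O p 1 ⊔ C by rw [hC.sup_eq_top]; trivial)
        rw [TensorProduct.add_tmul]
        exact Submodule.add_mem_sup (FKR_tens hx1 trivial) (FKR_tens hx2 trivial)
      | add x y hx hy => exact add_mem hx hy
    obtain ⟨z1, hz1, z2, hz2, rfl⟩ := Submodule.mem_sup.1 h1
    have h2 : tens C ⊤ ≤ LinearMap.range (C.subtype.rTensor O) := by
      unfold tens
      rw [Submodule.map₂_le]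
      intro m hm n _
      exact ⟨(⟨m, hm⟩ : C) ⊗ₜ[k] n, rfl⟩
    obtain ⟨w, rfl⟩ := h2 hz2
    obtain ⟨c, hc⟩ := TensorProduct.eq_repr_basis_left e w
    refine ⟨z1, hz1, c, ?_⟩
    rw [← hc, Finsupp.sum, map_sum]
    rfl
  have hI : ∀ z ∈ tens (frk k O p 1) ⊤, z ^ p = 0 := by
    intro z hz
    unfold tens at hz
    rw [Submodule.map₂_eq_span_image2] at hz
    induction hz using Submodule.span_induction with
    | mem x hx =>
      obtain ⟨m, hm, n, -, rfl⟩ := hx
      show (m ⊗ₜ[k] n) ^ p = 0
      rw [Algebra.TensorProduct.tmul_pow, (FKR_mem m).1 hm, TensorProduct.zero_tmul]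
    | zero => exact zero_pow hp0
    | add x y _ _ hx hy => rw [add_pow_char, hx, hy, add_zero]
    | smul a x _ hx => rw [smul_pow, hx, smul_zero]
  obtain ⟨z', hz', c, rfl⟩ := key t
  have h1 : ∑ i ∈ c.support, (((e i : C) : O) ^ p) ⊗ₜ[k] (c i ^ p) = 0 := by
    rw [add_pow_char, hI z' hz', zero_add, Finsupp.sum, sum_pow_char] at ht
    rw [← ht]
    refine Finset.sum_congr rfl fun i _ => ?_
    rw [Algebra.TensorProduct.tmul_pow]
  have h2 : ∀ j, c j ^ p = 0 := by
    intro j
    obtain ⟨l, hl⟩ := FKR_dual _ hli j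
    have h3 := congrArg (TensorProduct.lid k O ∘ l.rTensor O) h1
    simp only [Function.comp_apply, map_sum, LinearMap.rTensor_tmul,
      TensorProduct.lid_tmul, map_zero, hl, ite_smul, one_smul, zero_smul] at h3
    rw [Finset.sum_ite_eq' c.support j] at h3
    by_cases hj : j ∈ c.support
    · simpa [hj] using h3
    · rw [Finsupp.notMem_support_iff.1 hj]
      exact zero_pow hp0
  refine Submodule.add_mem_sup hz' ?_
  exact Submodule.sum_mem _ fun i _ => FKR_tens trivial ((FKR_mem _).2 (h2 i))

end Pool.TTriv
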