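import Pool.Agent.Work.MP_10c1eb_ag_h28.Interface

set_option autoImplicit false

open TensorProduct Coalgebra WithConv

namespace Pool.TTriv

universe u

section

variable {k O : Type u} [Field k] [CommRing O] [HopfAlgebra k O]

theorem FRO_sr_tmul (l : O →ₗ[k] k) (a b : O) : sr l (a ⊗ₜ[k] b) = l b • a := by
  simp [sr]

theorem FRO_sr_mem (l : O →ₗ[k] k) (A : Submodule k O) (t : O ⊗[k] O)
    (ht : t ∈ tens A (⊤ : Submodule k O)) : sr l t ∈ A := by
  have h : tens A (⊤ : Submodule k O) ≤ A.comap (sr l) := by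
    refine Submodule.map₂_le.2 (fun a ha b _ => ?_)
    show sr l (a ⊗ₜ[k] b) ∈ A
    rw [FRO_sr_tmul]
    exact A.smul_mem _ ha
  exact h ht

theorem FRO_sr_comul (f : O) : sr (counit (R := k) (A := O)) (comul f) = f := by
  have h := lTensor_counit_comul (R := k) f
  have h2 : sr (counit (R := k) (A := O)) (comul f) =
      TensorProduct.rid k O ((counit (R := k) (A := O)).lTensor O (comul f)) := rfl
  rw [h2, h, TensorProduct.rid_tmul, one_smul]

end

theorem FRO_ind {k O : Type u} [Field k] [CommRing O] [Algebra k O] {A B : Submodule k O}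
    {P : O ⊗[k] O → Prop} (h : ∀ a ∈ A, ∀ b ∈ B, P (a ⊗ₜ[k] b)) (h0 : P 0)
    (hadd : ∀ x y, P x → P y → P (x + y)) (hs : ∀ (c : k) x, P x → P (c • x))
    {t : O ⊗[k] O} (ht : t ∈ tens A B) : P t := by
  let S : Submodule k (O ⊗[k] O) :=
    { carrier := {x | P x}
      add_mem' := fun {a b} ha hb => hadd a b ha hb
      zero_mem' := h0
      smul_mem' := fun c x hx => hs c x hx }
  have h1 : tens A B ≤ S := Submodule.map₂_le.2 (fun a ha b hb => h a ha b hb)
  exact h1 ht

theorem FRO_charP (p : ℕ) (k O : Type u) [Field k] [CharP k p] [CommRing O]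
    [HopfAlgebra k O] : CharP (O ⊗[k] O) p := by
  have hn : Nontrivial O := by
    refine ⟨⟨0, 1, ?_⟩⟩
    intro h
    have h1 := congrArg (counit (R := k) (A := O)) h
    rw [map_zero, Bialgebra.counit_one] at h1
    exact zero_ne_one h1
  exact charP_of_injective_algebraMap (algebraMap k (O ⊗[k] O)).injective p

theorem q_FRO (h1 : T_MON.{u}) (h2 : T_TEN.{u}) : T_FRO.{u} := by
  intro p _ k O _ _ _ _ r hQ n
  have := FRO_charP p k O
  have hq : p ^ r ≠ 0 := pow_ne_zero _ (Fact.out : p.Prime).ne_zero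
  induction n with
  | zero =>
    intro f hf
    have h0 : f = 0 := by
      have h : f ∈ (⊥ : Submodule k O) := hf
      exact (Submodule.mem_bot k).1 h
    rw [h0, zero_pow hq]
    exact Submodule.zero_mem _
  | succ n ih =>
    intro f hf
    obtain ⟨x, hx, y, hy, hxy⟩ := Submodule.mem_sup.1 (h2 k O (2 * n) 2 f hf)
    -- the first part
    have hxq : x ^ (p ^ r) ∈ tens (fil k O n) (⊤ : Submodule k O) := by
      refine FRO_ind (P := fun x => x ^ (p ^ r) ∈ tens (fil k O n)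
        (⊤ : Submodule k O)) ?_ ?_ ?_ ?_ hx
      · intro a ha b _
        show (a ⊗ₜ[k] b) ^ (p ^ r) ∈ _
        rw [Algebra.TensorProduct.tmul_pow]
        exact Submodule.apply_mem_map₂ (TensorProduct.mk k O O) (ih a ha) Submodule.mem_top
      · show (0 : O ⊗[k] O) ^ (p ^ r) ∈ _
        rw [zero_pow hq]
        exact Submodule.zero_mem _
      · intro a b h3 h4
        show (a + b) ^ (p ^ r) ∈ _
        rw [add_pow_char_pow]
        exact Submodule.add_mem _ h3 h4
      · intro c a h3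
        show (c • a) ^ (p ^ r) ∈ _
        rw [smul_pow]
        exact Submodule.smul_mem _ _ h3
    have hyq : ∃ g : O, y ^ (p ^ r) = g ⊗ₜ[k] (1 : O) := by
      refine FRO_ind (P := fun y => ∃ g : O, y ^ (p ^ r) = g ⊗ₜ[k] (1 : O)) ?_ ?_ ?_ ?_ hy
      · intro a _ b hb
        refine ⟨(counit (R := k) b) ^ (p ^ r) • a ^ (p ^ r), ?_⟩
        show (a ⊗ₜ[k] b) ^ (p ^ r) = _
        rw [Algebra.TensorProduct.tmul_pow, hQ b hb, ← map_pow, Algebra.algebraMap_eq_smul_one,
          TensorProduct.tmul_smul, TensorProduct.smul_tmul']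
      · exact ⟨0, by rw [zero_pow hq, TensorProduct.zero_tmul]⟩
      · rintro a b ⟨g, hg⟩ ⟨g', hg'⟩
        refine ⟨g + g', ?_⟩
        rw [add_pow_char_pow, hg, hg', TensorProduct.add_tmul]
      · rintro c a ⟨g, hg⟩
        refine ⟨c ^ (p ^ r) • g, ?_⟩
        rw [smul_pow, hg, TensorProduct.smul_tmul']
    obtain ⟨g, hg⟩ := hyq
    have hfq : (comul (f ^ (p ^ r)) : O ⊗[k] O) = x ^ (p ^ r) + g ⊗ₜ[k] (1 : O) := by
      rw [Bialgebra.comul_pow, ← hxy, add_pow_char_pow, hg]
    have hw : f ^ (p ^ r) = sr (counit (R := k) (A := O)) (x ^ (p ^ r)) + g := by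
      have h5 := FRO_sr_comul (k := k) (f ^ (p ^ r))
      rw [hfq, map_add, FRO_sr_tmul, Bialgebra.counit_one, one_smul] at h5
      exact h5.symm
    show comul (f ^ (p ^ r)) - (f ^ (p ^ r)) ⊗ₜ[k] (1 : O) ∈ tens (fil k O n) ⊤
    have h6 : comul (f ^ (p ^ r)) - (f ^ (p ^ r)) ⊗ₜ[k] (1 : O) =
        x ^ (p ^ r) - (sr (counit (R := k) (A := O)) (x ^ (p ^ r))) ⊗ₜ[k] (1 : O) := by
      have h7 : (f ^ (p ^ r)) ⊗ₜ[k] (1 : O) =
          (sr (counit (R := k) (A := O)) (x ^ (p ^ r))) ⊗ₜ[k] (1 : O) + g ⊗ₜ[k] (1 : O) := by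
        rw [← TensorProduct.add_tmul, ← hw]
      rw [hfq, h7]
      abel
    rw [h6]
    refine Submodule.sub_mem _ hxq ?_
    exact Submodule.apply_mem_map₂ (TensorProduct.mk k O O) (FRO_sr_mem _ _ _ hxq)
      Submodule.mem_top

end Pool.TTriv
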