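import Pool.Agent.Work.MP_10c1eb_ag_h28.Interface

/-! Block GRP. -/

namespace Pool.TTriv

universe u

section

variable {A G : Type u} [Ring A] [Group G] (i : G →* A) (H : ℕ → Set G)

theorem GRP_anti {w w' : ℕ} (h : w ≤ w') : VV i H w' ≤ VV i H w := by
  refine AddSubgroup.closure_mono ?_
  rintro a ⟨l, h1, h2, h3, h4⟩
  exact ⟨l, h1, h2, h.trans h3, h4⟩

theorem GRP_mul {a0 b0 : ℕ} {a b : A} (ha : a ∈ VV i H a0) (hb : b ∈ VV i H b0) :
    a * b ∈ VV i H (a0 + b0) := by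
  refine AddSubgroup.closure_induction (p := fun a _ => a * b ∈ VV i H (a0 + b0))
    ?_ ?_ ?_ ?_ ha
  · rintro a ⟨l, h1, h2, h3, h4⟩
    refine AddSubgroup.closure_induction (p := fun b _ => a * b ∈ VV i H (a0 + b0))
      ?_ ?_ ?_ ?_ hb
    · rintro b ⟨l', h1', h2', h3', h4'⟩
      refine AddSubgroup.subset_closure ⟨l ++ l', ?_, ?_, ?_, ?_⟩
      · simp [h1]
      · intro q hq
        rcases List.mem_append.1 hq with hq | hq
        · exact h2 q hq
        · exact h2' q hq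
      · rw [List.map_append, List.sum_append]
        exact add_le_add h3 h3'
      · rw [h4, h4', List.map_append, List.prod_append]
    · rw [mul_zero]
      exact zero_mem _
    · intro x y _ _ hx hy
      rw [mul_add]
      exact add_mem hx hy
    · intro x _ hx
      rw [mul_neg]
      exact neg_mem hx
  · rw [zero_mul]
    exact zero_mem _
  · intro x y _ _ hx hy
    rw [add_mul]
    exact add_mem hx hy
  · intro x _ hx
    rw [neg_mul]
    exact neg_mem hx

theorem GRP_gen {j : ℕ} {z : G} (hj : 1 ≤ j) (hz : z ∈ H j) : i z - 1 ∈ VV i H j := by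
  refine AddSubgroup.subset_closure ⟨[(j, z)], by simp, ?_, by simp, by simp⟩
  intro q hq
  rw [List.mem_singleton] at hq
  subst hq
  exact ⟨hj, hz⟩

theorem GRP_inv (x : G) : i x⁻¹ * i x = 1 := by
  rw [← map_mul, inv_mul_cancel, map_one]

theorem GRP_one (hH : ∀ (j : ℕ) (x z : G), 1 ≤ j → z ∈ H j → x * z * x⁻¹ * z⁻¹ ∈ H (j + 1))
    {j : ℕ} {z : G} (x : G) (hj : 1 ≤ j) (hz : z ∈ H j) :
    i x * (i z - 1) * i x⁻¹ - (i z - 1) ∈ VV i H (j + 1) := by
  have hu := GRP_gen i H (Nat.le_add_left 1 j) (hH j x z hj hz)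
  have hz' := GRP_gen i H hj hz
  have h1 : i (x * z * x⁻¹ * z⁻¹) * i z = i x * i z * i x⁻¹ := by
    rw [← map_mul, inv_mul_cancel_right, map_mul, map_mul]
  have h2 : i x * i x⁻¹ = 1 := by rw [← map_mul, mul_inv_cancel, map_one]
  have h3 : i x * (i z - 1) * i x⁻¹ - (i z - 1) =
      (i (x * z * x⁻¹ * z⁻¹) - 1) + (i (x * z * x⁻¹ * z⁻¹) - 1) * (i z - 1) := by
    have h4 : (i (x * z * x⁻¹ * z⁻¹) - 1) + (i (x * z * x⁻¹ * z⁻¹) - 1) * (i z - 1) =
        i (x * z * x⁻¹ * z⁻¹) * i z - i z := by noncomm_ring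
    rw [h4, h1, mul_sub, sub_mul, mul_one, h2]
    noncomm_ring
  rw [h3]
  exact add_mem hu (GRP_anti i H (Nat.le_add_right _ _) (GRP_mul i H hu hz'))

theorem GRP_prod_mem : ∀ l : List (ℕ × G), l ≠ [] → (∀ q ∈ l, 1 ≤ q.1 ∧ q.2 ∈ H q.1) →
    (l.map (fun q => i q.2 - 1)).prod ∈ VV i H (l.map Prod.fst).sum := fun l h1 h2 =>
  AddSubgroup.subset_closure ⟨l, h1, h2, le_rfl, rfl⟩

theorem GRP_list (hH : ∀ (j : ℕ) (x z : G), 1 ≤ j → z ∈ H j → x * z * x⁻¹ * z⁻¹ ∈ H (j + 1))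
    (x : G) : ∀ l : List (ℕ × G), l ≠ [] → (∀ q ∈ l, 1 ≤ q.1 ∧ q.2 ∈ H q.1) →
    i x * (l.map (fun q => i q.2 - 1)).prod * i x⁻¹ - (l.map (fun q => i q.2 - 1)).prod ∈
      VV i H ((l.map Prod.fst).sum + 1) := by
  intro l
  induction l with
  | nil => intro h; exact absurd rfl h
  | cons q l' ih =>
    intro _ hq
    have hq0 := hq q List.mem_cons_self
    have hl' : ∀ q' ∈ l', 1 ≤ q'.1 ∧ q'.2 ∈ H q'.1 := fun q' h => hq q' (List.mem_cons_of_mem _ h)
    rw [List.map_cons, List.map_cons, List.prod_cons, List.sum_cons]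
    have h1 := GRP_one i H hH x hq0.1 hq0.2
    have h0 := GRP_gen i H hq0.1 hq0.2
    by_cases he : l' = []
    · subst he
      simpa using h1
    · have h2 := ih he hl'
      have h3 := GRP_prod_mem i H l' he hl'
      set a := i q.2 - 1 with ha
      set v := (l'.map (fun q => i q.2 - 1)).prod with hv
      set w := (l'.map Prod.fst).sum with hw
      have h4 : i x * a * i x⁻¹ ∈ VV i H q.1 := by
        have h5 := add_mem (GRP_anti i H (Nat.le_succ _) h1) h0
        rwa [sub_add_cancel] at h5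
      have h5 : i x * (a * v) * i x⁻¹ = (i x * a * i x⁻¹) * (i x * v * i x⁻¹) := by
        calc i x * (a * v) * i x⁻¹ = i x * a * 1 * v * i x⁻¹ := by noncomm_ring
          _ = i x * a * (i x⁻¹ * i x) * v * i x⁻¹ := by rw [GRP_inv]
          _ = (i x * a * i x⁻¹) * (i x * v * i x⁻¹) := by noncomm_ring
      have h6 : i x * (a * v) * i x⁻¹ - a * v =
          (i x * a * i x⁻¹) * (i x * v * i x⁻¹ - v) + (i x * a * i x⁻¹ - a) * v := by
        rw [h5]
        noncomm_ring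
      rw [h6]
      refine add_mem ?_ ?_
      · have h7 := GRP_mul i H h4 h2
        rwa [← add_assoc] at h7
      · have h7 := GRP_mul i H h1 h3
        have h8 : q.1 + 1 + w = q.1 + w + 1 := by ring
        rwa [h8] at h7

end

theorem q_GRP : T_GRP.{u} := by
  intro A G _ _ i H hH
  refine ⟨fun w => GRP_anti i H (Nat.le_succ w), fun w v x hv => ?_⟩
  refine AddSubgroup.closure_induction
    (p := fun v _ => i x * v * i x⁻¹ - v ∈ VV i H (w + 1)) ?_ ?_ ?_ ?_ hv
  · rintro v ⟨l, h1, h2, h3, h4⟩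
    subst h4
    exact GRP_anti i H (Nat.add_le_add_right h3 1) (GRP_list i H hH x l h1 h2)
  · have h0 : i x * 0 * i x⁻¹ - 0 = 0 := by simp
    rw [h0]
    exact zero_mem _
  · intro a b _ _ ha hb
    have h0 : i x * (a + b) * i x⁻¹ - (a + b) =
        (i x * a * i x⁻¹ - a) + (i x * b * i x⁻¹ - b) := by noncomm_ring
    rw [h0]
    exact add_mem ha hb
  · intro a _ ha
    have h0 : i x * (-a) * i x⁻¹ - (-a) = -(i x * a * i x⁻¹ - a) := by noncomm_ring
    rw [h0]
    exact neg_mem ha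

end Pool.TTriv
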