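import Pool.Agent.Work.MP_10c1eb_ag_h28.Interface

/-! Block INA (MP_10c1eb_ag): Nakayama's lemma for the unipotent group (helper86). -/

set_option autoImplicit false

open TensorProduct Coalgebra WithConv

namespace Pool.TTriv

universe u

section INA

variable {k O : Type u} [Field k] [CommRing O] [HopfAlgebra k O]

theorem INA_swap (l c : O →ₗ[k] k) (g : O) :
    sl l (comul (sr c (comul g : O ⊗[k] O)) : O ⊗[k] O) =
      sr c (comul (sl l (comul g : O ⊗[k] O)) : O ⊗[k] O) := by
  have h1 : ∀ t : O ⊗[k] O, (comul (sl l t) : O ⊗[k] O) =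
      (TensorProduct.lid k (O ⊗[k] O)) (l.rTensor (O ⊗[k] O)
        ((comul : O →ₗ[k] O ⊗[k] O).lTensor O t)) := by
    intro t
    induction t using TensorProduct.induction_on with
    | zero => simp
    | tmul a b => simp [sl]
    | add x y hx hy => simp only [map_add, hx, hy]
  have h2 : ∀ t : O ⊗[k] O, (comul (sr c t) : O ⊗[k] O) =
      (TensorProduct.rid k (O ⊗[k] O)) (c.lTensor (O ⊗[k] O)
        ((comul : O →ₗ[k] O ⊗[k] O).rTensor O t)) := by
    intro t
    induction t using TensorProduct.induction_on with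
    | zero => simp
    | tmul a b => simp [sr]
    | add x y hx hy => simp only [map_add, hx, hy]
  have h3 : ∀ s : (O ⊗[k] O) ⊗[k] O,
      sl l ((TensorProduct.rid k (O ⊗[k] O)) (c.lTensor (O ⊗[k] O) s)) =
        sr c ((TensorProduct.lid k (O ⊗[k] O)) (l.rTensor (O ⊗[k] O)
          (TensorProduct.assoc k O O O s))) := by
    intro s
    induction s using TensorProduct.induction_on with
    | zero => simp
    | tmul t a =>
      induction t using TensorProduct.induction_on with
      | zero => simp
      | tmul b d => simp [sl, sr, TensorProduct.smul_tmul', smul_smul, mul_comm]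
      | add x y hx hy => simp only [TensorProduct.add_tmul, map_add, hx, hy]
    | add x y hx hy => simp only [map_add, hx, hy]
  rw [h1, h2, h3, Coalgebra.coassoc_apply]

theorem INA_frk (p : ℕ) [Fact p.Prime] [CharP k p] [CharP O p] (b : O)
    (hb : b ∈ frk k O p 1) : b ^ p = 0 := by
  refine Submodule.span_induction (p := fun x _ => x ^ p = 0) ?_ ?_ ?_ ?_ hb
  · intro x hx
    have hx' : x ^ (p ^ 1) = 0 := hx
    rwa [pow_one] at hx'
  · exact zero_pow (Fact.out : p.Prime).ne_zero
  · intro x y _ _ hx hy
    rw [add_pow_char, hx, hy, add_zero]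
  · intro a x _ hx
    rw [smul_pow, hx, smul_zero]

theorem INA_mem (p : ℕ) (b : O) (hb : b ^ p = 0) : b ∈ frk k O p 1 :=
  Submodule.subset_span (show b ^ (p ^ 1) = 0 by rw [pow_one]; exact hb)

theorem INA_counit_sl (l : O →ₗ[k] k) (t : O ⊗[k] O) :
    counit (R := k) (sl l t) = l (sr (counit : O →ₗ[k] k) t) := by
  induction t using TensorProduct.induction_on with
  | zero => simp
  | tmul a b => simp [sl, sr, mul_comm]
  | add x y hx hy => simp only [map_add, hx, hy]

theorem INA_sr_counit (g : O) : sr (counit : O →ₗ[k] k) (comul g : O ⊗[k] O) = g := by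
  show (TensorProduct.rid k O) ((counit : O →ₗ[k] k).lTensor O (comul g)) = g
  rw [Coalgebra.lTensor_counit_comul]
  simp

end INA

theorem q_INA (h1 : T_SLI.{u}) (_h2 : T_MON.{u}) (h3 : T_FKR.{u}) : T_INA.{u} := by
  intro p _ k O _ _ _ _ hk hU hfd
  have : Nontrivial O := (Bialgebra.counitAlgHom k O).toRingHom.domain_nontrivial
  have : CharP O p := charP_of_injective_algebraMap (algebraMap k O).injective p
  let V := inv k O p 1
  let e : Module.Basis (Fin (Module.finrank k V)) k V := Module.finBasis k V
  have hext : ∀ i, ∃ b : O →ₗ[k] k, b ∘ₗ V.subtype = e.coord i := fun i =>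
    LinearMap.exists_extend (e.coord i)
  choose b hb using hext
  refine ⟨b, ?_⟩
  have hdet : ∀ g ∈ V, (∀ i, b i g = 0) → g = 0 := by
    intro g hg hz
    have h0 : (⟨g, hg⟩ : V) = 0 := by
      rw [← e.forall_coord_eq_zero_iff]
      intro i
      rw [← hb i]
      exact hz i
    exact congrArg Subtype.val h0
  have hcI : ∀ x ∈ frk k O p 1, counit (R := k) x = 0 := by
    intro x hx
    have hx0 := INA_frk p x hx
    have h4 : counit (R := k) x ^ p = 0 := by
      rw [← Bialgebra.counit_pow, hx0, map_zero]
    exact pow_eq_zero_iff (Fact.out : p.Prime).ne_zero |>.mp h4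
  -- step (a)
  have hstep : ∀ g : O, (∀ i, sl (b i) (comul g : O ⊗[k] O) ∈ frk k O p 1) →
      ∀ c : O →ₗ[k] k, (∀ x ∈ frk k O p 1, c x = 0) →
      ∀ i, sl (b i) (comul (sr c (comul g : O ⊗[k] O)) : O ⊗[k] O) ∈ frk k O p 1 := by
    intro g hg c hc i
    rw [INA_swap]
    have h4 := hg i
    have h5 : (comul (sl (b i) (comul g : O ⊗[k] O)) : O ⊗[k] O) ^ p = 0 := by
      rw [← Bialgebra.comul_pow, INA_frk p _ h4, map_zero]
    have h6 := h3 p k O hk _ h5
    have h7 : tens (frk k O p 1) ⊤ ⊔ tens ⊤ (frk k O p 1) ≤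
        (frk k O p 1).comap (sr c : O ⊗[k] O →ₗ[k] O) := by
      refine sup_le ?_ ?_
      · refine Submodule.map₂_le.2 fun x hx y _ => ?_
        show sr c (x ⊗ₜ y) ∈ frk k O p 1
        have h8 : sr c (x ⊗ₜ[k] y) = c y • x := by simp [sr]
        rw [h8]
        exact Submodule.smul_mem _ _ hx
      · refine Submodule.map₂_le.2 fun x _ y hy => ?_
        show sr c (x ⊗ₜ y) ∈ frk k O p 1
        have h8 : sr c (x ⊗ₜ[k] y) = c y • x := by simp [sr]
        rw [h8, hc y hy, zero_smul]
        exact zero_mem _
    exact h7 h6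
  -- step (b)
  have hmain : ∀ n : ℕ, ∀ g : O, g ∈ fil k O n →
      (∀ i, sl (b i) (comul g : O ⊗[k] O) ∈ frk k O p 1) → g = 0 := by
    intro n
    induction n with
    | zero =>
      intro g hg _
      have hg' : g ∈ (⊥ : Submodule k O) := hg
      exact (Submodule.mem_bot k).mp hg'
    | succ n ih =>
      intro g hg hN
      have hg' : (comul g : O ⊗[k] O) - g ⊗ₜ 1 ∈ tens (fil k O n) ⊤ := hg
      have hsr1 : ∀ c : O →ₗ[k] k, sr c (g ⊗ₜ[k] (1 : O)) = c 1 • g := by
        intro c
        simp [sr]
      have hinv : g ∈ V := by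
        show (comul g : O ⊗[k] O) - g ⊗ₜ 1 ∈ tens ⊤ (frk k O p 1)
        rw [(h1 k O (fil k O n) (frk k O p 1) _).2.1]
        intro c hc
        let c' : O →ₗ[k] k := c - c 1 • (counit : O →ₗ[k] k)
        have hc' : ∀ x ∈ frk k O p 1, c' x = 0 := by
          intro x hx
          show c x - c 1 • counit (R := k) x = 0
          rw [hc x hx, hcI x hx, smul_zero, sub_zero]
        have hc1 : c' 1 = 0 := by
          show c 1 - c 1 • counit (R := k) (1 : O) = 0
          rw [Bialgebra.counit_one, smul_eq_mul, mul_one, sub_self]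
        have h4 : sr c' (comul g : O ⊗[k] O) ∈ fil k O n := by
          have h5 := ((h1 k O (fil k O n) (frk k O p 1) _).1.mp hg') c'
          rw [map_sub, hsr1, hc1, zero_smul, sub_zero] at h5
          exact h5
        have h5 := ih _ h4 (hstep g hN c' hc')
        have h6 : sr c' (comul g : O ⊗[k] O) =
            sr c (comul g : O ⊗[k] O) - c 1 • sr (counit : O →ₗ[k] k) (comul g : O ⊗[k] O) := by
          have h7 : ∀ t : O ⊗[k] O, sr c' t = sr c t - c 1 • sr (counit : O →ₗ[k] k) t := by
            intro t
            induction t using TensorProduct.induction_on with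
            | zero => simp
            | tmul x y =>
              show (TensorProduct.rid k O) (c'.lTensor O (x ⊗ₜ y)) =
                (TensorProduct.rid k O) (c.lTensor O (x ⊗ₜ y)) -
                  c 1 • (TensorProduct.rid k O) ((counit : O →ₗ[k] k).lTensor O (x ⊗ₜ y))
              rw [LinearMap.lTensor_tmul, LinearMap.lTensor_tmul, LinearMap.lTensor_tmul,
                TensorProduct.rid_tmul, TensorProduct.rid_tmul, TensorProduct.rid_tmul]
              show (c y - c 1 • counit (R := k) y) • x = _
              rw [sub_smul, smul_assoc]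
            | add x y hx hy =>
              rw [map_add, map_add, map_add, hx, hy, smul_add]
              abel
          exact h7 _
        rw [h5, INA_sr_counit] at h6
        rw [map_sub, hsr1]
        exact h6.symm
      refine hdet g hinv fun i => ?_
      have h4 := INA_counit_sl (b i) (comul g : O ⊗[k] O)
      rw [INA_sr_counit, hcI _ (hN i)] at h4
      exact h4.symm
  intro f hf
  obtain ⟨n, hn⟩ := hU f
  exact hmain n f hn fun i => INA_mem p _ (hf i)

end Pool.TTriv
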