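import Pool.Agent.Work.MP_10c1eb_ag_h28.Interface

set_option autoImplicit false

open TensorProduct Coalgebra WithConv

namespace Pool.TTriv

universe u

section INB

variable {k O : Type u} [Field k] [CommRing O] [HopfAlgebra k O]

theorem INB_comul_sl (l : O →ₗ[k] k) (f : O) :
    (comul (sl l (comul f : O ⊗[k] O)) : O ⊗[k] O) =
      ((sl l ∘ₗ (comul : O →ₗ[k] O ⊗[k] O)).rTensor O) (comul f) := by
  have h1 : ∀ t : O ⊗[k] O, (comul (sl l t) : O ⊗[k] O) =
      (TensorProduct.lid k (O ⊗[k] O)) (l.rTensor (O ⊗[k] O)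
        ((comul : O →ₗ[k] O ⊗[k] O).lTensor O t)) := by
    intro t
    induction t using TensorProduct.induction_on with
    | zero => simp
    | tmul a b => simp [sl]
    | add x y hx hy => simp only [map_add, hx, hy]
  have h2 : ∀ s : O ⊗[k] (O ⊗[k] O),
      ((sl l).rTensor O) ((TensorProduct.assoc k O O O).symm s) =
      (TensorProduct.lid k (O ⊗[k] O)) (l.rTensor (O ⊗[k] O) s) := by
    intro s
    induction s using TensorProduct.induction_on with
    | zero => simp
    | tmul a t =>
      induction t using TensorProduct.induction_on with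
      | zero => simp
      | tmul b c => simp [sl, TensorProduct.smul_tmul']
      | add x y hx hy => simp only [TensorProduct.tmul_add, map_add, hx, hy]
    | add x y hx hy => simp only [map_add, hx, hy]
  rw [h1, ← h2, ← Coalgebra.coassoc_apply, LinearEquiv.symm_apply_apply, LinearMap.rTensor_comp]
  rfl

theorem INB_inv_sl (p n : ℕ) (l : O →ₗ[k] k) (f : O) (hf : f ∈ inv k O p n) :
    sl l (comul f : O ⊗[k] O) ∈ inv k O p n := by
  have hf' : (comul f : O ⊗[k] O) - f ⊗ₜ 1 ∈ tens (⊤ : Submodule k O) (frk k O p n) := hf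
  show (comul (sl l (comul f : O ⊗[k] O)) : O ⊗[k] O) - (sl l (comul f : O ⊗[k] O)) ⊗ₜ 1 ∈
    tens ⊤ (frk k O p n)
  have h : tens (⊤ : Submodule k O) (frk k O p n) ≤
      (tens ⊤ (frk k O p n)).comap ((sl l ∘ₗ (comul : O →ₗ[k] O ⊗[k] O)).rTensor O) := by
    refine Submodule.map₂_le.2 fun a _ b hb => ?_
    show ((sl l ∘ₗ (comul : O →ₗ[k] O ⊗[k] O)).rTensor O) (a ⊗ₜ b) ∈ tens ⊤ (frk k O p n)
    rw [LinearMap.rTensor_tmul]
    exact Submodule.apply_mem_map₂ _ Submodule.mem_top hb
  have h2 := h hf'
  rw [Submodule.mem_comap, map_sub, ← INB_comul_sl, LinearMap.rTensor_tmul] at h2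
  exact h2

theorem INB_nontrivial (k O : Type u) [Field k] [CommRing O] [HopfAlgebra k O] : Nontrivial O :=
  (Bialgebra.counitAlgHom k O).toRingHom.domain_nontrivial

theorem INB_frk (p : ℕ) [Fact p.Prime] [CharP k p] [CharP O p] (n : ℕ) (b : O)
    (hb : b ∈ frk k O p n) : b ^ (p ^ n) = 0 := by
  refine Submodule.span_induction (p := fun x _ => x ^ (p ^ n) = 0) ?_ ?_ ?_ ?_ hb
  · intro x hx
    exact hx
  · exact zero_pow (pow_ne_zero _ (Fact.out : p.Prime).ne_zero)
  · intro x y _ _ hx hy
    rw [add_pow_char_pow, hx, hy, add_zero]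
  · intro a x _ hx
    rw [smul_pow, hx, smul_zero]

theorem INB_inv_pow (p : ℕ) [Fact p.Prime] [CharP k p] (n : ℕ) (f : O)
    (hf : f ∈ inv k O p (n + 1)) : f ^ p ∈ inv k O p n := by
  have : Nontrivial O := INB_nontrivial k O
  have : Nontrivial (O ⊗[k] O) :=
    ((Bialgebra.counitAlgHom k O).comp (Algebra.TensorProduct.lmul' k)).toRingHom.domain_nontrivial
  have : CharP O p := charP_of_injective_algebraMap (algebraMap k O).injective p
  have : CharP (O ⊗[k] O) p :=
    charP_of_injective_algebraMap (algebraMap k (O ⊗[k] O)).injective p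
  have hf' : (comul f : O ⊗[k] O) - f ⊗ₜ 1 ∈ tens (⊤ : Submodule k O) (frk k O p (n + 1)) := hf
  show (comul (f ^ p) : O ⊗[k] O) - (f ^ p) ⊗ₜ 1 ∈ tens ⊤ (frk k O p n)
  have h1 : (comul (f ^ p) : O ⊗[k] O) - (f ^ p) ⊗ₜ 1 =
      ((comul f : O ⊗[k] O) - f ⊗ₜ 1) ^ p := by
    rw [sub_pow_char, Algebra.TensorProduct.tmul_pow, one_pow, Bialgebra.comul_pow]
  rw [h1]
  have key : ∀ t ∈ tens (⊤ : Submodule k O) (frk k O p (n + 1)),
      t ^ p ∈ tens (⊤ : Submodule k O) (frk k O p n) := by
    intro t ht
    rw [tens, Submodule.map₂_eq_span_image2] at ht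
    induction ht using Submodule.span_induction with
    | mem x hx =>
      obtain ⟨a, _, c, hc, rfl⟩ := hx
      show (a ⊗ₜ[k] c) ^ p ∈ tens ⊤ (frk k O p n)
      rw [Algebra.TensorProduct.tmul_pow]
      refine Submodule.apply_mem_map₂ _ Submodule.mem_top (Submodule.subset_span ?_)
      show (c ^ p) ^ (p ^ n) = 0
      rw [← pow_mul, ← pow_succ']
      exact INB_frk p (n + 1) c hc
    | zero => rw [zero_pow (Fact.out : p.Prime).ne_zero]; exact zero_mem _
    | add x y _ _ hx hy => rw [add_pow_char]; exact add_mem hx hy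
    | smul a x _ hx => rw [smul_pow]; exact Submodule.smul_mem _ _ hx
  exact key _ hf'

end INB

theorem q_INB (h1 : T_MON.{u}) (h2 : T_INA.{u}) : T_INB.{u} := by
  intro p _ k O _ _ _ _ hk hU hfd n
  obtain ⟨b, hb⟩ := h2 p k O hk hU hfd
  have : Nontrivial O := INB_nontrivial k O
  have : CharP O p := charP_of_injective_algebraMap (algebraMap k O).injective p
  choose r hr using hk
  have hrinj : Function.Injective r := fun a c h => by rw [← hr a, ← hr c, h]
  induction n with
  | zero =>
    have hle : inv k O p 0 ≤ Submodule.span k {(1 : O)} := by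
      intro f hf
      have hz : frk k O p 0 = ⊥ := by
        rw [frk, Submodule.span_eq_bot]
        intro x hx
        have hx' : x ^ (p ^ 0) = 0 := hx
        simpa using hx'
      have hf' : f ∈ fil k O 1 := by
        have hf1 : (comul f : O ⊗[k] O) - f ⊗ₜ 1 ∈ tens (⊤ : Submodule k O) (frk k O p 0) := hf
        show (comul f : O ⊗[k] O) - f ⊗ₜ 1 ∈ tens (⊥ : Submodule k O) ⊤
        rw [hz, tens, Submodule.map₂_bot_right] at hf1
        rw [tens, Submodule.map₂_bot_left]
        exact hf1
      rw [((h1 k O).1 f).1 hf', Submodule.mem_span_singleton]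
      exact ⟨counit (R := k) f, by rw [Algebra.algebraMap_eq_smul_one]⟩
    have hfin : FiniteDimensional k (inv k O p 0) := Submodule.finiteDimensional_of_le hle
    refine ⟨hfin, ?_⟩
    rw [pow_zero]
    exact (Submodule.finrank_mono hle).trans (finrank_span_le_card _ |>.trans (by simp))
  | succ n ih =>
    obtain ⟨ih1, ih2⟩ := ih
    let Φ : (inv k O p (n + 1)) →+ (Fin (Module.finrank k (inv k O p 1)) → inv k O p n) :=
      { toFun := fun f i => ⟨sl (b i) (comul (f : O)) ^ p,
          INB_inv_pow p n _ (INB_inv_sl p (n + 1) (b i) f f.2)⟩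
        map_zero' := by
          funext i
          apply Subtype.ext
          simp [(Fact.out : p.Prime).ne_zero]
        map_add' := by
          intro f g
          funext i
          apply Subtype.ext
          simp [add_pow_char] }
    have hΦ : Function.Injective Φ := by
      rw [injective_iff_map_eq_zero]
      intro f hf
      apply Subtype.ext
      refine hb f fun i => ?_
      have := congrArg Subtype.val (congrFun hf i)
      exact this
    have hc : ∀ (a : k) (f : inv k O p (n + 1)), Φ (r a • f) = a • Φ f := by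
      intro a f
      funext i
      apply Subtype.ext
      show sl (b i) (comul ((r a • f : inv k O p (n + 1)) : O)) ^ p = a • (sl (b i) (comul (f : O)) ^ p)
      rw [Submodule.coe_smul, map_smul, map_smul, smul_pow, hr]
    have hrk := rank_le_of_injective_injectiveₛ r Φ hrinj hΦ hc
    have hfin2 : Module.rank k (Fin (Module.finrank k (inv k O p 1)) → inv k O p n) < Cardinal.aleph0 :=
      Module.rank_lt_aleph0 k _
    have hfin : FiniteDimensional k (inv k O p (n + 1)) :=
      Module.rank_lt_aleph0_iff.1 (hrk.trans_lt hfin2)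
    refine ⟨hfin, ?_⟩
    have h3 : Module.finrank k (inv k O p (n + 1)) ≤
        Module.finrank k (Fin (Module.finrank k (inv k O p 1)) → inv k O p n) :=
      Cardinal.toNat_le_toNat hrk hfin2
    rw [Module.finrank_pi_fintype] at h3
    simp only [Finset.sum_const, Finset.card_univ, Fintype.card_fin, smul_eq_mul] at h3
    refine h3.trans ?_
    rw [pow_succ']
    exact Nat.mul_le_mul_left _ ih2

end Pool.TTriv
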