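import Pool.Agent.Work.MP_10c1eb_ag_h28.Interface

/-!
# Block INC (helper48)
-/

set_option autoImplicit false

open TensorProduct Coalgebra WithConv

namespace Pool.TTriv

universe u

theorem INC_charP (p : ℕ) (k O : Type u) [Field k] [CharP k p] [CommRing O] [HopfAlgebra k O] :
    CharP O p := by
  have hn : Nontrivial O := by
    by_contra h
    rw [not_nontrivial_iff_subsingleton] at h
    have h1 : (counit (R := k) (1 : O)) = 1 := Bialgebra.counit_one
    rw [Subsingleton.elim (1 : O) 0, map_zero] at h1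
    exact zero_ne_one h1
  exact charP_of_injective_algebraMap (algebraMap k O).injective p

theorem q_INC (_h1 : T_MON.{u}) (h2 : T_TEN.{u}) : T_INC.{u} := by
  intro p _ k O _ _ _ _ n m hQ f hf
  haveI := INC_charP p k O
  have hT := h2 k O 0 m f (by rwa [zero_add])
  have h0 : tens (fil k O 0) (⊤ : Submodule k O) = ⊥ := Submodule.map₂_bot_left _ _
  rw [h0, bot_sup_eq] at hT
  let π : O →ₗ[k] O := LinearMap.id - (Algebra.linearMap k O) ∘ₗ (counit : O →ₗ[k] k)
  have hπ : ∀ b, π b = b - algebraMap k O (counit (R := k) b) := fun b => rfl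
  have hle : tens (⊤ : Submodule k O) (fil k O m) ≤ (tens ⊤ (frk k O p n)).comap (π.lTensor O) := by
    refine Submodule.map₂_le.2 fun a _ b hb => ?_
    rw [Submodule.mem_comap, TensorProduct.mk_apply, LinearMap.lTensor_tmul]
    refine Submodule.apply_mem_map₂ _ Submodule.mem_top (Submodule.subset_span ?_)
    rw [Set.mem_setOf_eq, hπ, sub_pow_char_pow, hQ b hb, sub_self]
  have h3 : π.lTensor O (comul f) ∈ tens ⊤ (frk k O p n) := hle hT
  have h4 : π.lTensor O (comul f) = (comul f : O ⊗[k] O) - f ⊗ₜ[k] 1 := by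
    show (LinearMap.id - (Algebra.linearMap k O) ∘ₗ (counit : O →ₗ[k] k)).lTensor O (comul f) = _
    rw [LinearMap.lTensor_sub, LinearMap.sub_apply, LinearMap.lTensor_id, LinearMap.id_apply,
      LinearMap.lTensor_comp, LinearMap.comp_apply, lTensor_counit_comul, LinearMap.lTensor_tmul,
      Algebra.linearMap_apply, map_one]
  rw [h4] at h3
  exact h3

end Pool.TTriv
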