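import Pool.Agent.Work.MP_10c1eb_ag_h28.Interface

/-!
# Block LGA
-/

set_option autoImplicit false

namespace Pool.TTriv

universe u

theorem LGA_base (C : ℕ) : 1 + C * (4 * C + 4 + 1) ≤ 2 ^ (4 * C + 4) := by
  have h : C + 1 ≤ 2 ^ C := Nat.lt_two_pow_self
  have h2 : (C + 1) ^ 2 ≤ 2 ^ (2 * C) := by
    calc (C + 1) ^ 2 ≤ (2 ^ C) ^ 2 := Nat.pow_le_pow_left h 2
      _ = 2 ^ (2 * C) := by rw [← pow_mul, mul_comm]
  have h3 : 2 ^ (2 * C) ≤ 2 ^ (4 * C) := Nat.pow_le_pow_right (by norm_num) (by omega)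
  have h4 : (2 : ℕ) ^ (4 * C + 4) = 16 * 2 ^ (4 * C) := by rw [pow_add]; ring
  rw [h4]
  nlinarith

theorem LGA_exp (C s : ℕ) (hs : 4 * C + 4 ≤ s) : 1 + C * (s + 1) ≤ 2 ^ s := by
  induction s, hs using Nat.le_induction with
  | base => exact LGA_base C
  | succ s hs ih =>
    have h : s < 2 ^ s := Nat.lt_two_pow_self
    have h2 : (2 : ℕ) ^ (s + 1) = 2 ^ s + 2 ^ s := by rw [pow_succ]; ring
    rw [h2]
    nlinarith

theorem LGA_log (c K : ℕ) : ∃ m₀ : ℕ, ∀ m ≥ m₀, c * Nat.clog 2 (1 + K * m) ≤ m := by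
  refine ⟨(c + 1) * (4 * (K * (c + 1)) + 4), fun m hm => ?_⟩
  have hc : 0 < c + 1 := Nat.succ_pos c
  have hs : 4 * (K * (c + 1)) + 4 ≤ m / (c + 1) := by
    rw [Nat.le_div_iff_mul_le hc, mul_comm]
    exact hm
  have h1 := LGA_exp (K * (c + 1)) (m / (c + 1)) hs
  have h2 : m < (c + 1) * (m / (c + 1) + 1) := by
    have := Nat.lt_mul_div_succ m hc
    exact this
  have h3 : 1 + K * m ≤ 2 ^ (m / (c + 1)) := by
    refine le_trans ?_ h1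
    have : K * m ≤ K * ((c + 1) * (m / (c + 1) + 1)) := Nat.mul_le_mul_left K h2.le
    calc 1 + K * m ≤ 1 + K * ((c + 1) * (m / (c + 1) + 1)) := by omega
      _ = 1 + K * (c + 1) * (m / (c + 1) + 1) := by ring
  have h4 : Nat.clog 2 (1 + K * m) ≤ m / (c + 1) := Nat.clog_le_of_le_pow h3
  calc c * Nat.clog 2 (1 + K * m) ≤ (c + 1) * (m / (c + 1)) :=
        Nat.mul_le_mul (Nat.le_succ c) h4
    _ ≤ m := Nat.mul_div_le m (c + 1)

theorem q_LGA : T_LGA := by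
  intro D r K
  obtain ⟨m₀, hm₀⟩ := LGA_log (K * (D * (r * 2))) K
  refine ⟨m₀, fun m hm ρ hρ h => ?_⟩
  have h0 := hm₀ m hm
  have hD : D ≤ 2 ^ D := Nat.lt_two_pow_self.le
  have h1 : 2 ^ ρ ≤ 2 ^ (D * (r * Nat.clog 2 (1 + ρ * (K * m)))) := by
    refine h.trans ?_
    rw [pow_mul 2 D]
    exact Nat.pow_le_pow_left hD _
  have h2 : ρ ≤ D * (r * Nat.clog 2 (1 + ρ * (K * m))) :=
    (Nat.pow_le_pow_iff_right (by norm_num)).1 h1
  have h3 : Nat.clog 2 (1 + ρ * (K * m)) ≤ 2 * Nat.clog 2 (1 + K * m) := by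
    apply Nat.clog_le_of_le_pow
    have h5 : 1 + K * m ≤ 2 ^ Nat.clog 2 (1 + K * m) := Nat.le_pow_clog (by norm_num) _
    have h6 : ρ * (K * m) ≤ (K * m) * (K * m) := Nat.mul_le_mul_right _ hρ
    calc 1 + ρ * (K * m) ≤ (1 + K * m) ^ 2 := by nlinarith
      _ ≤ (2 ^ Nat.clog 2 (1 + K * m)) ^ 2 := Nat.pow_le_pow_left h5 2
      _ = 2 ^ (2 * Nat.clog 2 (1 + K * m)) := by rw [← pow_mul, mul_comm]
  calc K * ρ ≤ K * (D * (r * (2 * Nat.clog 2 (1 + K * m)))) :=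
        Nat.mul_le_mul_left K (h2.trans (Nat.mul_le_mul_left D (Nat.mul_le_mul_left r h3)))
    _ = K * (D * (r * 2)) * Nat.clog 2 (1 + K * m) := by ring
    _ ≤ m := h0

end Pool.TTriv
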