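import Pool.Agent.Work.MP_10c1eb_ag_h28.Interface

/-!
# Block LNG (helper52): `p`-linear maps without fixed vectors are nilpotent
-/

set_option autoImplicit false

open TensorProduct Coalgebra WithConv

namespace Pool.TTriv

universe u

open Polynomial in
/-- The polynomials `S i` with `x_i = y * S_i(y)`. -/
noncomputable def LNG_S {k : Type u} [Field k] (p : ℕ) (c : ℕ → k) : ℕ → Polynomial k
  | 0 => C (c 0) * X ^ (p - 1)
  | i + 1 => X ^ (p - 1) * (LNG_S p c i ^ p + C (c (i + 1)))

open Polynomial in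
theorem LNG_S_deg {k : Type u} [Field k] (p : ℕ) (hp : 2 ≤ p) (c : ℕ → k) (hc : c 0 ≠ 0) (i : ℕ) :
    0 < (LNG_S p c i).natDegree ∧ (LNG_S p c i).eval 0 = 0 := by
  induction i with
  | zero =>
    constructor
    · rw [LNG_S, natDegree_C_mul_X_pow _ _ hc]
      omega
    · rw [LNG_S, eval_mul, eval_pow, eval_X, zero_pow (by omega), mul_zero]
  | succ i ih =>
    constructor
    · have h1 : 0 < (LNG_S p c i ^ p + C (c (i + 1))).natDegree := by
        rw [natDegree_add_C, natDegree_pow]
        exact Nat.mul_pos (by omega) ih.1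
      have h2 : LNG_S p c i ^ p + C (c (i + 1)) ≠ 0 := by
        intro h
        rw [h, natDegree_zero] at h1
        exact lt_irrefl _ h1
      rw [LNG_S, natDegree_mul (pow_ne_zero _ X_ne_zero) h2]
      omega
    · rw [LNG_S, eval_mul, eval_pow, eval_X, zero_pow (by omega), zero_mul]

open Polynomial in
/-- The solution of the equations. -/
theorem LNG_sol {k : Type u} [Field k] [IsAlgClosed k] (p : ℕ) (hp : 2 ≤ p) (c : ℕ → k)
    (hc : c 0 ≠ 0) (m : ℕ) : ∃ (x : ℕ → k), x m ≠ 0 ∧ x 0 = c 0 * x m ^ p ∧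
      ∀ i, x (i + 1) = x i ^ p + c (i + 1) * x m ^ p := by
  obtain ⟨h1, h2⟩ := LNG_S_deg p hp c hc m
  obtain ⟨y, hy⟩ := IsAlgClosed.exists_root (LNG_S p c m + C (-1)) (by
    have h3 : 0 < (LNG_S p c m + C (-1)).natDegree := by rwa [natDegree_add_C]
    exact (natDegree_pos_iff_degree_pos.1 h3).ne')
  have hy1 : (LNG_S p c m).eval y = 1 := by
    have h3 : (LNG_S p c m + C (-1)).eval y = 0 := hy
    rw [eval_add, eval_C] at h3
    linear_combination h3
  have hy0 : y ≠ 0 := by
    rintro rfl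
    rw [h2] at hy1
    exact zero_ne_one hy1
  have hpow : y * y ^ (p - 1) = y ^ p := by
    rw [← pow_succ']
    congr 1
    omega
  refine ⟨fun i => y * (LNG_S p c i).eval y, ?_, ?_, ?_⟩
  · simp only [hy1, mul_one]
    exact hy0
  · simp only [hy1, mul_one]
    rw [LNG_S, eval_mul, eval_C, eval_pow, eval_X]
    linear_combination (c 0) * hpow
  · intro i
    simp only [hy1, mul_one]
    rw [LNG_S, eval_mul, eval_pow, eval_X, eval_add, eval_pow, eval_C, mul_pow]
    linear_combination ((LNG_S p c i).eval y ^ p + c (i + 1)) * hpow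

section
variable {k H : Type u} [Field k] [AddCommGroup H] [Module k H]

theorem LNG_smul (p : ℕ) (φ : H → H) (hs : ∀ (c : k) x, φ (c • x) = c ^ p • φ x) (r : ℕ) (c : k)
    (x : H) : φ^[r] (c • x) = c ^ (p ^ r) • φ^[r] x := by
  induction r generalizing c x with
  | zero => simp
  | succ r ih =>
    rw [Function.iterate_succ_apply, hs, ih, Function.iterate_succ_apply, ← pow_mul]
    congr 2
    rw [pow_succ, mul_comm]

theorem LNG_zero (φ : H → H) (ha : ∀ x y, φ (x + y) = φ x + φ y) (r : ℕ) : φ^[r] 0 = 0 := by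
  induction r with
  | zero => rfl
  | succ r ih =>
    rw [Function.iterate_succ_apply', ih]
    exact map_zero (AddMonoidHom.mk' φ ha)

theorem LNG_sum (φ : H → H) (ha : ∀ x y, φ (x + y) = φ x + φ y) (r : ℕ) {ι : Type*}
    (s : Finset ι) (f : ι → H) : φ^[r] (∑ i ∈ s, f i) = ∑ i ∈ s, φ^[r] (f i) := by
  induction r generalizing f with
  | zero => rfl
  | succ r ih =>
    have h1 : φ (∑ i ∈ s, f i) = ∑ i ∈ s, φ (f i) := map_sum (AddMonoidHom.mk' φ ha) f s
    rw [Function.iterate_succ_apply, h1, ih]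
    rfl

/-- If every vector is killed by a power of `φ` then `φ` is nilpotent. -/
theorem LNG_nil [FiniteDimensional k H] (p : ℕ) (φ : H → H) (ha : ∀ x y, φ (x + y) = φ x + φ y)
    (hs : ∀ (c : k) x, φ (c • x) = c ^ p • φ x) (h : ∀ v, ∃ n, φ^[n] v = 0) :
    ∃ r : ℕ, ∀ x, φ^[r] x = 0 := by
  choose n hn using h
  let b := Module.finBasis k H
  refine ⟨∑ i, n (b i), fun x => ?_⟩
  have hb : ∀ i, φ^[∑ i, n (b i)] (b i) = 0 := by
    intro i
    have h1 : n (b i) ≤ ∑ i, n (b i) :=
      Finset.single_le_sum (f := fun i => n (b i)) (fun _ _ => Nat.zero_le _) (Finset.mem_univ i)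
    obtain ⟨e, he⟩ := Nat.exists_eq_add_of_le h1
    rw [he, add_comm, Function.iterate_add_apply, hn, LNG_zero φ ha]
  conv_lhs => rw [← b.sum_repr x]
  rw [LNG_sum φ ha]
  refine Finset.sum_eq_zero fun i _ => ?_
  rw [LNG_smul p φ hs, hb, smul_zero]

/-- A fixed vector from a relation with nonzero constant coefficient. -/
theorem LNG_fix [IsAlgClosed k] (p : ℕ) (hp : 2 ≤ p) (φ : H → H)
    (ha : ∀ x y, φ (x + y) = φ x + φ y)
    (hs : ∀ (c : k) x, φ (c • x) = c ^ p • φ x) (m : ℕ) (u : H) (c : ℕ → k) (hc : c 0 ≠ 0)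
    (hrel : φ^[m + 1] u = ∑ i ∈ Finset.range (m + 1), c i • φ^[i] u)
    (hind : LinearIndependent k (fun i : Fin (m + 1) => φ^[(i : ℕ)] u)) :
    ∃ w : H, φ w = w ∧ w ≠ 0 := by
  obtain ⟨x, hxm, hx0, hx⟩ := LNG_sol p hp c hc m
  refine ⟨∑ i ∈ Finset.range (m + 1), x i • φ^[i] u, ?_, ?_⟩
  · have h1 : φ (∑ i ∈ Finset.range (m + 1), x i • φ^[i] u) =
        ∑ i ∈ Finset.range (m + 1), x i ^ p • φ^[i + 1] u := by
      have h2 := LNG_sum φ ha 1 (Finset.range (m + 1)) (fun i => x i • φ^[i] u)
      rw [Function.iterate_one] at h2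
      rw [h2]
      refine Finset.sum_congr rfl fun i _ => ?_
      rw [hs, Function.iterate_succ_apply']
    rw [h1, Finset.sum_range_succ, hrel, Finset.sum_range_succ', Finset.sum_range_succ', smul_add,
      Finset.smul_sum, ← add_assoc, ← Finset.sum_add_distrib]
    congr 1
    · refine Finset.sum_congr rfl fun i _ => ?_
      rw [hx, smul_smul, ← add_smul]
      congr 1
      ring
    · rw [smul_smul, hx0]
      congr 1
      ring
  · intro h
    rw [← Fin.sum_univ_eq_sum_range (fun i => x i • φ^[i] u)] at h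
    have h3 := Fintype.linearIndependent_iff.1 hind (fun i => x i) h (Fin.last m)
    exact hxm h3

end

theorem q_LNG : T_LNG.{u} := by
  intro p hp k H _ _ _ _ _ _ φ ha hs hfix
  by_contra hcon
  have hp2 : 2 ≤ p := hp.out.two_le
  have hv : ∃ v, ∀ n, φ^[n] v ≠ 0 := by
    by_contra h
    push Not at h
    exact hcon (LNG_nil p φ ha hs h)
  obtain ⟨v, hv⟩ := hv
  have hdep : ∃ n, ¬ LinearIndependent k (fun i : Fin n => φ^[(i : ℕ)] v) := by
    refine ⟨Module.finrank k H + 1, fun h => ?_⟩
    have := h.fintype_card_le_finrank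
    rw [Fintype.card_fin] at this
    omega
  classical
  have hmin := fun {m : ℕ} => Nat.find_min (m := m) hdep
  have hspec := Nat.find_spec hdep
  set n0 := Nat.find hdep with hn0
  have hpos : n0 ≠ 0 := by
    intro h
    rw [h] at hspec
    exact hspec linearIndependent_empty_type
  obtain ⟨n, hn⟩ := Nat.exists_eq_succ_of_ne_zero hpos
  rw [hn] at hspec
  have hind : LinearIndependent k (fun i : Fin n => φ^[(i : ℕ)] v) := by
    by_contra h
    exact hmin (by omega) h
  rw [linearIndependent_finSucc'] at hspec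
  have hmem : φ^[n] v ∈ Submodule.span k (Set.range (fun i : Fin n => φ^[(i : ℕ)] v)) := by
    by_contra h
    exact hspec ⟨hind, h⟩
  obtain ⟨a', ha'⟩ := (Submodule.mem_span_range_iff_exists_fun k).1 hmem
  set a : ℕ → k := fun i => if h : i < n then a' ⟨i, h⟩ else 0 with hadef
  have hrel : φ^[n] v = ∑ i ∈ Finset.range n, a i • φ^[i] v := by
    rw [← Fin.sum_univ_eq_sum_range (fun i => a i • φ^[i] v), ← ha']
    refine Finset.sum_congr rfl fun i _ => ?_
    simp [hadef]
  have hex : ∃ j, j < n ∧ a j ≠ 0 := by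
    by_contra h
    push Not at h
    apply hv n
    rw [hrel]
    refine Finset.sum_eq_zero fun i hi => ?_
    rw [h i (Finset.mem_range.1 hi), zero_smul]
  have hjmin := fun {m : ℕ} => Nat.find_min (m := m) hex
  obtain ⟨hj, haj⟩ := Nat.find_spec hex
  set j := Nat.find hex with hjdef
  obtain ⟨m, hm⟩ : ∃ m, n = j + (m + 1) := ⟨n - j - 1, by omega⟩
  have hzero : ∀ i, i < j → a i = 0 := by
    intro i hi
    by_contra h
    exact hjmin hi ⟨by omega, h⟩
  obtain ⟨w, hw, hw0⟩ := LNG_fix p hp2 φ ha hs m (φ^[j] v) (fun i => a (j + i)) haj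
    (by
      rw [← Function.iterate_add_apply, show m + 1 + j = n by omega, hrel, hm,
        Finset.sum_range_add, Finset.sum_eq_zero (s := Finset.range j), zero_add]
      · refine Finset.sum_congr rfl fun i _ => ?_
        rw [← Function.iterate_add_apply, add_comm i j]
      · intro i hi
        rw [hzero i (Finset.mem_range.1 hi), zero_smul])
    (by
      have h := hind.comp (fun i : Fin (m + 1) => (⟨j + i, by omega⟩ : Fin n)) (by
        intro i i' h
        have := congrArg Fin.val h
        simp only [Nat.add_left_cancel_iff] at this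
        exact Fin.ext this)
      have e : (fun i : Fin (m + 1) => φ^[(i : ℕ)] (φ^[j] v)) = (fun i : Fin n => φ^[(i : ℕ)] v) ∘
          (fun i : Fin (m + 1) => (⟨j + i, by omega⟩ : Fin n)) := by
        funext i
        simp only [Function.comp_apply]
        rw [← Function.iterate_add_apply, add_comm (i : ℕ) j]
      rw [e]
      exact h)
  exact hw0 (hfix w hw)

end Pool.TTriv
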