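import Pool.Agent.Work.MP_10c1eb_ag_h28.Interface

/-! # Block LOG: there are few jumps -/

set_option autoImplicit false

open TensorProduct Coalgebra WithConv

namespace Pool.TTriv

universe u

theorem q_LOG (hMON : T_MON.{u}) (hQDB : T_QDB.{u}) (hBND : T_BND.{u}) (hPRD : T_PRD.{u})
    (hLGA : T_LGA) : T_LOG.{u} := by
  classical
  intro p _ k O _ _ _ _ hk hU hfin r hQQ K
  obtain ⟨m₀, hm₀⟩ := hLGA (Module.finrank k (inv k O p 1)) r K
  refine ⟨m₀, fun m hm => ?_⟩
  obtain ⟨hB1, hB2, -⟩ := hBND p k O hk hU hfin r hQQ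
  have hmono : Monotone (fil k O) := (hMON k O).2.1
  let U : Finset ℕ := (Finset.range (K * m)).filter (fun t => m ≤ t ∧ jump k O t)
  have hS : {t : ℕ | m ≤ t ∧ t < K * m ∧ jump k O t} = (U : Set ℕ) := by
    ext t
    simp only [U, Set.mem_setOf_eq, Finset.coe_filter, Finset.mem_range]
    constructor
    · rintro ⟨h1, h2, h3⟩
      exact ⟨h2, h1, h3⟩
    · rintro ⟨h2, h1, h3⟩
      exact ⟨h1, h2, h3⟩
  rw [hS, Set.ncard_coe_finset]
  have hcard : U.card ≤ K * m := by
    have h := Finset.card_filter_le (Finset.range (K * m)) (fun t => m ≤ t ∧ jump k O t)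
    rwa [Finset.card_range] at h
  refine hm₀ m hm U.card hcard ?_
  have hsum : ∑ t ∈ U, t ≤ U.card * (K * m) := by
    have h := Finset.sum_le_card_nsmul U (fun t => t) (K * m) (fun t ht => by
      have h1 := (Finset.mem_filter.1 ht).1
      exact (Finset.mem_range.1 h1).le)
    rwa [smul_eq_mul] at h
  have hle : 1 + ∑ t ∈ U, t ≤ 2 ^ Nat.clog 2 (1 + U.card * (K * m)) :=
    (Nat.add_le_add_left hsum 1).trans (Nat.le_pow_clog (by norm_num) _)
  have h1 : 2 ^ U.card ≤ Module.finrank k (fil k O (1 + ∑ t ∈ U, t)) :=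
    hPRD k O U (fun t ht => (Finset.mem_filter.1 ht).2.2) (hB2 _)
  have hfd : FiniteDimensional k (fil k O (2 ^ Nat.clog 2 (1 + U.card * (K * m)))) := hB2 _
  have h2 : Module.finrank k (fil k O (1 + ∑ t ∈ U, t)) ≤
      Module.finrank k (fil k O (2 ^ Nat.clog 2 (1 + U.card * (K * m)))) :=
    Submodule.finrank_mono (hmono hle)
  have h3 := hB1 (r * Nat.clog 2 (1 + U.card * (K * m)))
    (2 ^ Nat.clog 2 (1 + U.card * (K * m))) (hQDB p k O r hQQ _)
  exact h1.trans (h2.trans h3)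

end Pool.TTriv
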