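import Pool.Agent.Work.MP_10c1eb_ag_h28.Interface

set_option autoImplicit false

open TensorProduct Coalgebra WithConv

namespace Pool.TTriv

universe u

theorem MON_tens_mono {k O : Type u} [Field k] [CommRing O] [Algebra k O] {A B : Submodule k O}
    (h : A ≤ B) : tens A (⊤ : Submodule k O) ≤ tens B ⊤ :=
  Submodule.map₂_le_map₂ h le_rfl

theorem MON_one (k O : Type u) [Field k] [CommRing O] [HopfAlgebra k O] (f : O) :
    f ∈ fil k O 1 ↔ f = algebraMap k O (counit (R := k) f) := by
  have e : f ∈ fil k O 1 ↔ (comul f : O ⊗[k] O) = f ⊗ₜ[k] (1 : O) := by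
    have : f ∈ fil k O 1 ↔ (comul f : O ⊗[k] O) - f ⊗ₜ[k] (1 : O) ∈ tens (⊥ : Submodule k O) ⊤ :=
      Iff.rfl
    rw [this]
    unfold tens
    rw [Submodule.map₂_bot_left, Submodule.mem_bot, sub_eq_zero]
  rw [e]
  constructor
  · intro h
    have h1 := rTensor_counit_comul (R := k) f
    rw [h, LinearMap.rTensor_tmul] at h1
    have h2 := congrArg (TensorProduct.lid k O) h1
    simp only [TensorProduct.lid_tmul, one_smul] at h2
    rw [← h2, Algebra.smul_def, mul_one]
    simp
  · intro h
    rw [h, Bialgebra.comul_algebraMap]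
    rfl

theorem q_MON : T_MON.{u} := by
  intro k O _ _ _
  have hs : ∀ n, fil k O n ≤ fil k O (n + 1) := by
    intro n
    induction n with
    | zero => exact bot_le
    | succ n ih =>
      intro f hf
      exact MON_tens_mono ih hf
  have hm : Monotone (fil k O) := monotone_nat_of_le_succ hs
  refine ⟨MON_one k O, hm, fun n hn c => hm hn ?_⟩
  rw [MON_one]
  simp

end Pool.TTriv
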