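import Pool.Agent.Work.MP_10c1eb_ag_h28.Interface

set_option autoImplicit false

open TensorProduct Coalgebra WithConv

namespace Pool.TTriv

universe u

theorem MUL_tens {k O : Type u} [Field k] [CommRing O] [Algebra k O] (A B C : Submodule k O)
    (h : ∀ a ∈ A, ∀ b ∈ B, a * b ∈ C) (u v : O ⊗[k] O) (hu : u ∈ tens A ⊤) (hv : v ∈ tens B ⊤) :
    u * v ∈ tens C ⊤ := by
  have h1 : tens A ⊤ ≤ (tens C ⊤).comap (LinearMap.mulRight k v) := by
    refine Submodule.map₂_le.2 fun a ha x _ => ?_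
    have h2 : tens B ⊤ ≤ (tens C ⊤).comap (LinearMap.mulLeft k (a ⊗ₜ[k] x)) := by
      refine Submodule.map₂_le.2 fun b hb y _ => ?_
      show (a ⊗ₜ[k] x) * (b ⊗ₜ[k] y) ∈ tens C ⊤
      rw [Algebra.TensorProduct.tmul_mul_tmul]
      exact Submodule.apply_mem_map₂ (TensorProduct.mk k O O) (h a ha b hb) Submodule.mem_top
    exact h2 hv
  exact h1 hu

theorem MUL_right {k O : Type u} [Field k] [CommRing O] [Algebra k O] (A C : Submodule k O) (g : O)
    (h : ∀ a ∈ A, a * g ∈ C) (u : O ⊗[k] O) (hu : u ∈ tens A ⊤) :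
    u * (g ⊗ₜ[k] 1) ∈ tens C ⊤ := by
  have h1 : tens A ⊤ ≤ (tens C ⊤).comap (LinearMap.mulRight k (g ⊗ₜ[k] (1 : O))) := by
    refine Submodule.map₂_le.2 fun a ha x _ => ?_
    show (a ⊗ₜ[k] x) * (g ⊗ₜ[k] 1) ∈ tens C ⊤
    rw [Algebra.TensorProduct.tmul_mul_tmul]
    exact Submodule.apply_mem_map₂ (TensorProduct.mk k O O) (h a ha) Submodule.mem_top
  exact h1 hu

theorem q_MUL (hMON : T_MON.{u}) : T_MUL.{u} := by
  intro k O _ _ _ a b f g
  obtain ⟨-, hmono, -⟩ := hMON k O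
  have key : ∀ n : ℕ, ∀ a b : ℕ, a + b = n → ∀ f g : O, f ∈ fil k O (a + 1) → g ∈ fil k O (b + 1) →
      f * g ∈ fil k O (a + b + 1) := by
    intro n
    induction n using Nat.strong_induction_on with
    | _ n ih =>
      intro a b hab f g hf hg
      obtain ⟨u, hu⟩ : ∃ u : O ⊗[k] O, u = comul f - f ⊗ₜ[k] 1 := ⟨_, rfl⟩
      obtain ⟨v, hv⟩ : ∃ v : O ⊗[k] O, v = comul g - g ⊗ₜ[k] 1 := ⟨_, rfl⟩
      have hu1 : u ∈ tens (fil k O a) ⊤ := by rw [hu]; exact hf
      have hv1 : v ∈ tens (fil k O b) ⊤ := by rw [hv]; exact hg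
      have hA : ∀ y ∈ fil k O (b + 1), ∀ x ∈ fil k O a, x * y ∈ fil k O (a + b) := by
        intro y hy x hx
        rcases a with _ | a'
        · have hx0 : x = 0 := by
            have : x ∈ (⊥ : Submodule k O) := hx
            exact (Submodule.mem_bot k).1 this
          rw [hx0, zero_mul]; exact zero_mem _
        · have := ih (a' + b) (by omega) a' b rfl x y hx hy
          have e : a' + 1 + b = a' + b + 1 := by omega
          rw [e]; exact this
      have hB : ∀ x ∈ fil k O b, x * f ∈ fil k O (a + b) := by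
        intro x hx
        rcases b with _ | b'
        · have hx0 : x = 0 := by
            have : x ∈ (⊥ : Submodule k O) := hx
            exact (Submodule.mem_bot k).1 this
          rw [hx0, zero_mul]; exact zero_mem _
        · have := ih (a + b') (by omega) a b' rfl f x hf hx
          have e : a + (b' + 1) = a + b' + 1 := by omega
          rw [e, mul_comm]; exact this
      have t1 : u * v ∈ tens (fil k O (a + b)) ⊤ :=
        MUL_tens (fil k O a) (fil k O b) _
          (fun x hx y hy => hA y (hmono (Nat.le_succ b) hy) x hx) u v hu1 hv1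
      have t2 : u * (g ⊗ₜ[k] 1) ∈ tens (fil k O (a + b)) ⊤ :=
        MUL_right (fil k O a) _ g (hA g hg) u hu1
      have t3 : v * (f ⊗ₜ[k] 1) ∈ tens (fil k O (a + b)) ⊤ :=
        MUL_right (fil k O b) _ f hB v hv1
      show comul (f * g) - (f * g) ⊗ₜ[k] 1 ∈ tens (fil k O (a + b)) ⊤
      have e1 : (comul (f * g) : O ⊗[k] O) = comul f * comul g := Bialgebra.comul_mul f g
      have e2 : (comul f : O ⊗[k] O) = u + f ⊗ₜ[k] 1 := by rw [hu]; abel
      have e3 : (comul g : O ⊗[k] O) = v + g ⊗ₜ[k] 1 := by rw [hv]; abel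
      have e4 : (f * g) ⊗ₜ[k] (1 : O) = (f ⊗ₜ[k] 1) * (g ⊗ₜ[k] (1 : O)) := by
        rw [Algebra.TensorProduct.tmul_mul_tmul, one_mul]
      have e5 : (comul (f * g) : O ⊗[k] O) - (f * g) ⊗ₜ[k] 1 =
          u * v + u * (g ⊗ₜ[k] 1) + v * (f ⊗ₜ[k] 1) := by
        rw [e1, e2, e3, e4]; ring
      rw [e5]
      exact add_mem (add_mem t1 t2) t3
  intro hf hg
  exact key (a + b) a b rfl f g hf hg

end Pool.TTriv
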