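import Pool.Agent.Work.MP_10c1eb_ag_h28.Interface

/-!
# Block MWS: the filtration `Mw` of `fil N`
-/

set_option autoImplicit false

open TensorProduct Coalgebra WithConv

namespace Pool.TTriv

universe u

noncomputable section

section

variable {k O : Type u} [Field k] [CommRing O] [HopfAlgebra k O]

/-- The push forward of points. -/
def MWS_push {M N : Type u} [CommRing M] [Algebra k M] [CommRing N] [Algebra k N]
    (φ : M →ₐ[k] N) : Pt k O M →* Pt k O N where
  toFun x := toConv (φ.comp x.ofConv)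
  map_one' := by
    apply WithConv.ofConv_injective
    apply AlgHom.ext
    intro f
    change φ ((1 : Pt k O M) f) = (1 : Pt k O N) f
    rw [AlgHom.convOne_apply, AlgHom.convOne_apply, AlgHom.commutes]
  map_mul' x y := by
    apply WithConv.ofConv_injective
    exact AlgHom.comp_convMul_distrib φ x y

/-- Base change of linear maps. -/
def MWS_bc {M N : Type u} [CommRing M] [Algebra k M] [CommRing N] [Algebra k N]
    (φ : M →ₐ[k] N) : Cv k O M →+* Cv k O N where
  toFun v := toConv (φ.toLinearMap ∘ₗ v.ofConv)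
  map_one' := by
    apply WithConv.ofConv_injective
    apply LinearMap.ext
    intro f
    change φ ((1 : Cv k O M) f) = (1 : Cv k O N) f
    rw [LinearMap.convOne_apply, LinearMap.convOne_apply, AlgHom.commutes]
  map_mul' x y := by
    apply WithConv.ofConv_injective
    exact LinearMap.algHom_comp_convMul_distrib φ x y
  map_zero' := by
    apply WithConv.ofConv_injective
    apply LinearMap.ext
    intro f
    change φ ((0 : Cv k O M) f) = (0 : Cv k O N) f
    exact map_zero φ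
  map_add' x y := by
    apply WithConv.ofConv_injective
    apply LinearMap.ext
    intro f
    exact map_add φ (x f) (y f)

theorem MWS_bc_apply {M N : Type u} [CommRing M] [Algebra k M] [CommRing N] [Algebra k N]
    (φ : M →ₐ[k] N) (v : Cv k O M) (f : O) : MWS_bc φ v f = φ (v f) := rfl

theorem MWS_bc_cv {M N : Type u} [CommRing M] [Algebra k M] [CommRing N] [Algebra k N]
    (φ : M →ₐ[k] N) (z : Pt k O M) : MWS_bc φ (cv z) = cv (MWS_push φ z) := rfl

/-- base change maps the filtration to the filtration -/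
theorem MWS_bcV (τ : ℕ → ℕ) {M N : Type u} [CommRing M] [Algebra k M] [CommRing N]
    [Algebra k N] (φ : M →ₐ[k] N) (w : ℕ) (v : Cv k O M)
    (hv : v ∈ VV (cv (k := k) (O := O) (R := M)) (Hs k O τ M) w) :
    MWS_bc φ v ∈ VV (cv (k := k) (O := O) (R := N)) (Hs k O τ N) w := by
  unfold VV at hv
  induction hv using AddSubgroup.closure_induction with
  | mem a ha =>
    obtain ⟨l, hl, h1, h2, h3⟩ := ha
    refine AddSubgroup.subset_closure ⟨l.map (fun q => (q.1, MWS_push φ q.2)), ?_, ?_, ?_, ?_⟩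
    · simpa using hl
    · intro q hq
      rw [List.mem_map] at hq
      obtain ⟨q', hq', rfl⟩ := hq
      refine ⟨(h1 q' hq').1, ?_⟩
      intro f hf
      change φ (q'.2 f) = algebraMap k N (counit (R := k) f)
      rw [(h1 q' hq').2 f hf, AlgHom.commutes]
    · rw [List.map_map]
      exact h2
    · rw [h3, map_list_prod, List.map_map, List.map_map]
      congr 1
      refine List.map_congr_left fun q _ => ?_
      change MWS_bc φ (cv q.2 - 1) = cv (MWS_push φ q.2) - 1
      rw [map_sub, map_one]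
      rfl
  | zero =>
    rw [map_zero]
    exact zero_mem _
  | add a b _ _ ha hb =>
    rw [map_add]
    exact add_mem ha hb
  | neg a _ ha =>
    rw [map_neg]
    exact neg_mem ha

/-- slices over `R` -/
def MWS_sR (R : Type u) [CommRing R] [Algebra k R] (c : O →ₗ[k] k) : R ⊗[k] O →ₗ[k] R :=
  (TensorProduct.rid k R).toLinearMap ∘ₗ c.lTensor R

theorem MWS_slice (R : Type u) [CommRing R] [Algebra k R] (v : O →ₗ[k] R) (c : O →ₗ[k] k)
    (s : O ⊗[k] O) : v (sr c s) = MWS_sR R c (v.rTensor O s) := by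
  induction s using TensorProduct.induction_on with
  | zero => simp
  | tmul a b => simp [sr, MWS_sR]
  | add x y hx hy => simp only [map_add, hx, hy]

/-- the universal point over `R` -/
def MWS_X (k O : Type u) [Field k] [CommRing O] [HopfAlgebra k O] (R : Type u) [CommRing R]
    [Algebra k R] : Pt k O (R ⊗[k] O) :=
  toConv (Algebra.TensorProduct.includeRight : O →ₐ[k] R ⊗[k] O)

theorem MWS_key (hCNJ : T_CNJ.{u}) (R : Type u) [CommRing R] [Algebra k R] (v : Cv k O R)
    (c : O →ₗ[k] k) (f : O) :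
    v (sr c (cj k O f)) = MWS_sR R c ((cv (MWS_X k O R)⁻¹ *
      MWS_bc (Algebra.TensorProduct.includeLeft : R →ₐ[k] R ⊗[k] O) v *
      cv (MWS_X k O R)) f) := by
  have h1 := (hCNJ k O).2.1 R v.ofConv f
  have h2 := MWS_slice R v.ofConv c (cj k O f)
  rw [h1] at h2
  exact h2

theorem MWS_key1 (R : Type u) [CommRing R] [Algebra k R] (v : Cv k O R)
    (c : O →ₗ[k] k) (f : O) :
    v (sr c (f ⊗ₜ[k] 1)) = MWS_sR R c
      ((MWS_bc (Algebra.TensorProduct.includeLeft : R →ₐ[k] R ⊗[k] O) v) f) :=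
  MWS_slice R v.ofConv c (f ⊗ₜ[k] 1)

theorem MWS_mem (W : Submodule k O) (y : O)
    (h : ∀ v : O →ₗ[k] k, (∀ g ∈ W, v g = 0) → v y = 0) : y ∈ W := by
  by_contra hy
  obtain ⟨l, hl1, hl2⟩ := Submodule.exists_le_ker_of_notMem hy
  exact hl1 (h l (fun g hg => hl2 hg))

/-- the filtration of groups satisfies the hypothesis of GRP -/
theorem MWS_hyp (hCMM : T_CMM.{u}) (hNJP : T_NJP.{u}) (τ : ℕ → ℕ)
    (hτ : ∀ i ≥ 1, τ i < τ (i + 1))
    (hJ : ∀ i ≥ 1, ∀ t, τ i < t → t < τ (i + 1) → ¬ jump k O t)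
    (R : Type u) [CommRing R] [Algebra k R] (j : ℕ) (x z : Pt k O R) (hj : 1 ≤ j)
    (hz : z ∈ Hs k O τ R j) : x * z * x⁻¹ * z⁻¹ ∈ Hs k O τ R (j + 1) := by
  have h1 : InD (τ j + 1) (x * z * x⁻¹ * z⁻¹) := (hCMM k O R (τ j) x z hz).2.1
  have h2 : ∀ s, τ j + 1 + s ≤ τ (j + 1) → InD (τ j + 1 + s) (x * z * x⁻¹ * z⁻¹) := by
    intro s
    induction s with
    | zero => intro _; exact h1
    | succ s ih =>
      intro hs
      exact hNJP k O R (τ j + 1 + s) _ (hJ j hj _ (by omega) (by omega)) (ih (by omega))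
  have h3 := h2 (τ (j + 1) - (τ j + 1)) (by have := hτ j hj; omega)
  have h4 : τ j + 1 + (τ (j + 1) - (τ j + 1)) = τ (j + 1) := by have := hτ j hj; omega
  rw [h4] at h3
  exact h3

end

theorem q_MWS (hSLI : T_SLI.{u}) (_hMON : T_MON.{u}) (hVID : T_VID.{u}) (hCMM : T_CMM.{u})
    (hNJP : T_NJP.{u}) (hGRP : T_GRP.{u}) (hVIN : T_VIN.{u}) (hCNJ : T_CNJ.{u}) :
    T_MWS.{u} := by
  intro k O _ _ _ τ m N K ρ hm hτ hJ hN hK hNK
  have hG : ∀ (R : Type u) [CommRing R] [Algebra k R],
      (∀ w : ℕ, VV (cv (k := k) (O := O) (R := R)) (Hs k O τ R) (w + 1) ≤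
        VV (cv (k := k) (O := O) (R := R)) (Hs k O τ R) w) ∧
      ∀ (w : ℕ) (v : Cv k O R) (x : Pt k O R),
        v ∈ VV (cv (k := k) (O := O) (R := R)) (Hs k O τ R) w →
        cv x * v * cv x⁻¹ - v ∈ VV (cv (k := k) (O := O) (R := R)) (Hs k O τ R) (w + 1) := by
    intro R _ _
    exact hGRP (Cv k O R) (Pt k O R) cv (Hs k O τ R)
      (fun j x z hj hz => MWS_hyp hCMM hNJP τ hτ hJ R j x z hj hz)
  -- values in the subspace `fil N`
  have hfil : ∀ (v : O →ₗ[k] k), (∀ g ∈ fil k O N, v g = 0) →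
      van N (MWS_bc (Algebra.TensorProduct.includeLeft : k →ₐ[k] k ⊗[k] O)
        (toConv v : Cv k O k)) := by
    intro v hv g hg
    rw [MWS_bc_apply]
    change (Algebra.TensorProduct.includeLeft : k →ₐ[k] k ⊗[k] O) (v g) = 0
    rw [hv g hg, map_zero]
  refine ⟨?_, ?_, ?_⟩
  · intro f hf
    exact ⟨hf, fun R _ _ v hv => hVIN k O R τ m N K ρ hm hN hK hNK v hv f hf⟩
  · intro f hf
    rw [(hSLI k O _ _ _).1]
    · intro c
      refine ⟨?_, ?_⟩
      · refine MWS_mem _ _ fun v hv => ?_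
        have h1 := MWS_key hCNJ k (toConv v : Cv k O k) c f
        obtain ⟨-, h2, -, -, -, -⟩ := hVID k O (k ⊗[k] O)
        have h3 := (h2 N _ (cv (MWS_X k O k)) (h2 N _ (cv (MWS_X k O k)⁻¹) (hfil v hv)).2).1
        rw [h3 f hf.1, map_zero] at h1
        exact h1
      · intro R _ _ v hv
        have h1 := MWS_key hCNJ R v c f
        have h2 := MWS_bcV τ (Algebra.TensorProduct.includeLeft : R →ₐ[k] R ⊗[k] O) 1 v hv
        have h3 := (hG (R ⊗[k] O)).2 1 _ (MWS_X k O R)⁻¹ h2
        rw [inv_inv] at h3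
        have h4 := add_mem ((hG (R ⊗[k] O)).1 1 h3) h2
        rw [sub_add_cancel] at h4
        rw [hf.2 (R ⊗[k] O) _ h4, map_zero] at h1
        exact h1
    · exact ⊥
  · intro w hw f hf
    rw [(hSLI k O _ _ _).1]
    · intro c
      have hmap : ∀ (R : Type u) [CommRing R] [Algebra k R] (v : Cv k O R),
          v (sr c (cj k O f - f ⊗ₜ[k] 1)) = MWS_sR R c ((cv (MWS_X k O R)⁻¹ *
            MWS_bc (Algebra.TensorProduct.includeLeft : R →ₐ[k] R ⊗[k] O) v *
            cv (MWS_X k O R) -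
            MWS_bc (Algebra.TensorProduct.includeLeft : R →ₐ[k] R ⊗[k] O) v) f) := by
        intro R _ _ v
        have h1 := MWS_key hCNJ R v c f
        have h2 := MWS_key1 R v c f
        have h3 : v (sr c (cj k O f - f ⊗ₜ[k] 1)) =
            v (sr c (cj k O f)) - v (sr c (f ⊗ₜ[k] 1)) := by
          rw [map_sub]
          exact map_sub v.ofConv _ _
        rw [h3, h1, h2, ← map_sub]
        rfl
      refine ⟨?_, ?_⟩
      · refine MWS_mem _ _ fun v hv => ?_
        have h1 := hmap k (toConv v : Cv k O k)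
        obtain ⟨-, h2, -, h4, -, -⟩ := hVID k O (k ⊗[k] O)
        have h3 := (h2 N _ (cv (MWS_X k O k)) (h2 N _ (cv (MWS_X k O k)⁻¹) (hfil v hv)).2).1
        rw [(h4 N _ _ h3 (hfil v hv)).2 f hf.1, map_zero] at h1
        exact h1
      · intro R _ _ v hv
        have h2 := MWS_bcV τ (Algebra.TensorProduct.includeLeft : R →ₐ[k] R ⊗[k] O) w v hv
        have h3 := (hG (R ⊗[k] O)).2 w _ (MWS_X k O R)⁻¹ h2
        rw [inv_inv] at h3
        rw [hmap R v, hf.2 (R ⊗[k] O) _ h3, map_zero]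
    · exact ⊥

end

end Pool.TTriv
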