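import Pool.Agent.Work.MP_10c1eb_ag_h28.Interface

/-!
# Block NJP: no jump, no new condition
-/

set_option autoImplicit false

open TensorProduct Coalgebra WithConv

namespace Pool.TTriv

universe u

theorem q_NJP (_h1 : T_MON.{u}) : T_NJP.{u} := by
  intro k O _ _ _ R _ _ t x hj hx f hf
  have h1 : ∃ c : k, f - algebraMap k O c ∈
      Ideal.span {g : O | g ∈ fil k O t ∧ counit (R := k) g = 0} := by
    by_contra hcon
    push Not at hcon
    exact hj ⟨f, hf, hcon⟩
  obtain ⟨c, hc⟩ := h1
  have h2 : Ideal.span {g : O | g ∈ fil k O t ∧ counit (R := k) g = 0} ≤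
      RingHom.ker (x.ofConv : O →ₐ[k] R) := by
    rw [Ideal.span_le]
    rintro g ⟨hg, hg0⟩
    have h3 : x.ofConv g = algebraMap k R (counit (R := k) g) := hx g hg
    show x.ofConv g = 0
    rw [h3, hg0, map_zero]
  have h4 : Ideal.span {g : O | g ∈ fil k O t ∧ counit (R := k) g = 0} ≤
      RingHom.ker (Bialgebra.counitAlgHom k O) := by
    rw [Ideal.span_le]
    rintro g ⟨_, hg0⟩
    exact hg0
  have h5 : x.ofConv (f - algebraMap k O c) = 0 := h2 hc
  have h6 : Bialgebra.counitAlgHom k O (f - algebraMap k O c) = 0 := h4 hc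
  rw [map_sub, AlgHom.commutes, sub_eq_zero] at h5 h6
  have h7 : counit (R := k) f = c := h6
  show x.ofConv f = algebraMap k R (counit (R := k) f)
  rw [h5, h7]

end Pool.TTriv
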