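import Pool.Agent.Work.MP_10c1eb_ag_h28.Interface

/-!
# Block PRD: products of jump functions are linearly independent
-/

set_option autoImplicit false

open TensorProduct Coalgebra WithConv

namespace Pool.TTriv

universe u

noncomputable section

section

variable {k O : Type u} [Field k] [CommRing O] [HopfAlgebra k O]

/-- the map `(id ⊗ quotient map) ∘ Δ` -/
def PRD_Psi (J : Ideal O) : O →ₐ[k] O ⊗[k] (O ⧸ J) :=
  (Algebra.TensorProduct.map (AlgHom.id k O) (Ideal.Quotient.mkₐ k J)).comp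
    (Bialgebra.comulAlgHom k O)

/-- the quotient map as a linear map -/
def PRD_z (J : Ideal O) : O →ₗ[k] (O ⧸ J) := (Ideal.Quotient.mkₐ k J).toLinearMap

/-- the counit with values in the quotient -/
def PRD_e (J : Ideal O) : O →ₗ[k] (O ⧸ J) := (Algebra.linearMap k (O ⧸ J)) ∘ₗ counit

theorem PRD_Psi_apply (J : Ideal O) (f : O) :
    PRD_Psi (k := k) J f = TensorProduct.map (LinearMap.id : O →ₗ[k] O) (PRD_z J) (comul f) := rfl

theorem PRD_two (J : Ideal O) (f : O) :
    TensorProduct.map (LinearMap.id : O →ₗ[k] O) (PRD_e (k := k) J) (comul f) = f ⊗ₜ[k] 1 := by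
  have h1 : TensorProduct.map (LinearMap.id : O →ₗ[k] O) (PRD_e (k := k) J) =
      (TensorProduct.map (LinearMap.id : O →ₗ[k] O) (Algebra.linearMap k (O ⧸ J))) ∘ₗ
        ((counit : O →ₗ[k] k).lTensor O) := by
    rw [PRD_e, LinearMap.lTensor, ← TensorProduct.map_comp, LinearMap.id_comp]
  rw [h1, LinearMap.comp_apply, Coalgebra.lTensor_counit_comul, TensorProduct.map_tmul,
    Algebra.linearMap_apply, map_one, LinearMap.id_apply]

theorem PRD_three (J : Ideal O) (g : O →ₗ[k] (O ⧸ J)) (f : O) :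
    TensorProduct.map ((Algebra.linearMap k O) ∘ₗ counit) g (comul f) = 1 ⊗ₜ[k] g f := by
  have h1 : TensorProduct.map ((Algebra.linearMap k O) ∘ₗ counit) g =
      (TensorProduct.map (Algebra.linearMap k O) g) ∘ₗ
        ((counit : O →ₗ[k] k).rTensor O) := by
    rw [LinearMap.rTensor, ← TensorProduct.map_comp, LinearMap.comp_id]
  rw [h1, LinearMap.comp_apply, Coalgebra.rTensor_counit_comul, TensorProduct.map_tmul,
    Algebra.linearMap_apply, map_one]

/-- the ideal of the definition of a jump -/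
def PRD_J (k O : Type u) [Field k] [CommRing O] [HopfAlgebra k O] (t : ℕ) : Ideal O :=
  Ideal.span {g : O | g ∈ fil k O t ∧ counit (R := k) g = 0}

theorem PRD_zb (hMON : T_MON.{u}) (t : ℕ) (ht : 1 ≤ t) (b : O) (hb : b ∈ fil k O t) :
    PRD_z (k := k) (PRD_J k O t) b = PRD_e (k := k) (PRD_J k O t) b := by
  obtain ⟨-, -, m3⟩ := hMON k O
  have h1 : b - algebraMap k O (counit (R := k) b) ∈ PRD_J k O t := by
    refine Ideal.subset_span ⟨Submodule.sub_mem _ hb (m3 t ht _), ?_⟩
    rw [map_sub, Bialgebra.counit_algebraMap, sub_self]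
  have h2 : (Ideal.Quotient.mk (PRD_J k O t)) (b - algebraMap k O (counit (R := k) b)) = 0 :=
    Ideal.Quotient.eq_zero_iff_mem.2 h1
  rw [map_sub, sub_eq_zero] at h2
  exact h2

theorem PRD_low (hMON : T_MON.{u}) (hTEN : T_TEN.{u}) (t : ℕ) (ht : 1 ≤ t) (f : O)
    (hf : f ∈ fil k O t) : PRD_Psi (k := k) (PRD_J k O t) f = f ⊗ₜ[k] 1 := by
  have h1 := hTEN k O 0 t f (by rw [Nat.zero_add]; exact hf)
  have h2 : tens (fil k O 0) ⊤ ⊔ tens ⊤ (fil k O t) ≤
      LinearMap.ker (TensorProduct.map (LinearMap.id : O →ₗ[k] O) (PRD_z (k := k) (PRD_J k O t)) -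
        TensorProduct.map (LinearMap.id : O →ₗ[k] O) (PRD_e (k := k) (PRD_J k O t))) := by
    refine sup_le ?_ ?_
    · refine Submodule.map₂_le.2 fun a ha b _ => ?_
      have ha' : a = 0 := (Submodule.mem_bot k).1 ha
      rw [ha', map_zero, LinearMap.zero_apply]
      exact Submodule.zero_mem _
    · refine Submodule.map₂_le.2 fun a _ b hb => ?_
      rw [LinearMap.mem_ker, LinearMap.sub_apply, TensorProduct.mk_apply, TensorProduct.map_tmul,
        TensorProduct.map_tmul, PRD_zb hMON t ht b hb, sub_self]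
  have h3 := LinearMap.mem_ker.1 (h2 h1)
  rw [LinearMap.sub_apply, sub_eq_zero, PRD_two] at h3
  rw [PRD_Psi_apply, h3]

theorem PRD_high (hMON : T_MON.{u}) (hTEN : T_TEN.{u}) (t : ℕ) (ht : 1 ≤ t) (h : O)
    (hh : h ∈ fil k O (t + 1)) (h0 : counit (R := k) h = 0) :
    PRD_Psi (k := k) (PRD_J k O t) h = h ⊗ₜ[k] 1 + 1 ⊗ₜ[k] PRD_z (k := k) (PRD_J k O t) h := by
  obtain ⟨m1, -, -⟩ := hMON k O
  have h1 := hTEN k O 1 t h (by rw [Nat.add_comm]; exact hh)
  have h2 : tens (fil k O 1) ⊤ ⊔ tens ⊤ (fil k O t) ≤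
      LinearMap.ker (TensorProduct.map (LinearMap.id : O →ₗ[k] O) (PRD_z (k := k) (PRD_J k O t)) -
        TensorProduct.map (LinearMap.id : O →ₗ[k] O) (PRD_e (k := k) (PRD_J k O t)) -
        (TensorProduct.map ((Algebra.linearMap k O) ∘ₗ counit) (PRD_z (k := k) (PRD_J k O t)) -
        TensorProduct.map ((Algebra.linearMap k O) ∘ₗ counit) (PRD_e (k := k) (PRD_J k O t)))) := by
    refine sup_le ?_ ?_
    · refine Submodule.map₂_le.2 fun a ha b _ => ?_
      have ha' : ((Algebra.linearMap k O) ∘ₗ counit) a = a := ((m1 a).1 ha).symm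
      rw [LinearMap.mem_ker, LinearMap.sub_apply, LinearMap.sub_apply, LinearMap.sub_apply,
        TensorProduct.mk_apply, TensorProduct.map_tmul,
        TensorProduct.map_tmul, TensorProduct.map_tmul, TensorProduct.map_tmul, ha',
        LinearMap.id_apply, sub_self]
    · refine Submodule.map₂_le.2 fun a _ b hb => ?_
      rw [LinearMap.mem_ker, LinearMap.sub_apply, LinearMap.sub_apply, LinearMap.sub_apply,
        TensorProduct.mk_apply, TensorProduct.map_tmul,
        TensorProduct.map_tmul, TensorProduct.map_tmul, TensorProduct.map_tmul,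
        PRD_zb hMON t ht b hb, sub_self, sub_self, sub_self]
  have h3 := LinearMap.mem_ker.1 (h2 h1)
  rw [LinearMap.sub_apply, LinearMap.sub_apply, LinearMap.sub_apply, PRD_two, PRD_three,
    PRD_three] at h3
  have h4 : PRD_e (k := k) (PRD_J k O t) h = 0 := by
    rw [PRD_e, LinearMap.comp_apply, h0, map_zero]
  rw [h4, TensorProduct.tmul_zero, sub_zero, sub_sub, sub_eq_zero] at h3
  rw [PRD_Psi_apply, h3]

theorem PRD_tmul {B : Type u} [AddCommGroup B] [Module k B] (G : O) (b : B) (hb : b ≠ 0)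
    (h : G ⊗ₜ[k] b = 0) : G = 0 := by
  have h1 : ¬ ∀ f : Module.Dual k B, f b = 0 := fun h2 =>
    hb ((Module.forall_dual_apply_eq_zero_iff k b).1 h2)
  push Not at h1
  obtain ⟨l, hl⟩ := h1
  have h2 := congrArg (fun x => (TensorProduct.rid k O) (l.lTensor O x)) h
  simp only [LinearMap.lTensor_tmul, TensorProduct.rid_tmul, map_zero] at h2
  exact (smul_eq_zero.1 h2).resolve_left hl

theorem PRD_key (hMON : T_MON.{u}) (hTEN : T_TEN.{u}) (t : ℕ) (ht : 1 ≤ t) (h : O)
    (hh : h ∈ fil k O (t + 1)) (h0 : counit (R := k) h = 0) (hJ : h ∉ PRD_J k O t) (F G : O)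
    (hF : PRD_Psi (k := k) (PRD_J k O t) F = F ⊗ₜ[k] 1)
    (hG : PRD_Psi (k := k) (PRD_J k O t) G = G ⊗ₜ[k] 1) (hFG : F + G * h = 0) :
    F = 0 ∧ G = 0 := by
  have h1 := congrArg (PRD_Psi (k := k) (PRD_J k O t)) hFG
  rw [map_add, map_mul, map_zero, hF, hG, PRD_high hMON hTEN t ht h hh h0, mul_add,
    Algebra.TensorProduct.tmul_mul_tmul, Algebra.TensorProduct.tmul_mul_tmul, mul_one, mul_one,
    one_mul, ← add_assoc, ← TensorProduct.add_tmul, hFG, TensorProduct.zero_tmul, zero_add] at h1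
  have h2 : PRD_z (k := k) (PRD_J k O t) h ≠ 0 := fun h3 =>
    hJ (Ideal.Quotient.eq_zero_iff_mem.1 h3)
  have h3 : G = 0 := PRD_tmul G _ h2 h1
  refine ⟨?_, h3⟩
  rw [h3, zero_mul, add_zero] at hFG
  exact hFG

theorem PRD_indep (hMON : T_MON.{u}) (hTEN : T_TEN.{u}) (h : ℕ → O) (U : Finset ℕ) :
    (∀ t ∈ U, 1 ≤ t ∧ h t ∈ fil k O (t + 1) ∧ counit (R := k) (h t) = 0 ∧ h t ∉ PRD_J k O t) →
    ∀ α : Finset ℕ → k, ∑ V ∈ U.powerset, α V • ∏ s ∈ V, h s = 0 → ∀ V ∈ U.powerset, α V = 0 := by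
  obtain ⟨-, m2, -⟩ := hMON k O
  induction U using Finset.induction_on_max with
  | empty =>
    intro _ α hα V hV
    rw [Finset.powerset_empty, Finset.sum_singleton, Finset.prod_empty] at hα
    rw [Finset.powerset_empty, Finset.mem_singleton] at hV
    rw [hV]
    rw [← Algebra.algebraMap_eq_smul_one] at hα
    have h1 := congrArg (counit (R := k)) hα
    rw [Bialgebra.counit_algebraMap, map_zero] at h1
    exact h1
  | insert t U hmax ih =>
    intro hU α hα V hV
    have htU : t ∉ U := fun hc => lt_irrefl _ (hmax t hc)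
    obtain ⟨t1, t2, t3, t4⟩ := hU t (Finset.mem_insert_self _ _)
    have hU' : ∀ s ∈ U, 1 ≤ s ∧ h s ∈ fil k O (s + 1) ∧ counit (R := k) (h s) = 0 ∧
        h s ∉ PRD_J k O s := fun s hs => hU s (Finset.mem_insert_of_mem hs)
    have hprod : ∀ W ∈ U.powerset,
        PRD_Psi (k := k) (PRD_J k O t) (∏ s ∈ W, h s) = (∏ s ∈ W, h s) ⊗ₜ[k] 1 := by
      intro W hW
      have h1 : (∏ s ∈ W, h s) ∈ AlgHom.equalizer (PRD_Psi (k := k) (PRD_J k O t))
          (Algebra.TensorProduct.includeLeft : O →ₐ[k] O ⊗[k] (O ⧸ PRD_J k O t)) := by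
        refine Subalgebra.prod_mem _ fun s hs => ?_
        have hsU : s ∈ U := Finset.mem_powerset.1 hW hs
        exact PRD_low hMON hTEN t t1 (h s) (m2 (hmax s hsU) (hU' s hsU).2.1)
      exact h1
    have hlin : ∀ β : Finset ℕ → k,
        PRD_Psi (k := k) (PRD_J k O t) (∑ W ∈ U.powerset, β W • ∏ s ∈ W, h s) =
          (∑ W ∈ U.powerset, β W • ∏ s ∈ W, h s) ⊗ₜ[k] 1 := by
      intro β
      rw [map_sum, TensorProduct.sum_tmul]
      refine Finset.sum_congr rfl fun W hW => ?_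
      rw [map_smul, hprod W hW, TensorProduct.smul_tmul']
    rw [Finset.sum_powerset_insert htU] at hα
    have h2 : ∑ W ∈ U.powerset, α (insert t W) • ∏ s ∈ insert t W, h s =
        (∑ W ∈ U.powerset, α (insert t W) • ∏ s ∈ W, h s) * h t := by
      rw [Finset.sum_mul]
      refine Finset.sum_congr rfl fun W hW => ?_
      rw [Finset.prod_insert (fun hc => htU (Finset.mem_powerset.1 hW hc)), smul_mul_assoc,
        mul_comm (h t)]
    rw [h2] at hα
    obtain ⟨hF, hG⟩ := PRD_key hMON hTEN t t1 (h t) t2 t3 t4 _ _ (hlin α)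
      (hlin (fun W => α (insert t W))) hα
    have iF := ih hU' α hF
    have iG := ih hU' (fun W => α (insert t W)) hG
    rw [Finset.powerset_insert, Finset.mem_union, Finset.mem_image] at hV
    rcases hV with hV | ⟨W, hW, rfl⟩
    · exact iF V hV
    · exact iG W hW

theorem PRD_mem (hMON : T_MON.{u}) (hMUL : T_MUL.{u}) (h : ℕ → O) (V : Finset ℕ) :
    (∀ t ∈ V, h t ∈ fil k O (t + 1)) → (∏ s ∈ V, h s) ∈ fil k O (1 + ∑ s ∈ V, s) := by
  obtain ⟨-, -, m3⟩ := hMON k O
  induction V using Finset.induction_on with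
  | empty =>
    intro _
    rw [Finset.prod_empty, Finset.sum_empty]
    have := m3 1 le_rfl 1
    rwa [map_one] at this
  | insert t V htV ih =>
    intro hV
    rw [Finset.prod_insert htV, Finset.sum_insert htV]
    have h1 := ih fun s hs => hV s (Finset.mem_insert_of_mem hs)
    rw [add_comm] at h1
    have h2 := hMUL k O t (∑ s ∈ V, s) (h t) _ (hV t (Finset.mem_insert_self _ _)) h1
    rwa [add_comm] at h2

end

theorem q_PRD (hMON : T_MON.{u}) (hTEN : T_TEN.{u}) (hMUL : T_MUL.{u}) : T_PRD.{u} := by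
  intro k O _ _ _ U hU hfin
  obtain ⟨m1, m2, m3⟩ := hMON k O
  have hch : ∀ t : ℕ, ∃ h : O, t ∈ U → 1 ≤ t ∧ h ∈ fil k O (t + 1) ∧
      counit (R := k) h = 0 ∧ h ∉ PRD_J k O t := by
    intro t
    by_cases ht : t ∈ U
    · obtain ⟨h, hh, hc⟩ := hU t ht
      refine ⟨h - algebraMap k O (counit (R := k) h), fun _ => ⟨?_, ?_, ?_, hc _⟩⟩
      · by_contra h0
        have ht0 : t = 0 := by omega
        subst ht0
        have h1 := (m1 h).1 hh
        apply hc (counit (R := k) h)
        rw [← h1, sub_self]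
        exact Ideal.zero_mem _
      · exact Submodule.sub_mem _ hh (m3 _ (by omega) _)
      · rw [map_sub, Bialgebra.counit_algebraMap, sub_self]
    · exact ⟨0, fun h => absurd h ht⟩
  choose h hh using hch
  have hmem : ∀ V ∈ U.powerset, (∏ s ∈ V, h s) ∈ fil k O (1 + ∑ t ∈ U, t) := by
    intro V hV
    rw [Finset.mem_powerset] at hV
    have h1 := PRD_mem hMON hMUL h V fun t ht => (hh t (hV ht)).2.1
    exact m2 (Nat.add_le_add_left (Finset.sum_le_sum_of_subset hV) 1) h1
  have hli : LinearIndependent k (fun V : U.powerset =>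
      (⟨∏ s ∈ V.1, h s, hmem V.1 V.2⟩ : fil k O (1 + ∑ t ∈ U, t))) := by
    rw [Fintype.linearIndependent_iff]
    intro g hg
    classical
    have h1 := congrArg (fun x : fil k O (1 + ∑ t ∈ U, t) => (x : O)) hg
    simp only [Submodule.coe_sum, Submodule.coe_smul, Submodule.coe_zero] at h1
    have h2 := PRD_indep hMON hTEN h U (fun t ht => hh t ht)
      (fun V => if hV : V ∈ U.powerset then g ⟨V, hV⟩ else 0) (by
        rw [← Finset.sum_coe_sort U.powerset]
        rw [← h1]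
        refine Finset.sum_congr rfl fun V _ => ?_
        rw [dif_pos V.2])
    intro V
    have h3 := h2 V.1 V.2
    rw [dif_pos V.2] at h3
    exact h3
  have h4 := hli.fintype_card_le_finrank
  rwa [Fintype.card_coe, Finset.card_powerset] at h4

end

end Pool.TTriv
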