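import Pool.Agent.Work.MP_10c1eb_ag_h28.Interface

set_option autoImplicit false

open TensorProduct Coalgebra WithConv

namespace Pool.TTriv

universe u

theorem q_PRM (h1 : T_MON.{u}) : T_PRM.{u} := by
  intro p _ k O _ _ _ _ r hprim f hf
  obtain ⟨hM1, -, -⟩ := h1 k O
  have hnt : Nontrivial O := by
    by_contra hcon
    rw [not_nontrivial_iff_subsingleton] at hcon
    have h2 : (counit (R := k) (1 : O)) = 1 := Bialgebra.counit_one
    have h3 : (1 : O) = 0 := Subsingleton.elim _ _
    rw [h3, map_zero] at h2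
    exact zero_ne_one h2
  have hch : CharP O p := charP_of_injective_algebraMap (algebraMap k O).injective p
  have hle : tens (fil k O 1) ⊤ ≤ LinearMap.range (TensorProduct.mk k O O 1) := by
    unfold tens
    rw [Submodule.map₂_le]
    intro m hm n _
    have hm' := (hM1 m).1 hm
    refine ⟨counit (R := k) m • n, ?_⟩
    rw [TensorProduct.mk_apply, TensorProduct.mk_apply]
    conv_rhs => rw [hm', Algebra.algebraMap_eq_smul_one]
    rw [TensorProduct.smul_tmul]
  have hf' : (comul f : O ⊗[k] O) - f ⊗ₜ[k] 1 ∈ tens (fil k O 1) ⊤ := hf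
  obtain ⟨g, hg⟩ := hle hf'
  rw [TensorProduct.mk_apply] at hg
  have hgf : g = f - algebraMap k O (counit (R := k) f) := by
    have h2 := congrArg (fun t => TensorProduct.lid k O ((counit (R := k) (A := O)).rTensor O t)) hg
    simp only [map_sub, Coalgebra.rTensor_counit_comul, LinearMap.rTensor_tmul,
      TensorProduct.lid_tmul, Bialgebra.counit_one, one_smul] at h2
    rw [h2, Algebra.algebraMap_eq_smul_one]
  have hcf : (comul f : O ⊗[k] O) = f ⊗ₜ[k] 1 + 1 ⊗ₜ[k] g := by
    rw [hg]
    abel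
  have hcg : (comul g : O ⊗[k] O) = g ⊗ₜ[k] 1 + 1 ⊗ₜ[k] g := by
    conv_lhs => rw [hgf]
    rw [map_sub, hcf, Bialgebra.comul_algebraMap, Algebra.TensorProduct.algebraMap_apply]
    conv_rhs => rw [show g ⊗ₜ[k] (1 : O) = (f - algebraMap k O (counit (R := k) f)) ⊗ₜ[k] 1 by
      rw [← hgf]]
    rw [TensorProduct.sub_tmul]
    abel
  have h0 := hprim g hcg
  have hfg : f = g + algebraMap k O (counit (R := k) f) := by
    rw [hgf]
    abel
  calc f ^ (p ^ r) = (g + algebraMap k O (counit (R := k) f)) ^ (p ^ r) := by rw [← hfg]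
    _ = g ^ (p ^ r) + (algebraMap k O (counit (R := k) f)) ^ (p ^ r) := add_pow_char_pow ..
    _ = algebraMap k O (counit (R := k) f) ^ (p ^ r) := by rw [h0, zero_add]

end Pool.TTriv
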