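import Pool.Agent.Work.MP_10c1eb_ag_h28.Interface

/-!
# Block QDB (helper48)
-/

set_option autoImplicit false

open TensorProduct Coalgebra WithConv

namespace Pool.TTriv

universe u

theorem QDB_pow (h2 : T_FRO.{u}) (p : ℕ) [Fact p.Prime] (k O : Type u) [Field k] [CharP k p] [CommRing O]
    [HopfAlgebra k O] (r : ℕ) (hQ : QQ k O p r 2) :
    ∀ (j n : ℕ), ∀ f ∈ fil k O (2 ^ j * n), f ^ (p ^ (r * j)) ∈ fil k O n := by
  intro j
  induction j with
  | zero =>
    intro n f hf
    rw [pow_zero, one_mul] at hf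
    rw [mul_zero, pow_zero, pow_one]
    exact hf
  | succ j ih =>
    intro n f hf
    have e : 2 ^ (j + 1) * n = 2 * (2 ^ j * n) := by ring
    rw [e] at hf
    have h := ih n _ (h2 p k O r hQ _ f hf)
    rw [← pow_mul, ← pow_add] at h
    have e2 : r + r * j = r * (j + 1) := by ring
    rwa [e2] at h

theorem q_QDB (h1 : T_MON.{u}) (h2 : T_FRO.{u}) : T_QDB.{u} := by
  intro p _ k O _ _ _ _ r hQ j f hf
  have h := QDB_pow h2 p k O r hQ j 1 f (by rwa [mul_one])
  have h3 := ((h1 k O).1 _).1 h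
  rw [Bialgebra.counit_pow, map_pow] at h3
  exact h3

end Pool.TTriv
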