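import Pool.Agent.Work.MP_10c1eb_ag_h28.Interface

/-!
# Block ROP
-/

set_option autoImplicit false

open TensorProduct Coalgebra WithConv

namespace Pool.TTriv

universe u

open Polynomial in
theorem ROP_prod (p : ℕ) [Fact p.Prime] (a : ℕ) :
    (∏ c ∈ Finset.range a, cyclotomic (p ^ (c + 1)) ℚ) * (X - 1) = X ^ (p ^ a) - 1 := by
  induction a with
  | zero => simp
  | succ a ih =>
    rw [Finset.prod_range_succ, mul_right_comm, ih, mul_comm,
      cyclotomic_prime_pow_mul_X_pow_sub_one]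

open Polynomial in
theorem q_ROP : T_ROP.{u} := by
  intro p a _ F V _ _ _ _ M χ hM hχ hdeg haev
  have hp : p.Prime := Fact.out
  set Ψ : ℚ[X] := ∏ c ∈ Finset.range a, cyclotomic (p ^ (c + 1)) ℚ with hΨ
  have hco : IsCoprime χ Ψ := by
    refine IsCoprime.prod_right (fun c _ => ?_)
    have hirr : Irreducible (cyclotomic (p ^ (c + 1)) ℚ) :=
      cyclotomic.irreducible_rat (pow_pos hp.pos _)
    refine ((Irreducible.coprime_iff_not_dvd hirr).2 (fun hd => ?_)).symm
    have h1 := natDegree_le_of_dvd hd hχ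
    rw [natDegree_cyclotomic, Nat.totient_prime_pow_succ hp] at h1
    have h2 : 1 * (p - 1) ≤ p ^ c * (p - 1) := Nat.mul_le_mul_right _ (Nat.one_le_pow _ _ hp.pos)
    omega
  obtain ⟨u, v, huv⟩ := hco
  let φ : ℚ[X] →+* (V →ₗ[F] V) :=
    (aeval M : F[X] →ₐ[F] (V →ₗ[F] V)).toRingHom.comp (mapRingHom (algebraMap ℚ F))
  have hφ : ∀ q : ℚ[X], φ q = aeval M (q.map (algebraMap ℚ F)) := fun q => rfl
  have hφχ : φ χ = 0 := by rw [hφ]; exact haev
  have hφX : φ X = M := by rw [hφ]; simp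
  have h1 : φ v * φ Ψ = 1 := by
    have h2 := congrArg φ huv
    rw [map_add, map_mul, map_mul, hφχ, mul_zero, zero_add, map_one] at h2
    exact h2
  have h3 : φ Ψ * φ (X - 1) = 0 := by
    rw [← map_mul, ROP_prod, map_sub, map_pow, hφX, map_one, hM, sub_self]
  have h4 : φ (X - 1) = 0 := by
    calc φ (X - 1) = φ v * φ Ψ * φ (X - 1) := by rw [h1, one_mul]
      _ = 0 := by rw [mul_assoc, h3, mul_zero]
  rw [map_sub, hφX, map_one] at h4
  exact sub_eq_zero.1 h4

end Pool.TTriv
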