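import Pool.Agent.Work.MP_10c1eb_ag_h28.Interface

/-!
# Block SLI
-/

set_option autoImplicit false

open TensorProduct Coalgebra WithConv

namespace Pool.TTriv

universe u

section

variable {k O : Type u} [Field k] [CommRing O] [Algebra k O]

theorem SLI_sr_tmul (l : O →ₗ[k] k) (a b : O) : sr l (a ⊗ₜ[k] b) = l b • a := by
  simp [sr]

theorem SLI_sl_tmul (l : O →ₗ[k] k) (a b : O) : sl l (a ⊗ₜ[k] b) = l a • b := by
  simp [sl]

theorem SLI_tmul_mem {A B : Submodule k O} {a b : O} (ha : a ∈ A) (hb : b ∈ B) :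
    a ⊗ₜ[k] b ∈ tens A B :=
  Submodule.apply_mem_map₂ (TensorProduct.mk k O O) ha hb

theorem SLI_right {A : Submodule k O} {t : O ⊗[k] O} (h : ∀ l : O →ₗ[k] k, sr l t ∈ A) :
    t ∈ tens A ⊤ := by
  obtain ⟨c, hc⟩ := TensorProduct.eq_repr_basis_right (Module.Basis.ofVectorSpace k O) t
  have hk : ∀ j, c j ∈ A := by
    intro j
    have h1 := h ((Module.Basis.ofVectorSpace k O).coord j)
    rw [← hc, Finsupp.sum, map_sum] at h1
    have h2 : ∑ i ∈ c.support, sr ((Module.Basis.ofVectorSpace k O).coord j)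
        (c i ⊗ₜ[k] (Module.Basis.ofVectorSpace k O) i) = c j := by
      rw [Finset.sum_eq_single j]
      · rw [SLI_sr_tmul, Module.Basis.coord_apply, Module.Basis.repr_self,
          Finsupp.single_eq_same, one_smul]
      · intro i _ hij
        rw [SLI_sr_tmul, Module.Basis.coord_apply, Module.Basis.repr_self,
          Finsupp.single_eq_of_ne hij.symm, zero_smul]
      · intro hj
        rw [SLI_sr_tmul]
        simp [Finsupp.notMem_support_iff.mp hj]
    rwa [h2] at h1
  rw [← hc]
  exact Submodule.sum_mem _ fun i _ => SLI_tmul_mem (hk i) Submodule.mem_top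

theorem SLI_left {B : Submodule k O} {t : O ⊗[k] O} (h : ∀ l : O →ₗ[k] k, sl l t ∈ B) :
    t ∈ tens ⊤ B := by
  obtain ⟨c, hc⟩ := TensorProduct.eq_repr_basis_left (Module.Basis.ofVectorSpace k O) t
  have hk : ∀ j, c j ∈ B := by
    intro j
    have h1 := h ((Module.Basis.ofVectorSpace k O).coord j)
    rw [← hc, Finsupp.sum, map_sum] at h1
    have h2 : ∑ i ∈ c.support, sl ((Module.Basis.ofVectorSpace k O).coord j)
        ((Module.Basis.ofVectorSpace k O) i ⊗ₜ[k] c i) = c j := by
      rw [Finset.sum_eq_single j]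
      · rw [SLI_sl_tmul, Module.Basis.coord_apply, Module.Basis.repr_self,
          Finsupp.single_eq_same, one_smul]
      · intro i _ hij
        rw [SLI_sl_tmul, Module.Basis.coord_apply, Module.Basis.repr_self,
          Finsupp.single_eq_of_ne hij.symm, zero_smul]
      · intro hj
        rw [SLI_sl_tmul]
        simp [Finsupp.notMem_support_iff.mp hj]
    rwa [h2] at h1
  rw [← hc]
  exact Submodule.sum_mem _ fun i _ => SLI_tmul_mem Submodule.mem_top (hk i)

theorem SLI_sr_map (l : O →ₗ[k] k) (g : O →ₗ[k] O) (t : O ⊗[k] O) :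
    sr l (g.lTensor O t) = sr (l ∘ₗ g) t := by
  induction t using TensorProduct.induction_on with
  | zero => simp
  | tmul a b => rw [LinearMap.lTensor_tmul, SLI_sr_tmul, SLI_sr_tmul]; rfl
  | add x y hx hy => rw [map_add, map_add, map_add, hx, hy]

theorem SLI_sl_map (l : O →ₗ[k] k) (g : O →ₗ[k] O) (t : O ⊗[k] O) :
    sl l (g.rTensor O t) = sl (l ∘ₗ g) t := by
  induction t using TensorProduct.induction_on with
  | zero => simp
  | tmul a b => rw [LinearMap.rTensor_tmul, SLI_sl_tmul, SLI_sl_tmul]; rfl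
  | add x y hx hy => rw [map_add, map_add, map_add, hx, hy]

theorem SLI_lT {B : Submodule k O} (g : O →ₗ[k] O) (hg : ∀ x, g x ∈ B) (t : O ⊗[k] O) :
    g.lTensor O t ∈ tens ⊤ B := by
  induction t using TensorProduct.induction_on with
  | zero => rw [map_zero]; exact zero_mem _
  | tmul a b => rw [LinearMap.lTensor_tmul]; exact SLI_tmul_mem Submodule.mem_top (hg b)
  | add x y hx hy => rw [map_add]; exact add_mem hx hy

theorem SLI_rT {A : Submodule k O} (g : O →ₗ[k] O) (hg : ∀ x, g x ∈ A) (t : O ⊗[k] O) :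
    g.rTensor O t ∈ tens A ⊤ := by
  induction t using TensorProduct.induction_on with
  | zero => rw [map_zero]; exact zero_mem _
  | tmul a b => rw [LinearMap.rTensor_tmul]; exact SLI_tmul_mem (hg a) Submodule.mem_top
  | add x y hx hy => rw [map_add]; exact add_mem hx hy

theorem SLI_proj (B : Submodule k O) : ∃ g : O →ₗ[k] O, (∀ x, g x ∈ B) ∧ ∀ b ∈ B, g b = b := by
  obtain ⟨g, hg⟩ := LinearMap.exists_leftInverse_of_injective B.subtype B.ker_subtype
  refine ⟨B.subtype ∘ₗ g, fun x => (g x).2, fun b hb => ?_⟩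
  have := LinearMap.congr_fun hg ⟨b, hb⟩
  simp only [LinearMap.comp_apply, Submodule.subtype_apply, LinearMap.id_apply] at this ⊢
  rw [this]

theorem SLI_bot {t : O ⊗[k] O} (h : ∀ l : O →ₗ[k] k, sr l t = 0) : t = 0 := by
  have h1 : t ∈ tens (⊥ : Submodule k O) ⊤ := SLI_right fun l => by rw [h l]; exact zero_mem _
  have h2 : tens (⊥ : Submodule k O) (⊤ : Submodule k O) = ⊥ := by
    unfold tens
    rw [Submodule.map₂_bot_left]
  rw [h2] at h1
  exact (Submodule.mem_bot k).mp h1

end

theorem q_SLI : T_SLI.{u} := by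
  intro k O _ _ _ A B t
  refine ⟨⟨?_, SLI_right⟩, ⟨?_, ?_⟩, ⟨?_, ?_⟩⟩
  · intro ht l
    have h1 : tens A ⊤ ≤ A.comap (sr l) := by
      unfold tens
      rw [Submodule.map₂_le]
      intro a ha b _
      show sr l (a ⊗ₜ[k] b) ∈ A
      rw [SLI_sr_tmul]
      exact A.smul_mem _ ha
    exact h1 ht
  · intro ht l hl
    have h1 : tens ⊤ B ≤ LinearMap.ker (sr l) := by
      unfold tens
      rw [Submodule.map₂_le]
      intro a _ b hb
      show sr l (a ⊗ₜ[k] b) = 0
      rw [SLI_sr_tmul, hl b hb, zero_smul]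
    exact h1 ht
  · intro h
    obtain ⟨g, hg, hg2⟩ := SLI_proj B
    have h1 : t = (LinearMap.id - g).lTensor O t + g.lTensor O t := by
      rw [LinearMap.lTensor_sub, LinearMap.lTensor_id]
      simp
    have h2 : (LinearMap.id - g).lTensor O t = 0 := by
      apply SLI_bot
      intro l
      rw [SLI_sr_map]
      apply h
      intro b hb
      simp [hg2 b hb]
    rw [h1, h2, zero_add]
    exact SLI_lT g hg t
  · intro ht l hl
    have h1 : tens A ⊤ ⊔ tens ⊤ B ≤ B.comap (sl l) := by
      refine sup_le ?_ ?_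
      · unfold tens
        rw [Submodule.map₂_le]
        intro a ha b _
        show sl l (a ⊗ₜ[k] b) ∈ B
        rw [SLI_sl_tmul, hl a ha, zero_smul]
        exact zero_mem _
      · unfold tens
        rw [Submodule.map₂_le]
        intro a _ b hb
        show sl l (a ⊗ₜ[k] b) ∈ B
        rw [SLI_sl_tmul]
        exact B.smul_mem _ hb
    exact h1 ht
  · intro h
    obtain ⟨g, hg, hg2⟩ := SLI_proj A
    have h1 : t = g.rTensor O t + (LinearMap.id - g).rTensor O t := by
      rw [LinearMap.rTensor_sub, LinearMap.rTensor_id]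
      simp
    rw [h1]
    refine Submodule.add_mem_sup (SLI_rT g hg t) (SLI_left fun l => ?_)
    rw [SLI_sl_map]
    apply h
    intro a ha
    simp [hg2 a ha]

end Pool.TTriv
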