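import Pool.Agent.Work.MP_10c1eb_ag_h28.Interface

/-!
# Block TAU
-/

set_option autoImplicit false

namespace Pool.TTriv

universe u

theorem TAU_ex (P : ℕ → Prop) (N : ℕ) (hP : ∀ t, N ≤ t → P t) (a : ℕ) : ∃ t, a ≤ t ∧ P t :=
  ⟨max a N, le_max_left _ _, hP _ (le_max_right _ _)⟩

open Classical in
theorem TAU_seq (P : ℕ → Prop) (N m : ℕ) (hP : ∀ t, N ≤ t → P t) : ∃ σ : ℕ → ℕ,
    m ≤ σ 0 ∧ (∀ t, m ≤ t → t < σ 0 → ¬ P t) ∧ (∀ i, σ i < σ (i + 1)) ∧
    (∀ i t, σ i < t → t < σ (i + 1) → ¬ P t) ∧ ∀ i, P (σ i) := by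
  let nx : ℕ → ℕ := fun a => Nat.find (TAU_ex P N hP a)
  have hnx : ∀ a, a ≤ nx a ∧ P (nx a) := fun a => Nat.find_spec (TAU_ex P N hP a)
  have hmin : ∀ a t, a ≤ t → t < nx a → ¬ P t := fun a t hat ht hp =>
    Nat.find_min (TAU_ex P N hP a) ht ⟨hat, hp⟩
  let σ : ℕ → ℕ := fun i => Nat.rec (nx m) (fun _ a => nx (a + 1)) i
  have h0 : σ 0 = nx m := rfl
  have hs : ∀ i, σ (i + 1) = nx (σ i + 1) := fun i => rfl
  refine ⟨σ, ?_, ?_, ?_, ?_, ?_⟩
  · rw [h0]; exact (hnx m).1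
  · rw [h0]; exact hmin m
  · intro i
    rw [hs]
    exact (hnx (σ i + 1)).1
  · intro i t h1 h2
    rw [hs] at h2
    exact hmin (σ i + 1) t h1 h2
  · intro i
    cases i with
    | zero => rw [h0]; exact (hnx m).2
    | succ i => rw [hs]; exact (hnx (σ i + 1)).2

theorem q_TAU : T_TAU := by
  intro J m N
  obtain ⟨σ, h0, h1, h2, h3, h4⟩ :=
    TAU_seq (fun t => J t ∨ N ≤ t) N m (fun t ht => Or.inr ht)
  have hmono : StrictMono σ := strictMono_nat_of_lt_succ h2
  have hge : ∀ i, m ≤ σ i := fun i => h0.trans (hmono.monotone (Nat.zero_le i))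
  refine ⟨fun i => Nat.casesOn i m σ, ?_, ?_, ?_, ?_, ?_⟩
  · intro i
    cases i with
    | zero => exact le_refl m
    | succ i => exact hge i
  · intro t ht ht' hJ
    exact h1 t ht ht' (Or.inl hJ)
  · intro i hi
    obtain ⟨i, rfl⟩ := Nat.exists_eq_add_of_le' hi
    exact h2 i
  · intro i hi t ht ht' hJ
    obtain ⟨i, rfl⟩ := Nat.exists_eq_add_of_le' hi
    exact h3 i t ht ht' (Or.inl hJ)
  · intro i hi
    cases i with
    | zero => exact absurd hi (Nat.not_lt_zero _)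
    | succ i =>
      change N ≤ σ i
      by_contra hlt
      push Not at hlt
      have hfin : {t : ℕ | m ≤ t ∧ t < N ∧ J t}.Finite :=
        (Set.finite_Iio N).subset (fun t ht => ht.2.1)
      have hsub : (σ '' (Set.Iic i)) ⊆ {t : ℕ | m ≤ t ∧ t < N ∧ J t} := by
        rintro _ ⟨j, hj, rfl⟩
        have hjN : σ j < N := lt_of_le_of_lt (hmono.monotone hj) hlt
        refine ⟨hge j, hjN, ?_⟩
        rcases h4 j with h | h
        · exact h
        · exact absurd h (not_le.2 hjN)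
      have hcard := Set.ncard_le_ncard hsub hfin
      rw [Set.ncard_image_of_injective _ hmono.injective] at hcard
      have hI : (Set.Iic i).ncard = i + 1 := by
        rw [← Finset.coe_Iic, Set.ncard_coe_finset, Nat.card_Iic]
      rw [hI] at hcard
      exact absurd hi (not_lt.2 hcard)

end Pool.TTriv
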