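import Pool.Agent.Work.MP_10c1eb_ag_h28.Interface

set_option autoImplicit false

open TensorProduct Coalgebra WithConv

namespace Pool.TTriv

universe u

section

variable {k O : Type u} [Field k] [CommRing O] [HopfAlgebra k O]

/-- The map `l ⊗ id ⊗ id`. -/
noncomputable def TEN_L (l : O →ₗ[k] k) : O ⊗[k] (O ⊗[k] O) →ₗ[k] O ⊗[k] O :=
  (TensorProduct.lid k (O ⊗[k] O)).toLinearMap ∘ₗ l.rTensor (O ⊗[k] O)

theorem TEN_L_tmul (l : O →ₗ[k] k) (a : O) (s : O ⊗[k] O) :
    TEN_L l (a ⊗ₜ[k] s) = l a • s := by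
  simp [TEN_L]

theorem TEN_sl_tmul (l : O →ₗ[k] k) (a b : O) : sl l (a ⊗ₜ[k] b) = l a • b := by
  simp [sl]

theorem TEN_A (l : O →ₗ[k] k) (t : O ⊗[k] O) :
    (comul (sl l t) : O ⊗[k] O) = TEN_L l ((comul (R := k) (A := O)).lTensor O t) := by
  induction t using TensorProduct.induction_on with
  | zero => simp
  | tmul a b =>
    rw [TEN_sl_tmul, LinearMap.lTensor_tmul, TEN_L_tmul, map_smul]
  | add x y hx hy => rw [map_add, map_add, map_add, map_add, hx, hy]

theorem TEN_B0 (l : O →ₗ[k] k) (s : O ⊗[k] O) (b : O) :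
    TEN_L l (TensorProduct.assoc k O O O (s ⊗ₜ[k] b)) = (sl l s) ⊗ₜ[k] b := by
  induction s using TensorProduct.induction_on with
  | zero => simp
  | tmul c d =>
    rw [TensorProduct.assoc_tmul, TEN_L_tmul, TEN_sl_tmul, TensorProduct.smul_tmul']
  | add x y hx hy =>
    rw [TensorProduct.add_tmul, map_add, map_add, map_add, hx, hy, TensorProduct.add_tmul]

theorem TEN_B (l : O →ₗ[k] k) (t : O ⊗[k] O) :
    TEN_L l (TensorProduct.assoc k O O O ((comul (R := k) (A := O)).rTensor O t)) =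
      (sl l ∘ₗ comul (R := k) (A := O)).rTensor O t := by
  induction t using TensorProduct.induction_on with
  | zero => simp
  | tmul a b =>
    rw [LinearMap.rTensor_tmul, TEN_B0, LinearMap.rTensor_tmul]
    rfl
  | add x y hx hy => rw [map_add, map_add, map_add, map_add, hx, hy]

theorem TEN_C (l : O →ₗ[k] k) (f : O) :
    (comul (sl l (comul (R := k) f)) : O ⊗[k] O) =
      (sl l ∘ₗ comul (R := k) (A := O)).rTensor O (comul f) := by
  rw [TEN_A, ← Coalgebra.coassoc_apply, TEN_B]

end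

theorem q_TEN (h1 : T_SLI.{u}) (h2 : T_MON.{u}) : T_TEN.{u} := by
  intro k O _ _ _ m n
  induction n with
  | zero =>
    intro f hf
    refine Submodule.mem_sup_left ?_
    rw [Nat.add_zero] at hf
    rcases m with _ | m
    · have h0 : f = 0 := by
        have h : f ∈ (⊥ : Submodule k O) := hf
        exact (Submodule.mem_bot k).1 h
      rw [h0, map_zero]
      exact Submodule.zero_mem _
    · have hf' : comul f - f ⊗ₜ[k] (1 : O) ∈ tens (fil k O m) ⊤ := hf
      have h3 : tens (fil k O m) (⊤ : Submodule k O) ≤ tens (fil k O (m + 1)) ⊤ :=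
        Submodule.map₂_le_map₂ ((h2 k O).2.1 (Nat.le_succ m)) le_rfl
      have h4 : f ⊗ₜ[k] (1 : O) ∈ tens (fil k O (m + 1)) ⊤ :=
        Submodule.apply_mem_map₂ (TensorProduct.mk k O O) hf Submodule.mem_top
      have h5 := Submodule.add_mem _ (h3 hf') h4
      rwa [sub_add_cancel] at h5
  | succ n ih =>
    intro f hf
    have hf' : comul f - f ⊗ₜ[k] (1 : O) ∈ tens (fil k O (m + n)) ⊤ := hf
    rw [(h1 k O (fil k O m) (fil k O (n + 1)) (comul f)).2.2]
    intro l hl
    show comul (sl l (comul (R := k) f)) - (sl l (comul (R := k) f)) ⊗ₜ[k] (1 : O) ∈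
      tens (fil k O n) ⊤
    have h3 : tens (fil k O (m + n)) (⊤ : Submodule k O) ≤
        (tens (fil k O n) ⊤).comap ((sl l ∘ₗ comul (R := k) (A := O)).rTensor O) := by
      refine Submodule.map₂_le.2 (fun a ha b _ => ?_)
      have h4 := ((h1 k O (fil k O m) (fil k O n) (comul a)).2.2).1 (ih a ha) l hl
      exact Submodule.apply_mem_map₂ (TensorProduct.mk k O O) h4 Submodule.mem_top
    have h5 := h3 hf'
    rw [Submodule.mem_comap, map_sub, ← TEN_C l f, LinearMap.rTensor_tmul] at h5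
    exact h5

end Pool.TTriv
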