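import Pool.Agent.Work.MP_10c1eb_ag_h28.Interface

/-!
# Block TRV

If every function is a `p`-th power and `O` is finite-dimensional then `O = k`.
-/

set_option autoImplicit false

open TensorProduct Coalgebra WithConv

namespace Pool.TTriv

universe u

theorem TRV_top (h1 : T_MON.{u}) (k O : Type u) [Field k] [CommRing O] [HopfAlgebra k O]
    (hU : ∀ f : O, ∃ n, f ∈ fil k O n) [FiniteDimensional k O] : ∃ m : ℕ, fil k O m = ⊤ := by
  classical
  obtain ⟨-, hmono, -⟩ := h1 k O
  let b := Module.finBasis k O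
  choose n hn using fun i => hU (b i)
  refine ⟨∑ i, n i, ?_⟩
  rw [eq_top_iff, ← b.span_eq, Submodule.span_le]
  rintro _ ⟨i, rfl⟩
  have hle : n i ≤ ∑ i, n i := Finset.single_le_sum (fun _ _ => Nat.zero_le _) (Finset.mem_univ i)
  exact hmono hle (hn i)

theorem TRV_root {O : Type u} [CommRing O] (p : ℕ) (hF : ∀ f : O, ∃ g : O, g ^ p = f) (n : ℕ) :
    ∀ f : O, ∃ g : O, g ^ (p ^ n) = f := by
  induction n with
  | zero => intro f; exact ⟨f, by simp⟩
  | succ n ih =>
    intro f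
    obtain ⟨g, hg⟩ := ih f
    obtain ⟨h, hh⟩ := hF g
    refine ⟨h, ?_⟩
    rw [pow_succ', pow_mul, hh, hg]

theorem q_TRV (h1 : T_MON.{u}) (h2 : T_QDB.{u}) : T_TRV.{u} := by
  intro p _ k O _ _ _ _ hU r hQ hfd hF
  obtain ⟨m, hm⟩ := TRV_top h1 k O hU
  obtain ⟨-, hmono, -⟩ := h1 k O
  have hm2 : fil k O (2 ^ m) = ⊤ := by
    rw [eq_top_iff, ← hm]
    exact hmono (Nat.lt_two_pow_self).le
  have hq := h2 p k O r hQ m
  have hc : ∀ f : O, ∃ c : k, f = algebraMap k O c := by
    intro f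
    obtain ⟨g, hg⟩ := TRV_root p hF (r * m) f
    refine ⟨(counit (R := k) g) ^ (p ^ (r * m)), ?_⟩
    rw [map_pow, ← hq g (by rw [hm2]; exact Submodule.mem_top), hg]
  have hc' : ∀ f : O, f = algebraMap k O (counit (R := k) f) := by
    intro f
    obtain ⟨c, hcf⟩ := hc f
    rw [hcf, Bialgebra.counit_algebraMap]
  refine ⟨hc', ?_⟩
  have hinv : inv k O p 1 = ⊤ := by
    rw [eq_top_iff]
    intro f _
    change dif k O f ∈ tens ⊤ (frk k O p 1)
    have h0 : dif k O f = 0 := by
      obtain ⟨c, hcf⟩ := hc f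
      rw [hcf]
      change comul (algebraMap k O c) - (algebraMap k O c) ⊗ₜ[k] (1 : O) = 0
      rw [Bialgebra.comul_algebraMap, Algebra.TensorProduct.algebraMap_apply, sub_self]
    rw [h0]
    exact Submodule.zero_mem _
  have hne : (1 : O) ≠ 0 := by
    intro h
    have h3 : (counit (R := k) (1 : O)) = 0 := by rw [h, map_zero]
    rw [Bialgebra.counit_one] at h3
    exact one_ne_zero h3
  rw [hinv, finrank_top]
  rw [finrank_eq_one_iff_of_nonzero' (1 : O) hne]
  intro w
  refine ⟨counit (R := k) w, ?_⟩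
  rw [← Algebra.algebraMap_eq_smul_one]
  exact (hc' w).symm

end Pool.TTriv
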