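import Pool.Agent.Work.MP_10c1eb_ag_h28.Interface

/-!
# Block TWI: Frobenius twists of points
-/

set_option autoImplicit false

open TensorProduct Coalgebra WithConv

namespace Pool.TTriv

universe u

noncomputable section

section

variable {k O : Type u} [Field k] [CommRing O] [HopfAlgebra k O]

/-- The push forward of points. -/
def TWI_push {M N : Type u} [CommRing M] [Algebra k M] [CommRing N] [Algebra k N]
    (φ : M →ₐ[k] N) : Pt k O M →* Pt k O N where
  toFun x := toConv (φ.comp x.ofConv)
  map_one' := by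
    apply WithConv.ofConv_injective
    apply AlgHom.ext
    intro f
    change φ ((1 : Pt k O M) f) = (1 : Pt k O N) f
    rw [AlgHom.convOne_apply, AlgHom.convOne_apply, AlgHom.commutes]
  map_mul' x y := by
    apply WithConv.ofConv_injective
    exact AlgHom.comp_convMul_distrib φ x y

theorem TWI_push_apply {M N : Type u} [CommRing M] [Algebra k M] [CommRing N] [Algebra k N]
    (φ : M →ₐ[k] N) (x : Pt k O M) (f : O) : TWI_push φ x f = φ (x f) := rfl

/-- The twisted ring. -/
def TWI_R (R : Type u) : Type u := R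

instance TWI_inst (R : Type u) [CommRing R] : CommRing (TWI_R R) := inferInstanceAs (CommRing R)

end

theorem TWI_eq (k O R : Type u) [Field k] [CommRing O] [HopfAlgebra k O] [CommRing R]
    [Algebra k R] (hVID : T_VID.{u}) (m N : ℕ)
    (h : ∀ (x z : Pt k O R), InD m x → InD m z → van N (cv (x⁻¹ * z * x) - cv z))
    (a x y b : Pt k O R) (hx : InD m x) (hy : InD m y) (f : O) (hf : f ∈ fil k O N) :
    (a * x * y * b) f = (a * y * x * b) f := by
  obtain ⟨-, h2, -, -, -, -⟩ := hVID k O R
  have h3 : van N (cv (x * y) - cv (y * x) : Cv k O R) := by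
    have h4 := (h2 N _ (cv y) (h y x hy hx)).2
    have h5 : (cv y * (cv (y⁻¹ * x * y) - cv x) : Cv k O R) = cv (x * y) - cv (y * x) := by
      rw [mul_sub, ← map_mul, ← map_mul]
      congr 2
      group
    rw [h5] at h4
    exact h4
  have h6 : van N (cv (a * x * y * b) - cv (a * y * x * b) : Cv k O R) := by
    have h7 := (h2 N _ (cv b) (h2 N _ (cv a) h3).2).1
    have h8 : (cv a * (cv (x * y) - cv (y * x)) * cv b : Cv k O R) =
        cv (a * x * y * b) - cv (a * y * x * b) := by
      rw [mul_sub, sub_mul, ← map_mul, ← map_mul, ← map_mul, ← map_mul]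
      congr 2 <;> group
    rw [h8] at h7
    exact h7
  have h9 : (a * x * y * b) f - (a * y * x * b) f = 0 := h6 f hf
  exact sub_eq_zero.1 h9

theorem q_TWI (hVID : T_VID.{u}) : T_TWI.{u} := by
  intro p _ k O _ _ _ _ n m N hQ h f hf R _ _ a x y b
  rcases subsingleton_or_nontrivial R with hR | hR
  · exact Subsingleton.elim _ _
  haveI : CharP R p := charP_of_injective_algebraMap (algebraMap k R).injective p
  letI : Algebra k (TWI_R R) :=
    ((iterateFrobenius R p n).comp (algebraMap k R)).toAlgebra
  let F : R →ₐ[k] TWI_R R :=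
    { toRingHom := iterateFrobenius R p n
      commutes' := fun r => rfl }
  have hF : ∀ r : R, F r = r ^ (p ^ n) := fun r => rfl
  have hpf : ∀ (w : Pt k O R) (g : O), TWI_push F w g = w (g ^ (p ^ n)) := by
    intro w g
    rw [TWI_push_apply, hF]
    exact (map_pow w.ofConv g (p ^ n)).symm
  have hD : ∀ w : Pt k O R, InD m (TWI_push F w) := by
    intro w g hg
    rw [hpf, hQ g hg]
    have h1 : w (algebraMap k O (counit (R := k) g) ^ (p ^ n)) =
        (algebraMap k R (counit (R := k) g)) ^ (p ^ n) := by
      refine (map_pow w.ofConv _ (p ^ n)).trans ?_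
      rw [AlgHom.commutes]
    rw [h1]
    rfl
  have h2 := TWI_eq k O (TWI_R R) hVID m N (fun x z hx hz => h (TWI_R R) x z hx hz)
    (TWI_push F a) (TWI_push F x) (TWI_push F y) (TWI_push F b) (hD x) (hD y) f hf
  rw [← map_mul, ← map_mul, ← map_mul, ← map_mul, ← map_mul, ← map_mul, hpf, hpf] at h2
  exact h2

end

end Pool.TTriv
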