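import Pool.Agent.Work.MP_10c1eb_ag_h28.Interface

set_option autoImplicit false

open TensorProduct Coalgebra WithConv

namespace Pool.TTriv

universe u

theorem VID_mul {k O : Type u} [Field k] [CommRing O] [HopfAlgebra k O] {R : Type u} [CommRing R]
    [Algebra k R] (h2 : T_TEN.{u}) (m n : ℕ) (a b : Cv k O R) (ha : van m a) (hb : van n b) :
    van (m + n) (a * b) := by
  intro f hf
  rw [LinearMap.convMul_apply]
  have h := h2 k O m n f hf
  have hle : tens (fil k O m) ⊤ ⊔ tens ⊤ (fil k O n) ≤
      LinearMap.ker (LinearMap.mul' k R ∘ₗ TensorProduct.map a.ofConv b.ofConv) := by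
    refine sup_le ?_ ?_
    · refine Submodule.map₂_le.2 ?_
      intro x hx y _
      have h3 : a.ofConv x = 0 := ha x hx
      simp [h3]
    · refine Submodule.map₂_le.2 ?_
      intro x _ y hy
      have h3 : b.ofConv y = 0 := hb y hy
      simp [h3]
  exact LinearMap.mem_ker.1 (hle h)

theorem VID_zero {k O : Type u} [Field k] [CommRing O] [HopfAlgebra k O] {R : Type u} [CommRing R]
    [Algebra k R] (a : Cv k O R) : van 0 a := by
  intro f hf
  have h : f = 0 := (Submodule.mem_bot k).1 hf
  rw [h]
  exact map_zero a.ofConv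

theorem q_VID (h1 : T_MON.{u}) (h2 : T_TEN.{u}) : T_VID.{u} := by
  intro k O _ _ _ R _ _
  have key : ∀ (n : ℕ) (x : Pt k O R), InD n x ↔ van n (cv x - 1) := by
    intro n x
    refine forall₂_congr fun f _ => ?_
    have h3 : (cv x - 1 : Cv k O R) f = x f - algebraMap k R (counit (R := k) f) := by
      rfl
    rw [h3, sub_eq_zero]
  refine ⟨fun m n a b ha hb => VID_mul h2 m n a b ha hb, ?_, ?_, ?_, key, ?_⟩
  · intro n a b ha
    constructor
    · have h3 := VID_mul h2 n 0 a b ha (VID_zero b)
      simpa using h3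
    · have h3 := VID_mul h2 0 n b a (VID_zero b) ha
      simpa using h3
  · intro m n a hmn ha f hf
    exact ha f ((h1 k O).2.1 hmn hf)
  · intro n a b ha hb
    refine ⟨fun f hf => ?_, fun f hf => ?_⟩
    · have h3 : (a + b : Cv k O R) f = a f + b f := rfl
      rw [h3, ha f hf, hb f hf, add_zero]
    · have h3 : (a - b : Cv k O R) f = a f - b f := rfl
      rw [h3, ha f hf, hb f hf, sub_zero]
  · intro x f hf
    have h3 := ((h1 k O).1 f).1 hf
    have h4 : x.ofConv (algebraMap k O (counit (R := k) f)) =
        algebraMap k R (counit (R := k) f) := x.ofConv.commutes _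
    have h5 : x.ofConv f = x.ofConv (algebraMap k O (counit (R := k) f)) := congrArg _ h3
    exact h5.trans h4

end Pool.TTriv
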