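import Pool.Agent.Work.MP_10c1eb_ag_h28.Interface

/-!
# Block VIN

The `(m + 1)`-st term of the filtration vanishes on `fil N`, if there are few jumps.
-/

set_option autoImplicit false

open TensorProduct Coalgebra WithConv

namespace Pool.TTriv

universe u

theorem VIN_van_zero {k O R : Type u} [Field k] [CommRing O] [HopfAlgebra k O] [CommRing R]
    [Algebra k R] (a : Cv k O R) : van 0 a := by
  intro f hf
  have hf' : f ∈ (⊥ : Submodule k O) := hf
  rw [Submodule.mem_bot] at hf'
  subst hf'
  exact map_zero a.ofConv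

theorem VIN_van_zero' {k O R : Type u} [Field k] [CommRing O] [HopfAlgebra k O] [CommRing R]
    [Algebra k R] (n : ℕ) : van n (0 : Cv k O R) := by
  intro f _
  rfl

theorem VIN_prod {k O R : Type u} [Field k] [CommRing O] [HopfAlgebra k O] [CommRing R]
    [Algebra k R]
    (hm : ∀ (m n : ℕ) (a b : Cv k O R), van m a → van n b → van (m + n) (a * b)) (m : ℕ) :
    ∀ l : List (Cv k O R), (∀ a ∈ l, van m a) → van (l.length * m) l.prod
  | [], _ => by
    rw [List.length_nil, Nat.zero_mul]
    exact VIN_van_zero _
  | a :: l, h => by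
    have h1 := VIN_prod hm m l (fun b hb => h b (List.mem_cons_of_mem _ hb))
    have h2 := hm _ _ a l.prod (h a List.mem_cons_self) h1
    rw [List.prod_cons, List.length_cons, Nat.succ_mul, Nat.add_comm]
    exact h2

theorem q_VIN (h1 : T_VID.{u}) : T_VIN.{u} := by
  intro k O _ _ _ R _ _ τ m N K ρ hτ hN hK hNK v hv
  obtain ⟨hmul, hid, hmono, hadd, hInD, -⟩ := h1 k O R
  unfold VV at hv
  induction hv using AddSubgroup.closure_induction with
  | mem v hv =>
    obtain ⟨l, -, hl, hw, rfl⟩ := hv
    by_cases hc : ∃ q ∈ l, ρ < q.1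
    · obtain ⟨q, hq, hρ⟩ := hc
      obtain ⟨s, t, rfl⟩ := List.append_of_mem hq
      have h2 : van (τ q.1) (cv q.2 - 1) := (hInD _ _).1 (hl q hq).2
      have h3 : van N (cv q.2 - 1) := hmono _ _ _ (hN _ hρ) h2
      rw [List.map_append, List.map_cons, List.prod_append, List.prod_cons]
      exact (hid N _ _ (hid N _ _ h3).1).2
    · push Not at hc
      have h2 : ∀ a ∈ l.map (fun q : ℕ × Pt k O R => cv q.2 - 1), van m a := by
        intro a ha
        rw [List.mem_map] at ha
        obtain ⟨q, hq, rfl⟩ := ha
        exact hmono _ _ _ (hτ q.1) ((hInD _ _).1 (hl q hq).2)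
      have h3 := VIN_prod hmul m _ h2
      rw [List.length_map] at h3
      refine hmono _ _ _ (hNK.trans (Nat.mul_le_mul_right m ?_)) h3
      have h4 : (l.map Prod.fst).sum ≤ (l.map Prod.fst).length • ρ := by
        refine List.sum_le_card_nsmul _ _ ?_
        intro x hx
        rw [List.mem_map] at hx
        obtain ⟨q, hq, rfl⟩ := hx
        exact hc q hq
      rw [List.length_map, smul_eq_mul] at h4
      by_contra h5
      push Not at h5
      have h6 : l.length * ρ ≤ K * ρ := Nat.mul_le_mul_right ρ h5.le
      omega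
  | zero => exact VIN_van_zero' N
  | add a b _ _ ha hb => exact (hadd N a b ha hb).1
  | neg a _ ha =>
    have := (hadd N 0 a (VIN_van_zero' N) ha).2
    rwa [zero_sub] at this

end Pool.TTriv
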