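import Mathlib

/-!
# Commutative Hopf algebras in characteristic p with a conilpotent coalgebra: definitions
-/

set_option autoImplicit false

open TensorProduct Coalgebra WithConv

namespace Pool.TTriv

universe u

noncomputable section

section Slices

variable {k O : Type u} [Field k] [CommRing O] [Algebra k O]

/-- The subspace `A ⊗ B` of `O ⊗ O`. -/
def tens (A B : Submodule k O) : Submodule k (O ⊗[k] O) :=
  Submodule.map₂ (TensorProduct.mk k O O) A B

/-- The slice `id ⊗ l : O ⊗ O → O`. -/
def sr (l : O →ₗ[k] k) : O ⊗[k] O →ₗ[k] O :=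
  (TensorProduct.rid k O).toLinearMap ∘ₗ l.lTensor O

/-- The slice `l ⊗ id : O ⊗ O → O`. -/
def sl (l : O →ₗ[k] k) : O ⊗[k] O →ₗ[k] O :=
  (TensorProduct.lid k O).toLinearMap ∘ₗ l.rTensor O

/-- The span of the elements whose `p ^ n`-th power is zero (in characteristic `p` these elements
are a subspace, the kernel of the `n`-th power of Frobenius). -/
def frk (k O : Type u) [Field k] [CommRing O] [Algebra k O] (p n : ℕ) : Submodule k O :=
  Submodule.span k {f | f ^ (p ^ n) = 0}

end Slices

variable (k O : Type u) [Field k] [CommRing O] [HopfAlgebra k O]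

/-- The linear map `f ↦ Δ f - f ⊗ 1`. -/
def dif : O →ₗ[k] O ⊗[k] O := comul - (TensorProduct.mk k O O).flip 1

/-- `fil n` is the space of the functions on the group scheme `Spec O` all whose `n`-fold cross
differences vanish (the polynomial functions of degree less than `n`): `fil 0 = 0` and `f ∈ fil (n + 1)`
if and only if `Δ f - f ⊗ 1 ∈ fil n ⊗ O`. So `fil (n + 1)` is the `n`-th term of the filtration whose
term of index `1` is spanned by `1` and the primitive elements. -/
def fil : ℕ → Submodule k O
  | 0 => ⊥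
  | n + 1 => (tens (fil n) ⊤).comap (dif k O)

/-- The functions on `Spec O` invariant under right translation by the image of the `n`-th power of
Frobenius: `Δ f - f ⊗ 1 ∈ O ⊗ (kernel of the n-th power of Frobenius)`. -/
def inv (p n : ℕ) : Submodule k O := (tens ⊤ (frk k O p n)).comap (dif k O)

/-- The points of `Spec O` with values in `R`, a group under convolution. -/
abbrev Pt (R : Type u) [CommRing R] [Algebra k R] := WithConv (O →ₐ[k] R)

/-- The linear maps from `O` to `R`, a ring under convolution. -/
abbrev Cv (R : Type u) [CommRing R] [Algebra k R] := WithConv (O →ₗ[k] R)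

variable {k O}

theorem inv_mul_aux {R : Type u} [CommRing R] [Algebra k R] (x : Pt k O R) :
    (toConv (x.ofConv.comp (HopfAlgebra.antipodeAlgHom k O)) : Pt k O R) * x = 1 := by
  apply WithConv.ofConv_injective
  apply AlgHom.toLinearMap_injective
  apply WithConv.toConv_injective
  rw [AlgHom.toLinearMap_convMul, AlgHom.toLinearMap_convOne]
  have h := LinearMap.algHom_comp_convMul_distrib (R := k) (C := O) x.ofConv
    (toConv (HopfAlgebra.antipode k (A := O))) (toConv LinearMap.id)
  rw [LinearMap.antipode_mul_id] at h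
  have h2 : (toConv x.ofConv.toLinearMap : Cv k O R) =
    toConv (x.ofConv.toLinearMap.comp (toConv (LinearMap.id : O →ₗ[k] O)).ofConv) := rfl
  have h3 : (toConv (toConv (x.ofConv.comp (HopfAlgebra.antipodeAlgHom k O)) :
      Pt k O R).ofConv.toLinearMap : Cv k O R) =
    toConv (x.ofConv.toLinearMap.comp (toConv (HopfAlgebra.antipode k (A := O))).ofConv) := rfl
  rw [h2, h3, ← WithConv.toConv_ofConv (toConv (x.ofConv.toLinearMap.comp
    (toConv (HopfAlgebra.antipode k (A := O))).ofConv) *
    toConv (x.ofConv.toLinearMap.comp (toConv (LinearMap.id : O →ₗ[k] O)).ofConv)), ← h]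
  ext f
  simp

/-- The group structure on the points with values in any commutative `k`-algebra `R` (the monoid
structure is that of Mathlib). -/
instance instGroupPt (R : Type u) [CommRing R] [Algebra k R] : Group (Pt k O R) :=
  { (inferInstance : Monoid (Pt k O R)) with
    inv := fun x => toConv (x.ofConv.comp (HopfAlgebra.antipodeAlgHom k O))
    inv_mul_cancel := inv_mul_aux }

/-- A point, as a linear map. -/
def cv {R : Type u} [CommRing R] [Algebra k R] : Pt k O R →* Cv k O R where
  toFun x := toConv x.ofConv.toLinearMap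
  map_one' := rfl
  map_mul' _ _ := rfl

/-- The linear map `a` vanishes on `fil n`. -/
def van {R : Type u} [CommRing R] [Algebra k R] (n : ℕ) (a : Cv k O R) : Prop :=
  ∀ f ∈ fil k O n, a f = 0

/-- The point `x` is equal to the unit on `fil n`: it lies in the `n`-th subgroup `D n` of the
filtration. -/
def InD {R : Type u} [CommRing R] [Algebra k R] (n : ℕ) (x : Pt k O R) : Prop :=
  ∀ f ∈ fil k O n, x f = algebraMap k R (counit (R := k) f)

variable (k O)

/-- `Frobenius ^ n` maps `Spec O` into `D m`: `(f - ε f) ^ (p ^ n) = 0` for `f ∈ fil m`. -/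
def QQ (p n m : ℕ) : Prop :=
  ∀ f ∈ fil k O m, f ^ (p ^ n) = algebraMap k O (counit (R := k) f) ^ (p ^ n)

/-- `t` is a jump: `fil (t + 1)` is not contained in `k + O · (fil t ∩ ker ε)`. -/
def jump (t : ℕ) : Prop :=
  ∃ h ∈ fil k O (t + 1), ∀ c : k,
    h - algebraMap k O c ∉ Ideal.span {g : O | g ∈ fil k O t ∧ counit (R := k) g = 0}

variable {O} in
/-- The function `g` on `Spec O` factors through the abelianisation. -/
def IsAbFun (g : O) : Prop :=
  ∀ (R : Type u) [CommRing R] [Algebra k R] (a x y b : Pt k O R),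
    (a * x * y * b) g = (a * y * x * b) g

/-- The algebra map `O → O ⊗ O` of the conjugation `(y, x) ↦ x⁻¹ y x`, with `y` the first and `x` the
second coordinate. -/
def cj : O →ₐ[k] O ⊗[k] O :=
  ((toConv ((Algebra.TensorProduct.includeRight : O →ₐ[k] O ⊗[k] O).comp
      (HopfAlgebra.antipodeAlgHom k O)) : Pt k O (O ⊗[k] O)) *
    toConv (Algebra.TensorProduct.includeLeft : O →ₐ[k] O ⊗[k] O) *
    toConv (Algebra.TensorProduct.includeRight : O →ₐ[k] O ⊗[k] O)).ofConv

end

/-! ## The filtration of a ring attached to a filtration of a group -/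

section Group

variable {A G : Type u} [Ring A] [Group G]

/-- The products `(i z₁ - 1) ⋯ (i zₗ - 1)`, `l ≥ 1`, with `z_j ∈ H n_j`, `n_j ≥ 1` and
`w ≤ n₁ + ⋯ + nₗ`. -/
def prodSet (i : G →* A) (H : ℕ → Set G) (w : ℕ) : Set A :=
  {a | ∃ l : List (ℕ × G), l ≠ [] ∧ (∀ q ∈ l, 1 ≤ q.1 ∧ q.2 ∈ H q.1) ∧ w ≤ (l.map Prod.fst).sum ∧
    a = (l.map (fun q => i q.2 - 1)).prod}

/-- The additive subgroup generated by `prodSet`. -/
def VV (i : G →* A) (H : ℕ → Set G) (w : ℕ) : AddSubgroup A :=
  AddSubgroup.closure (prodSet i H w)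

end Group

noncomputable section

variable (k O : Type u) [Field k] [CommRing O] [HopfAlgebra k O]

/-- The group filtration `H i = D (τ i)` on the points with values in `R`. -/
def Hs (τ : ℕ → ℕ) (R : Type u) [CommRing R] [Algebra k R] (i : ℕ) : Set (Pt k O R) :=
  {z | InD (τ i) z}

/-- The functions in `fil N` killed by the `w`-th term of the filtration, for all `R`. -/
def Mw (τ : ℕ → ℕ) (N w : ℕ) : Submodule k O where
  carrier := {f | f ∈ fil k O N ∧ ∀ (R : Type u) [CommRing R] [Algebra k R],
    ∀ v ∈ VV (cv (k := k) (O := O) (R := R)) (Hs k O τ R) w, v f = 0}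
  add_mem' := by
    rintro a b ⟨ha, ha'⟩ ⟨hb, hb'⟩
    refine ⟨add_mem ha hb, fun R _ _ v hv => ?_⟩
    have h1 := ha' R v hv
    have h2 := hb' R v hv
    simp_all
  zero_mem' := ⟨zero_mem _, fun R _ _ v _ => map_zero v.ofConv⟩
  smul_mem' := by
    rintro c a ⟨ha, ha'⟩
    refine ⟨Submodule.smul_mem _ c ha, fun R _ _ v hv => ?_⟩
    have h1 := ha' R v hv
    simp_all

end

end Pool.TTriv
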