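import Pool.Agent.Work.MP_10c1eb_ag_h28.Geometry
import Pool.Agent.Work.MP_10c1eb_ag_h28.Assembly

set_option autoImplicit false

open TensorProduct Coalgebra WithConv

namespace Pool.TTriv

universe u

/-- The `m`-fold Frobenius of `π` is trivial for some `m`. -/
theorem exists_frob_trivial (hPRM : T_PRM.{u}) (hABF : T_ABF.{u}) (hFIN : T_FIN.{u}) (hMON : T_MON.{u})
    (hQDB : T_QDB.{u})
    (hLNG : T_LNG.{u}) (p : ℕ) [Fact p.Prime] (k : Type u) [Field k] [CharP k p] [IsAlgClosed k]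
    (X : TTrivialVariety p k) (h0 : X.b1 = 0) (h1 : X.NoCyclicCover) :
    ∃ m, ∀ f : X.O, f ^ (p ^ m) = algebraMap k X.O (counit (R := k) f) ^ (p ^ m) := by
  have hp : 0 < p := (Fact.out : p.Prime).pos
  have hk : ∀ a : k, ∃ b : k, b ^ p = a := fun a => IsAlgClosed.exists_pow_nat_eq a hp
  obtain ⟨r, hr⟩ := hLNG p k X.H1 X.frob X.frob_add X.frob_smul h1
  have hit : ∀ n h, X.prim (X.frob^[n] h) = X.prim h ^ (p ^ n) := by
    intro n
    induction n with
    | zero => intro h; simp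
    | succ n ih =>
      intro h
      rw [Function.iterate_succ_apply', X.prim_frob, ih, ← pow_mul, pow_succ]
  have hprim : ∀ x : X.O, (comul x : X.O ⊗[k] X.O) = x ⊗ₜ[k] 1 + 1 ⊗ₜ[k] x → x ^ (p ^ r) = 0 := by
    intro x hx
    obtain ⟨h, rfl⟩ := X.prim_surj x hx
    rw [← hit, hr, X.prim_zero]
  obtain ⟨hI, -⟩ := X.torsor
  have hq := hPRM p k X.O r hprim
  have hfin : FiniteDimensional k X.O :=
    finite_of_abelianisation_finite hPRM hABF hFIN p k X.O hk X.conilpotent hI r hprim (X.abelian h0)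
  -- the finite-dimensional `O` is contained in some term of the filtration
  have hmono : Monotone (fil k X.O) := (hMON k X.O).2.1
  obtain ⟨m, hm⟩ : ∃ m, ∀ f : X.O, f ∈ fil k X.O m := by
    have hfg : (⊤ : Submodule k X.O).FG := hfin.1
    obtain ⟨s, hs⟩ := hfg
    choose n hn using X.conilpotent
    refine ⟨s.sup n, fun f => ?_⟩
    have hle : Submodule.span k (s : Set X.O) ≤ fil k X.O (s.sup n) := by
      rw [Submodule.span_le]
      intro a ha
      exact hmono (Finset.le_sup (f := n) ha) (hn a)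
    exact hle (hs ▸ Submodule.mem_top)
  refine ⟨r * m, fun f => ?_⟩
  exact hQDB p k X.O r hq m f (hmono (Nat.lt_two_pow_self).le (hm f))

theorem family_false {d : ℕ} (F : Family d) : False := by
  have h := F.kunneth
  rw [F.pullback] at h
  have h1 : 0 < ((d : ℤ) + 1) * F.degC * F.degY :=
    mul_pos (mul_pos (by positivity) F.degC_pos) F.degY_pos
  omega

theorem dim_zero (hPRM : T_PRM.{u}) (hABF : T_ABF.{u}) (hFIN : T_FIN.{u}) (hMON : T_MON.{u})
    (hQDB : T_QDB.{u})
    (hLNG : T_LNG.{u}) (p : ℕ) [Fact p.Prime] (k : Type u) [Field k] [CharP k p] [IsAlgClosed k]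
    (X : TTrivialVariety p k) (h0 : X.b1 = 0) (h1 : X.NoCyclicCover) : X.dim = 0 := by
  obtain ⟨m, hm⟩ := exists_frob_trivial hPRM hABF hFIN hMON hQDB hLNG p k X h0 h1
  have h2 := X.principalParts m hm
  have h3 : X.homDim m = 0 := by
    by_contra hne
    obtain ⟨F⟩ := X.family h0 m hne
    exact family_false F
  omega

theorem b1_eq_zero (hROP : T_ROP.{0}) (p : ℕ) [Fact p.Prime] (k : Type u) [Field k]
    (X' X : TTrivialVariety p k) (c : GaloisPCover X' X) (hp : 2 * X.dim + 1 < p) (h0 : X.b1 = 0) :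
    X'.b1 = 0 := by
  have hρ : ∀ e : c.E, c.ρ e = 1 := by
    intro e
    obtain ⟨a, ha⟩ := c.pgroup e
    obtain ⟨χ, hχ, hd, hc⟩ := c.weil e
    refine hROP p a ℚ_[c.ℓ] c.V (c.ρ e) χ ?_ hχ.ne_zero ?_ ?_
    · rw [← map_pow, ha, map_one]
    · rw [hd]
      have := X'.b1_le
      rw [c.dim_eq] at this
      omega
    · rw [← hc]
      exact LinearMap.aeval_self_charpoly _
  have hs : (Submodule.span ℚ_[c.ℓ] {v : c.V | ∀ e : c.E, c.ρ e v = v}) = ⊤ := by
    rw [eq_top_iff]
    intro v _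
    exact Submodule.subset_span (fun e => by rw [hρ e]; rfl)
  have := c.inv_V
  rw [hs, finrank_top, c.finrank_V] at this
  omega

end Pool.TTriv
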