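import Pool.Agent.Work.MP_10c1eb_ag_h28.B_SLI
import Pool.Agent.Work.MP_10c1eb_ag_h28.B_MON
import Pool.Agent.Work.MP_10c1eb_ag_h28.B_TEN
import Pool.Agent.Work.MP_10c1eb_ag_h28.B_VID
import Pool.Agent.Work.MP_10c1eb_ag_h28.B_CMM
import Pool.Agent.Work.MP_10c1eb_ag_h28.B_MUL
import Pool.Agent.Work.MP_10c1eb_ag_h28.B_FRO
import Pool.Agent.Work.MP_10c1eb_ag_h28.B_QDB
import Pool.Agent.Work.MP_10c1eb_ag_h28.B_INC
import Pool.Agent.Work.MP_10c1eb_ag_h28.B_FKR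
import Pool.Agent.Work.MP_10c1eb_ag_h28.B_INA
import Pool.Agent.Work.MP_10c1eb_ag_h28.B_INB
import Pool.Agent.Work.MP_10c1eb_ag_h28.B_BND
import Pool.Agent.Work.MP_10c1eb_ag_h28.B_NJP
import Pool.Agent.Work.MP_10c1eb_ag_h28.B_PRD
import Pool.Agent.Work.MP_10c1eb_ag_h28.B_LGA
import Pool.Agent.Work.MP_10c1eb_ag_h28.B_LOG
import Pool.Agent.Work.MP_10c1eb_ag_h28.B_TAU
import Pool.Agent.Work.MP_10c1eb_ag_h28.B_GRP
import Pool.Agent.Work.MP_10c1eb_ag_h28.B_VIN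
import Pool.Agent.Work.MP_10c1eb_ag_h28.B_CNJ
import Pool.Agent.Work.MP_10c1eb_ag_h28.B_MWS
import Pool.Agent.Work.MP_10c1eb_ag_h28.B_COM
import Pool.Agent.Work.MP_10c1eb_ag_h28.B_CDM
import Pool.Agent.Work.MP_10c1eb_ag_h28.B_TWI
import Pool.Agent.Work.MP_10c1eb_ag_h28.B_ARI
import Pool.Agent.Work.MP_10c1eb_ag_h28.B_FIN
import Pool.Agent.Work.MP_10c1eb_ag_h28.B_ABF
import Pool.Agent.Work.MP_10c1eb_ag_h28.B_PRM
import Pool.Agent.Work.MP_10c1eb_ag_h28.B_ROP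
import Pool.Agent.Work.MP_10c1eb_ag_h28.B_TRV
import Pool.Agent.Work.MP_10c1eb_ag_h28.B_LNG
import Pool.Agent.Work.MP_10c1eb_ag_h28.Main

/-!
# Varieties with trivial tangent bundle: the theorems without hypotheses on the blocks
-/

set_option autoImplicit false

open TensorProduct Coalgebra WithConv

namespace Pool.TTriv

universe u

theorem all_FIN : T_FIN.{u} := by
  have hSLI := q_SLI.{u}
  have hMON := q_MON.{u}
  have hTEN := q_TEN hSLI hMON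
  have hVID := q_VID hMON hTEN
  have hCMM := q_CMM hVID
  have hFRO := q_FRO hMON hTEN
  have hQDB := q_QDB hMON hFRO
  have hINC := q_INC hMON hTEN
  have hINA := q_INA hSLI hMON q_FKR.{u}
  have hINB := q_INB hMON hINA
  have hBND := q_BND hMON hQDB hINC hINB
  have hNJP := q_NJP hMON
  have hPRD := q_PRD hMON hTEN (q_MUL hMON)
  have hLOG := q_LOG hMON hQDB hBND hPRD q_LGA
  have hVIN := q_VIN hVID
  have hCNJ := q_CNJ.{u}
  have hMWS := q_MWS hSLI hMON hVID hCMM hNJP q_GRP.{u} hVIN hCNJ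
  have hCOM := q_COM hSLI hCNJ
  have hCDM := q_CDM hVID hNJP q_TAU hCNJ hMWS hCOM
  have hTWI := q_TWI hVID
  exact q_FIN hMON hQDB hBND hLOG hCDM hTWI q_ARI

theorem all_QDB : T_QDB.{u} := q_QDB q_MON (q_FRO q_MON (q_TEN q_SLI q_MON))

/-- The theorem on Hopf algebras. -/
theorem hopf_finite (p : ℕ) [Fact p.Prime] (k O : Type u) [Field k] [CharP k p] [CommRing O]
    [HopfAlgebra k O] (hk : ∀ a : k, ∃ b : k, b ^ p = a) (hU : ∀ f : O, ∃ n, f ∈ fil k O n) (r : ℕ)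
    (hr : ∀ x : O, (comul x : O ⊗[k] O) = x ⊗ₜ[k] 1 + 1 ⊗ₜ[k] x → x ^ (p ^ r) = 0)
    (hI : FiniteDimensional k (inv k O p 1))
    (hA : FiniteDimensional k (Submodule.span k {g : O | IsAbFun k g})) : FiniteDimensional k O :=
  finite_of_abelianisation_finite (q_PRM q_MON) (q_ABF q_MON all_QDB) all_FIN p k O hk hU hI r hr hA

theorem ttrivial_dim_zero (p : ℕ) [Fact p.Prime] (k : Type u) [Field k] [CharP k p] [IsAlgClosed k]
    (X : TTrivialVariety p k) (h0 : X.b1 = 0) (h1 : X.NoCyclicCover) : X.dim = 0 :=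
  dim_zero (q_PRM q_MON) (q_ABF q_MON all_QDB) all_FIN q_MON all_QDB q_LNG p k X h0 h1

theorem ttrivial_dim_zero' (p : ℕ) [Fact p.Prime] (k : Type u) [Field k] [CharP k p] [IsAlgClosed k]
    (X' X : TTrivialVariety p k) (c : GaloisPCover X' X) (hp : 2 * X.dim + 1 < p) (h0 : X.b1 = 0)
    (h1 : X'.NoCyclicCover) : X.dim = 0 := by
  rw [← c.dim_eq]
  exact ttrivial_dim_zero p k X' (b1_eq_zero q_ROP p k X' X c hp h0) h1

end Pool.TTriv
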