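import Pool.Agent.Work.MP_10c1eb_ag_h28.Defs

/-!
# Varieties with trivial tangent bundle: the data of the unipotent fundamental group scheme

`k` is an algebraically closed field of characteristic `p > 0` and `X` a smooth projective variety over
`k` of dimension `d` whose tangent bundle is isomorphic to `𝒪_X ^ d`.  The fields of the structures below
are objects attached to `X` and facts on them which follow from published theorems as explained in the
documentation; they are not formalised further.
-/

set_option autoImplicit false

open TensorProduct Coalgebra WithConv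

namespace Pool.TTriv

universe u

/-- The numbers attached to a non-constant family `μ : C × Y → X` of morphisms from a smooth projective
variety `Y` of dimension `d` to `X`, also of dimension `d`, parametrised by a smooth projective curve
`C`, such that the class of `μ_t^* L` in `Pic Y` does not depend on `t ∈ C`, where `L` is an ample line
bundle on `X`, and such that `L₁ = μ_t^* L` is ample. By the seesaw principle `μ^* L` is the exterior
tensor product of `L₁` with a line bundle `L₂` on `C`, and `L₂` is the pull-back of `L` under
`t ↦ μ(t, y)`, for every `y ∈ Y`.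

`selfInt` is the self-intersection number `(μ^* L) ^ (d + 1)` on `C × Y`, equal to
`(d + 1) deg(L₂) (L₁ ^ d)` and, as `μ^* L` is pulled back from a variety of dimension `d`, equal to `0`;
`degC` is `deg L₂ > 0` (some `t ↦ μ(t, y)` is not constant and `L` is ample), `degY` is
`(L₁ ^ d) > 0`. -/
structure Family (d : ℕ) where
  selfInt : ℤ
  degC : ℤ
  degY : ℤ
  kunneth : selfInt = (d + 1) * degC * degY
  pullback : selfInt = 0
  degC_pos : 0 < degC
  degY_pos : 0 < degY

/-- The data attached to a smooth projective variety `X` over `k` with trivial tangent bundle.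

* `dim` is the dimension `d` of `X` and `b1` the first Betti number `b₁(X) = 2 dim Alb(X)`. By Igusa the
  invariant differentials of `Alb(X)` inject into `H⁰(X, Ω¹)`, which has dimension `d`: `b₁(X) ≤ 2 d`.
* `H1` is `H¹(X, 𝒪_X)` and `frob` its Frobenius, induced by `f ↦ f ^ p`. By Artin-Schreier its nonzero
  fixed vectors correspond to the connected étale coverings of `X` with group `ℤ/p` (with a generator).
* `O` is the coordinate ring of the unipotent fundamental group scheme `π` of Nori of `X` at a rational
  point (the Tannaka dual of the category of the nilpotent vector bundles on `X`), a commutative Hopf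
  algebra over `k`; `π` is pro-unipotent: `O` is the union of its coradical filtration `fil`.
* Homomorphisms `π → 𝔾_a`, that is primitive elements of `O`, are the same as classes in
  `H¹(X, 𝒪_X)` (`prim`), and `x ↦ x ^ p` is the Frobenius.
* Let `X^σ` be the twist of `X` by the inverse of the Frobenius of `k`. As `T_X` is trivial the relative
  Frobenius `F : X^σ → X` is a torsor under the infinitesimal group scheme `G` of height one and order
  `p ^ d` whose Lie algebra is `H⁰(X^σ, T)`. So for the fundamental group scheme `π^N` of Nori there is
  an exact sequence `1 → π^N(X^σ) → π^N(X) → G → 1`, whose first map is the relative Frobenius; `π` is a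
  quotient of `π^N(X)`, so the homogeneous space `π / F π^σ`, whose coordinate ring is `inv k O p 1`, is
  a quotient of `G`.
* The largest commutative quotient of `π` is the Cartier dual of the formal completion of `Pic X` at the
  origin; if `b₁(X) = 0` then `Pic⁰ X` is an infinitesimal group scheme, so this quotient is finite. Its
  coordinate ring is the space of the functions `g` on `π` with `g (a x y b) = g (a y x b)`.
* `homDim m` is the dimension of the scheme `Hom(Y, X)` at the `m`-fold Frobenius `f : Y → X`,
  `Y = X^(p^-m)`. Suppose that the `m`-fold Frobenius of `π` is trivial, that is, `f^* E` is trivial for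
  all nilpotent vector bundles `E` on `X`. The bundle of principal parts
  `P^n = pr₁_* (𝒪_{X × X} / I^(n + 1))` is nilpotent, since its graded pieces `S^i Ω¹` are trivial; so
  `f^* P^n = 𝒪_Y ⊗ A_n` as a sheaf of algebras, and the second projection `Y × Spec A_n → X` is a
  deformation of `f` whose value at a point `y ∈ Y` is the `n`-th infinitesimal neighbourhood of `f y`
  in `X`. So the composition of the complete local rings of `X` at `f y`, of `Hom(Y, X)` at `f` and
  `lim A_n` is bijective and `d ≤ dim Hom(Y, X)` at `f` (`principalParts`).
* `X` contains no rational curve (for a non-constant `g : ℙ¹ → X`, separable onto its image, the map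
  `𝒪(2) = T → g^* T_X` to a trivial bundle would not be zero). So if `homDim m ≠ 0` then a non-constant
  family of morphisms `Y → X` over an open subset of a smooth projective curve `C`, through `f`, extends
  to `C × Y`. If `b₁(X) = 0`, so that `Pic⁰(Y)_red = 0`, then the class of `μ_t^* L` is constant, equal to
  the class of `f^* L`, which is ample (`family`). -/
structure TTrivialVariety (p : ℕ) (k : Type u) [Field k] where
  dim : ℕ
  b1 : ℕ
  b1_le : b1 ≤ 2 * dim
  H1 : Type u
  [acgH1 : AddCommGroup H1]
  [modH1 : Module k H1]
  [finH1 : FiniteDimensional k H1]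
  frob : H1 → H1
  frob_add : ∀ x y, frob (x + y) = frob x + frob y
  frob_smul : ∀ (c : k) x, frob (c • x) = c ^ p • frob x
  O : Type u
  [ringO : CommRing O]
  [hopfO : HopfAlgebra k O]
  conilpotent : ∀ f : O, ∃ n, f ∈ fil k O n
  prim : H1 → O
  prim_surj : ∀ x : O, (comul x : O ⊗[k] O) = x ⊗ₜ[k] 1 + 1 ⊗ₜ[k] x → ∃ h, prim h = x
  prim_zero : prim 0 = 0
  prim_frob : ∀ h, prim (frob h) = prim h ^ p
  torsor : FiniteDimensional k (inv k O p 1) ∧ Module.finrank k (inv k O p 1) ≤ p ^ dim
  abelian : b1 = 0 → FiniteDimensional k (Submodule.span k {g : O | IsAbFun k g})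
  homDim : ℕ → ℕ
  principalParts : ∀ m, (∀ f : O, f ^ (p ^ m) = algebraMap k O (counit (R := k) f) ^ (p ^ m)) →
    dim ≤ homDim m
  family : b1 = 0 → ∀ m, homDim m ≠ 0 → Nonempty (Family dim)

attribute [instance] TTrivialVariety.acgH1 TTrivialVariety.modH1 TTrivialVariety.finH1
  TTrivialVariety.ringO TTrivialVariety.hopfO

variable {p : ℕ} {k : Type u} [Field k]

/-- `X` has no connected étale covering with group `ℤ/p`: the Frobenius of `H¹(X, 𝒪_X)` has no nonzero
fixed vector (Artin-Schreier). -/
def TTrivialVariety.NoCyclicCover (X : TTrivialVariety p k) : Prop :=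
  ∀ h : X.H1, X.frob h = h → h = 0

/-- A connected étale Galois covering `X' → X` whose group `E` is a finite `p`-group. For a prime
`ℓ ≠ p`, `V = H¹(X', ℚ_ℓ)` has dimension `b₁(X')`, its invariants are `H¹(X, ℚ_ℓ)`, of dimension
`b₁(X)`, and the characteristic polynomial of `e ∈ E` on `V` (the Tate module of `Alb(X')`, up to
duality) has rational coefficients (Weil). -/
structure GaloisPCover (X' X : TTrivialVariety p k) where
  dim_eq : X'.dim = X.dim
  E : Type
  [groupE : Group E]
  [finE : Finite E]
  pgroup : IsPGroup p E
  ℓ : ℕ
  [prime_ℓ : Fact ℓ.Prime]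
  V : Type
  [acgV : AddCommGroup V]
  [modV : Module ℚ_[ℓ] V]
  [finV : FiniteDimensional ℚ_[ℓ] V]
  ρ : E →* (V →ₗ[ℚ_[ℓ]] V)
  finrank_V : Module.finrank ℚ_[ℓ] V = X'.b1
  inv_V : Module.finrank ℚ_[ℓ] (Submodule.span ℚ_[ℓ] {v : V | ∀ e : E, ρ e v = v}) = X.b1
  weil : ∀ e : E, ∃ χ : Polynomial ℚ, χ.Monic ∧ χ.natDegree = X'.b1 ∧
    (ρ e).charpoly = χ.map (algebraMap ℚ ℚ_[ℓ])

attribute [instance] GaloisPCover.groupE GaloisPCover.finE GaloisPCover.prime_ℓ GaloisPCover.acgV
  GaloisPCover.modV GaloisPCover.finV

end Pool.TTriv
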