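import Pool.Agent.Work.MP_10c1eb_ag_h28.Defs

/-!
# Blocks

The block `X` is a file `Pool/Agent/Work/MP_10c1eb_ag_h28/B_X.lean` which imports this file and contains,
in the namespace `Pool.TTriv`, `theorem q_X (h1 : T_Y.{u}) (h2 : T_Z.{u}) … : T_X.{u}` (with
`universe u`), where `Y`, `Z`, … are the blocks which `X` uses, in the order in which the table lists them
(no hypothesis if it uses none); auxiliary lemmas have the prefix `X_`.

Every element of `O ⊗ O` is a finite sum of `a ⊗ₜ b` (`TensorProduct.induction_on`); every element of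
`tens A B` is a finite sum of `a ⊗ₜ b` with `a ∈ A`, `b ∈ B` (`Submodule.map₂_induction`,
`Submodule.map₂_le`, `Submodule.map₂_span_span`); membership in a `⊔` is `Submodule.mem_sup`.
`f ∈ fil (n + 1)` unfolds to `comul f - f ⊗ₜ 1 ∈ tens (fil n) ⊤` (`Iff.rfl`), `f ∈ inv p n` to
`comul f - f ⊗ₜ 1 ∈ tens ⊤ (frk p n)`.  `cv` is a monoid hom from the group of points to the
convolution ring; `(a * b) f = mul' (map a b (comul f))` (`LinearMap.convMul_apply`), and for points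
`AlgHom.convMul_apply`.  `Coalgebra.coassoc_apply`, `rTensor_counit_comul`, `lTensor_counit_comul`.
-/

set_option autoImplicit false

open TensorProduct Coalgebra WithConv

namespace Pool.TTriv

universe u

/-! ## Tensors and the filtration -/

/-- SLI (90 lines).  Slices detect `A ⊗ O`, `O ⊗ B` and `A ⊗ O + O ⊗ B` in `O ⊗ O`, over a field.
PROOF.  `⇒`: induction, `sr l (a ⊗ b) = l b • a`, `sl l (a ⊗ b) = l a • b`.
`⇐` (1): write `t = ∑ a_i ⊗ b_i` over a finite set with `b_i` linearly independent (for instance take a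
basis `e` of `O` over `k` and `TensorProduct.equivFinsuppOfBasisRight`, or
`TensorProduct.exists_finset` and a shortest representation); take `l` with `l b_i = 1`, `l b_j = 0` for
`j ≠ i` (`Basis.coord`): `a_i = sr l t ∈ A`.
(2): choose a basis of `O` extending a basis of `B` (or a complement `C` of `B`, `O = B ⊕ C`, and a basis of
each); write `t = ∑ a_i ⊗ e_i` over the basis; for `e_i` not in the basis of `B` the coordinate `l = coord i`
vanishes on `B` and `sr l t = a_i`, so `a_i = 0`.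
(3): the same in the first factor: `t = ∑ e_i ⊗ b_i`, over a basis of `O` extending one of `A`; if `e_i` is
in the basis of `A` then `e_i ⊗ b_i ∈ A ⊗ O`; if not, `b_i = sl (coord i) t ∈ B`. -/
def T_SLI : Prop := ∀ (k O : Type u) [Field k] [CommRing O] [Algebra k O] (A B : Submodule k O)
  (t : O ⊗[k] O),
  (t ∈ tens A ⊤ ↔ ∀ l : O →ₗ[k] k, sr l t ∈ A) ∧
  (t ∈ tens ⊤ B ↔ ∀ l : O →ₗ[k] k, (∀ b ∈ B, l b = 0) → sr l t = 0) ∧
  (t ∈ tens A ⊤ ⊔ tens ⊤ B ↔ ∀ l : O →ₗ[k] k, (∀ a ∈ A, l a = 0) → sl l t ∈ B)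

/-- MON (50 lines).  `fil 1` is `k`, the filtration is increasing.
PROOF.  `tens ⊥ ⊤ = ⊥`, so `f ∈ fil 1 ↔ comul f = f ⊗ 1`; apply `counit ⊗ id` (`rTensor_counit_comul`):
`1 ⊗ f = counit f ⊗ 1` in `k ⊗ O`, apply `TensorProduct.lid`.  Conversely `comul_algebraMap`.
`fil n ≤ fil (n + 1)` by induction, `Submodule.map₂_le_map₂`; then `monotone_nat_of_le_succ`. -/
def T_MON : Prop := ∀ (k O : Type u) [Field k] [CommRing O] [HopfAlgebra k O],
  (∀ f : O, f ∈ fil k O 1 ↔ f = algebraMap k O (counit (R := k) f)) ∧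
  Monotone (fil k O) ∧ (∀ n : ℕ, 1 ≤ n → ∀ c : k, algebraMap k O c ∈ fil k O n)

/-- TEN (90 lines; uses SLI, MON).  `Δ (fil (m + n)) ⊆ fil m ⊗ O + O ⊗ fil n`.
PROOF.  Induction on `n`, for all `m`.  `n = 0`: for `m = 0` `f = 0`; for `m = m' + 1`,
`Δ f = f ⊗ 1 + u` with `u ∈ fil m' ⊗ O ⊆ fil m ⊗ O`.
`n + 1`: by SLI (3) let `l` vanish on `fil m`, `g = sl l (Δ f)`; we need `Δ g - g ⊗ 1 ∈ fil n ⊗ O`.
`Δ f = f ⊗ 1 + u` with `u ∈ fil (m + n) ⊗ O`.  Let `Φ : O ⊗ O → O ⊗ O`, `a ⊗ b ↦ sl l (Δ a) ⊗ b` (that is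
`(sl l ∘ Δ).rTensor O`).  Coassociativity gives `Δ (sl l (Δ f)) = Φ (Δ f)` for all `f`: both sides are
`(l ⊗ id ⊗ id)` of the iterated coproduct.  `Φ (f ⊗ 1) = g ⊗ 1`, and `Φ u ∈ fil n ⊗ O`: for
`a ∈ fil (m + n)` `sl l (Δ a) ∈ fil n` by the induction hypothesis and SLI (3). -/
def T_TEN : Prop := ∀ (k O : Type u) [Field k] [CommRing O] [HopfAlgebra k O] (m n : ℕ),
  ∀ f ∈ fil k O (m + n), (comul f : O ⊗[k] O) ∈ tens (fil k O m) ⊤ ⊔ tens ⊤ (fil k O n)

/-- VID (80 lines; uses MON, TEN).  The linear maps vanishing on `fil n` are a multiplicative filtration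
by two-sided ideals of the convolution ring.
PROOF.  `(a * b) f` is the image of `Δ f` under `mul' ∘ (a ⊗ b)`; for `f ∈ fil (m + n)` `Δ f` is in
`fil m ⊗ O + O ⊗ fil n` and this map kills both.  Two-sided: the first statement with `n = 0` or `m = 0`
(`van 0` always holds, `fil 0 = ⊥`).  `InD n x ↔ van n (cv x - 1)`: `1 f = algebraMap (counit f)`.
`InD 1 x`: `f ∈ fil 1` is `algebraMap k O (counit f)` and `x` is an algebra map. -/
def T_VID : Prop := ∀ (k O : Type u) [Field k] [CommRing O] [HopfAlgebra k O] (R : Type u) [CommRing R]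
  [Algebra k R],
  (∀ (m n : ℕ) (a b : Cv k O R), van m a → van n b → van (m + n) (a * b)) ∧
  (∀ (n : ℕ) (a b : Cv k O R), van n a → van n (a * b) ∧ van n (b * a)) ∧
  (∀ (m n : ℕ) (a : Cv k O R), m ≤ n → van n a → van m a) ∧
  (∀ (n : ℕ) (a b : Cv k O R), van n a → van n b → van n (a + b) ∧ van n (a - b)) ∧
  (∀ (n : ℕ) (x : Pt k O R), InD n x ↔ van n (cv x - 1)) ∧
  (∀ x : Pt k O R, InD 1 x)

/-- CMM (60 lines; uses VID).  `D t` is a normal subgroup and `[P, D t] ⊆ D (t + 1)`.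
PROOF.  In the ring, with `X = cv x`, `Z = cv z`: `X Z - Z X = (X - 1) (Z - 1) - (Z - 1) (X - 1)`, in
`van (1 + t)` and `van (t + 1)`.  `cv (x z x⁻¹ z⁻¹) - 1 = (X Z - Z X) * cv (x⁻¹ z⁻¹)` since
`x z x⁻¹ z⁻¹ = (x z) (x⁻¹ z⁻¹)` and `(z x) (x⁻¹ z⁻¹) = 1`.  `cv (x z x⁻¹) - 1 = X (Z - 1) cv x⁻¹`.
`cv (x y) - 1 = (X - 1) (Y - 1) + (X - 1) + (Y - 1)`, `cv x⁻¹ - 1 = - cv x⁻¹ (X - 1)`. -/
def T_CMM : Prop := ∀ (k O : Type u) [Field k] [CommRing O] [HopfAlgebra k O] (R : Type u) [CommRing R]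
  [Algebra k R] (t : ℕ) (x z : Pt k O R), InD t z →
  van (t + 1) (cv (x * z) - cv (z * x)) ∧ InD (t + 1) (x * z * x⁻¹ * z⁻¹) ∧ InD t (x * z * x⁻¹) ∧
  InD t z⁻¹ ∧ (InD t x → InD t (x * z))

/-- MUL (80 lines; uses MON).  `fil (a + 1) · fil (b + 1) ⊆ fil (a + b + 1)`.
PROOF.  Induction on `a + b`.  `Δ f = f ⊗ 1 + u`, `Δ g = g ⊗ 1 + v`, `u ∈ fil a ⊗ O`, `v ∈ fil b ⊗ O`.
`Δ (f g) - f g ⊗ 1 = u (g ⊗ 1) + (f ⊗ 1) v + u v`, and each term is in `fil (a + b) ⊗ O`: if `a = 0` then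
`u = 0`; if `a = a' + 1` then `fil a · fil (b + 1) ⊆ fil (a' + b + 1) = fil (a + b)` by induction, so
`u (g ⊗ 1)` is in `fil (a + b) ⊗ O`, and so is `u v`, since `fil b ≤ fil (b + 1)`; the same for
`(f ⊗ 1) v`.  (`(x ⊗ y) (x' ⊗ y') = x x' ⊗ y y'`, `Submodule.map₂_induction` twice.) -/
def T_MUL : Prop := ∀ (k O : Type u) [Field k] [CommRing O] [HopfAlgebra k O] (a b : ℕ) (f g : O),
  f ∈ fil k O (a + 1) → g ∈ fil k O (b + 1) → f * g ∈ fil k O (a + b + 1)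

/-! ## Frobenius and the filtration -/

/-- FRO (90 lines; uses MON, TEN).  If the `p ^ r`-th power of every `f ∈ fil 2` is constant then Frobenius
`p ^ r` halves degrees.
PROOF.  Put `q = p ^ r`.  Induction on `n`.  `n = 0`: `f = 0`.  `n + 1`: by TEN with `2 n + 2`,
`Δ f = ∑ a_i ⊗ b_i + ∑ c_j ⊗ d_j`, `a_i ∈ fil (2 n)`, `d_j ∈ fil 2`.  `O ⊗ O` has characteristic `p`, so
`Δ (f ^ q) = (Δ f) ^ q = ∑ a_i ^ q ⊗ b_i ^ q + ∑ c_j ^ q ⊗ d_j ^ q` (`sum_pow_char_pow` or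
`iterateFrobenius`; `CharP O p` by `charP_of_injective_algebraMap`, `O` is nontrivial since
`counit 1 = 1`; best prove: `x ∈ tens (fil (2 n)) ⊤` implies `x ^ q ∈ tens (fil n) ⊤`, and
`y ∈ tens ⊤ (fil 2)` implies `y ^ q = g ⊗ 1` for some `g`, by induction on sums).  So
`Δ (f ^ q) = w + g ⊗ 1` with `w ∈ fil n ⊗ O`; applying `id ⊗ counit`, `f ^ q = w' + g` with
`w' = sr counit w ∈ fil n`; so `Δ (f ^ q) - f ^ q ⊗ 1 = w - w' ⊗ 1 ∈ fil n ⊗ O`. -/
def T_FRO : Prop := ∀ (p : ℕ) [Fact p.Prime] (k O : Type u) [Field k] [CharP k p] [CommRing O]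
  [HopfAlgebra k O] (r : ℕ), QQ k O p r 2 → ∀ n : ℕ, ∀ f ∈ fil k O (2 * n), f ^ (p ^ r) ∈ fil k O n

/-- QDB (40 lines; uses MON, FRO).  `F ^ (r j)` maps into `D (2 ^ j)`.
PROOF.  By FRO and induction on `j`, `f ∈ fil (2 ^ j * n)` implies `f ^ (p ^ (r * j)) ∈ fil n`
(`pow_mul`).  With `n = 1` it is a constant, so equal to its counit (MON), which is
`counit f ^ (p ^ (r * j))` (`Bialgebra.counit_pow`). -/
def T_QDB : Prop := ∀ (p : ℕ) [Fact p.Prime] (k O : Type u) [Field k] [CharP k p] [CommRing O]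
  [HopfAlgebra k O] (r : ℕ), QQ k O p r 2 → ∀ j : ℕ, QQ k O p (r * j) (2 ^ j)

/-- INC (50 lines; uses MON, TEN).  `QQ n m` implies `fil m ≤ inv n`.
PROOF.  By TEN with `0 + m`, `Δ f ∈ O ⊗ fil m`.  `f ⊗ 1 = (id ⊗ (algebraMap ∘ counit)) (Δ f)`
(`lTensor_counit_comul`), so `Δ f - f ⊗ 1` is the image of `Δ f` under `id ⊗ π`,
`π b = b - algebraMap (counit b)`, and for `b ∈ fil m` `π b ^ (p ^ n) = b ^ (p ^ n) - (..) ^ (p ^ n) = 0`
(`sub_pow_char_pow`). -/
def T_INC : Prop := ∀ (p : ℕ) [Fact p.Prime] (k O : Type u) [Field k] [CharP k p] [CommRing O]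
  [HopfAlgebra k O] (n m : ℕ), QQ k O p n m → fil k O m ≤ inv k O p n

/-- FKR (90 lines).  Over a perfect field the kernel of Frobenius of `O ⊗ O` is `I ⊗ O + O ⊗ I`.
PROOF.  `I = frk 1` is exactly `{f | f ^ p = 0}` (closed under sums by `add_pow_char`, under scalars).
Choose a basis of `O` extending one of `I` (or a complement `C` of `I` with a basis `e_i`); then
`t = t' + ∑ e_i ⊗ b_i` with `t' ∈ I ⊗ O` and the `e_i` independent modulo `I`.  `t' ^ p = 0`, so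
`∑ e_i ^ p ⊗ b_i ^ p = 0`.  The `e_i ^ p` are linearly independent over `k`: if `∑ c_i e_i ^ p = 0` write
`c_i = d_i ^ p` (`hk`), then `(∑ d_i e_i) ^ p = 0`, `∑ d_i e_i ∈ I`, `d_i = 0`.  So `b_i ^ p = 0`
(for instance `TensorProduct.sum_tmul_eq_zero_of..`, or extend `e_i ^ p` to a basis and take coordinates
by slices), `b_i ∈ I`. -/
def T_FKR : Prop := ∀ (p : ℕ) [Fact p.Prime] (k O : Type u) [Field k] [CharP k p] [CommRing O]
  [Algebra k O], (∀ a : k, ∃ b : k, b ^ p = a) →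
  ∀ t : O ⊗[k] O, t ^ p = 0 → t ∈ tens (frk k O p 1) ⊤ ⊔ tens ⊤ (frk k O p 1)

/-- INA (130 lines; uses SLI, MON, FKR).  Nakayama's lemma for the unipotent group `F P`: functionals dual to
a basis of the invariants detect `O` modulo the kernel of Frobenius.
PROOF.  Let `e_1, …, e_D` be a basis of `inv 1` and `b_i : O → k` linear with `b_i e_j = 1` if `i = j`, `0`
if not (extend the coordinates, `LinearMap.exists_extend`); so `g ∈ inv 1` and `b_i g = 0` for all `i`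
imply `g = 0`.  Let `I = frk 1 = {f | f ^ p = 0}`, a subspace (indeed an ideal), on which `counit`
vanishes.  Let `N` be the subspace of the `g` with `sl (b_i) (Δ g) ∈ I` for all `i`; we show `N = 0`.
(a) If `c : O → k` vanishes on `I` and `g ∈ N` then `sr c (Δ g) ∈ N`: by coassociativity
`sl b (Δ (sr c (Δ g))) = sr c (Δ (sl b (Δ g)))`; `h = sl b (Δ g)` has `h ^ p = 0`, so `(Δ h) ^ p = 0`, so
`Δ h ∈ I ⊗ O + O ⊗ I` by FKR, so `sr c (Δ h) ∈ I`.
(b) Suppose `N ≠ 0`.  Take `n` least such that `N ∩ fil n ≠ 0` (it exists by `hU`); `n ≥ 1`, `n = n' + 1`;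
take `g ≠ 0` in it.  Let `c` vanish on `I` and put `c' = c - c 1 • counit`, which vanishes on `I` and at
`1`.  `sr c' (Δ g) = sr c' (Δ g - g ⊗ 1) ∈ fil n'` (`Δ g - g ⊗ 1 ∈ fil n' ⊗ O`) and it is in `N`, so it is
`0`.  As `sr counit (Δ g) = g`, `sr c (Δ g) = c 1 • g = sr c (g ⊗ 1)`.  So `sr c (Δ g - g ⊗ 1) = 0` for all
`c` which vanish on `I`, and `Δ g - g ⊗ 1 ∈ O ⊗ I` by SLI (2): `g ∈ inv 1`.
(c) `b_i g = counit (sl b_i (Δ g)) = 0` for all `i`.  So `g = 0`, a contradiction. -/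
def T_INA : Prop := ∀ (p : ℕ) [Fact p.Prime] (k O : Type u) [Field k] [CharP k p] [CommRing O]
  [HopfAlgebra k O], (∀ a : k, ∃ b : k, b ^ p = a) → (∀ f : O, ∃ n, f ∈ fil k O n) →
  FiniteDimensional k (inv k O p 1) →
  ∃ b : Fin (Module.finrank k (inv k O p 1)) → (O →ₗ[k] k),
    ∀ f : O, (∀ i, sl (b i) (comul f) ^ p = 0) → f = 0

/-- INB (120 lines; uses MON, INA).  `dim (inv n) ≤ (dim (inv 1)) ^ n`.
PROOF.  Induction on `n`.  `frk 0 = {0}` so `inv 0 = {f | Δ f = f ⊗ 1} = fil 1 = k`, dimension `≤ 1`.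
Step: for `f ∈ inv (n + 1)` and `b : O → k`, `g = sl b (Δ f) ∈ inv (n + 1)`: `Δ g - g ⊗ 1` is the image of
`Δ f - f ⊗ 1` under `(sl b ∘ Δ) ⊗ id` (coassociativity: `Δ (sl b (Δ f)) = (sl b ∘ Δ ⊗ id) (Δ f)`), and this
map sends `O ⊗ frk (n + 1)` to itself.  And `g ^ p ∈ inv n` for `g ∈ inv (n + 1)`:
`Δ (g ^ p) - g ^ p ⊗ 1 = (Δ g - g ⊗ 1) ^ p`, and the `p`-th power of `∑ a_i ⊗ b_i`,
`b_i ^ (p ^ (n + 1)) = 0`, is `∑ a_i ^ p ⊗ b_i ^ p ∈ O ⊗ frk n`.  Let `b_i` be as in INA and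
`Φ f = (sl (b_i) (Δ f) ^ p)_i ∈ (inv n) ^ D`.  `Φ` is additive, `Φ (c • f) = c ^ p • Φ f`, and
`Φ f = 0` implies `f = 0`.  So `Φ` maps linearly independent families to linearly independent families
(`∑ c_i Φ v_i = 0`, `c_i = d_i ^ p`, `Φ (∑ d_i v_i) = 0`), so a linearly independent family in
`inv (n + 1)` has at most `D · dim (inv n)` elements (`LinearIndependent.fintype_card_le_finrank`), so
`inv (n + 1)` is finite-dimensional (its basis is finite: `Module.Finite.of_basis`, every finite subset of a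
basis is independent; or `Module.finite_of_rank_lt_aleph0` with `rank_le`) of dimension at most that. -/
def T_INB : Prop := ∀ (p : ℕ) [Fact p.Prime] (k O : Type u) [Field k] [CharP k p] [CommRing O]
  [HopfAlgebra k O], (∀ a : k, ∃ b : k, b ^ p = a) → (∀ f : O, ∃ n, f ∈ fil k O n) →
  FiniteDimensional k (inv k O p 1) → ∀ n : ℕ, FiniteDimensional k (inv k O p n) ∧
    Module.finrank k (inv k O p n) ≤ Module.finrank k (inv k O p 1) ^ n

/-- BND (70 lines; uses MON, QDB, INC, INB).  The filtration is finite-dimensional with polynomial growth, and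
strictly increasing if `O` is not finite-dimensional.
PROOF.  (1) INC and INB.  (2) `QQ (r j) (2 ^ j)` by QDB and `fil m ≤ fil (2 ^ j)` with `m ≤ 2 ^ j`
(`Nat.lt_two_pow_self`), (1).  (3) Suppose `fil m = fil (m + 1)`.  Then `fil n = fil m` for all `n ≥ m` by
induction (`fil (n + 1)` is a function of `fil n`), `O = fil m` by `hU`, finite-dimensional by (2).  So if
`O` is not finite-dimensional all inclusions are strict and `m ≤ finrank (fil m)` by induction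
(`Submodule.finrank_lt_finrank_of_lt`). -/
def T_BND : Prop := ∀ (p : ℕ) [Fact p.Prime] (k O : Type u) [Field k] [CharP k p] [CommRing O]
  [HopfAlgebra k O], (∀ a : k, ∃ b : k, b ^ p = a) → (∀ f : O, ∃ n, f ∈ fil k O n) →
  FiniteDimensional k (inv k O p 1) → ∀ r : ℕ, QQ k O p r 2 →
  (∀ n m : ℕ, QQ k O p n m → Module.finrank k (fil k O m) ≤ Module.finrank k (inv k O p 1) ^ n) ∧
  (∀ m : ℕ, FiniteDimensional k (fil k O m)) ∧
  (¬ FiniteDimensional k O → ∀ m : ℕ, m ≤ Module.finrank k (fil k O m))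

/-! ## The jumps -/

/-- NJP (40 lines; uses MON).  If `t` is not a jump then `D t = D (t + 1)`.
PROOF.  Let `f ∈ fil (t + 1)`; `f - algebraMap c` is in the ideal spanned by the `g ∈ fil t` with
`counit g = 0`; `x g = algebraMap (counit g) = 0` for these, so `x` kills the ideal (`Ideal.span_le`, the
kernel of `x`), `x f = algebraMap c`, and the same for the point `1`: `algebraMap (counit f)
= algebraMap c` in `R`.  (The counit vanishes on the ideal, so `counit f = c`.) -/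
def T_NJP : Prop := ∀ (k O : Type u) [Field k] [CommRing O] [HopfAlgebra k O] (R : Type u) [CommRing R]
  [Algebra k R] (t : ℕ) (x : Pt k O R), ¬ jump k O t → InD t x → InD (t + 1) x

/-- PRD (150 lines; uses MON, TEN, MUL).  Products of jump functions are linearly independent.
PROOF.  For a jump `t` choose `h_t ∈ fil (t + 1)` as in the definition, with `counit h_t = 0` (subtract the
constant `counit h_t`).  `t ≥ 1` since `fil 1 = k`.  For `V ⊆ U` put `h_V = ∏_{t ∈ V} h_t`; by MUL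
`h_V ∈ fil (1 + ∑_{t ∈ V} t) ≤ fil (1 + ∑_{t ∈ U} t)`.  We show that the `h_V`, `V ∈ U.powerset`, are linearly
independent, by `Finset.induction_on_max`.  Let `t` be larger than all elements of `U`, `B = O ⧸ J` with
`J = Ideal.span {g | g ∈ fil t ∧ counit g = 0}`, `z : O → B` the quotient map (an algebra map), and
`Ψ = (id ⊗ z) ∘ Δ : O → O ⊗ B`, an algebra map (`Algebra.TensorProduct.map`, `Bialgebra.comulAlgHom`).
(i) If `f ∈ fil t` then `Ψ f = f ⊗ 1`: by TEN (`0 + t`) `Δ f = ∑ a_i ⊗ b_i`, `b_i ∈ fil t`, and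
`z b = algebraMap (counit b)` for `b ∈ fil t` (`b - algebraMap (counit b) ∈ fil t` if `t ≥ 1`), so
`Ψ f = (∑ counit b_i • a_i) ⊗ 1 = f ⊗ 1`.  So `Ψ h_V = h_V ⊗ 1` for `V ⊆ U` (`h_s ∈ fil (s + 1) ≤ fil t`).
(ii) `Ψ h_t = h_t ⊗ 1 + 1 ⊗ z h_t`: by TEN (`1 + t`), `Δ h_t = 1 ⊗ a + ∑ c_j ⊗ d_j` with
`d_j ∈ fil t`; so `Ψ h_t = 1 ⊗ z a + c ⊗ 1`, `c = ∑ counit d_j • c_j`; `id ⊗ counit` gives
`h_t = counit a + c`, `counit ⊗ id` gives `h_t = a + ∑ counit c_j • d_j`, `z h_t = z a + counit c`, and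
`counit a + counit c = counit h_t = 0`.
(iii) `z h_t ≠ 0` since `h_t ∉ J`.  Let `F = ∑_V α_V h_V`, `G = ∑_V β_V h_V` with `F + G h_t = 0`, sums over
`V ⊆ U`.  Apply `Ψ`: `0 = (F + G h_t) ⊗ 1 + G ⊗ z h_t = G ⊗ z h_t`, so `G = 0` (field: `G ⊗ b = 0` with
`b ≠ 0` implies `G = 0`; take a functional with value `1` at `b`), so `F = 0`; by induction `α = β = 0`.
So `2 ^ U.card ≤ finrank` (`LinearIndependent.fintype_card_le_finrank`, `Finset.card_powerset`). -/
def T_PRD : Prop := ∀ (k O : Type u) [Field k] [CommRing O] [HopfAlgebra k O] (U : Finset ℕ),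
  (∀ t ∈ U, jump k O t) → FiniteDimensional k (fil k O (1 + ∑ t ∈ U, t)) →
  2 ^ U.card ≤ Module.finrank k (fil k O (1 + ∑ t ∈ U, t))

/-- LGA (60 lines).  Arithmetic.
PROOF.  `D ≤ 2 ^ D`, so `ρ ≤ D r (Nat.clog 2 (1 + ρ K m))` and `ρ ≤ K m` gives
`ρ ≤ D r (Nat.clog 2 (1 + (K m) ^ 2)) ≤ D r (2 Nat.clog 2 (1 + K m))` or any bound of this kind; it is
`o(m)`: for instance `Nat.clog 2 (1 + (K m)^2) ≤ 2 * Nat.size (K m) + 2` and `K * D * r * (that) ≤ m` for
large `m` because `2 ^ s ≥ (C s + C) ` for large `s`. -/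
def T_LGA : Prop := ∀ D r K : ℕ, ∃ m₀ : ℕ, ∀ m ≥ m₀, ∀ ρ : ℕ, ρ ≤ K * m →
  2 ^ ρ ≤ D ^ (r * Nat.clog 2 (1 + ρ * (K * m))) → K * ρ ≤ m

/-- LOG (70 lines; uses MON, QDB, BND, PRD, LGA).  There are few jumps.
PROOF.  Let `U` be the finite set of the jumps in `[m, K m)` and `ρ` its cardinality, `ρ ≤ K m` and
`∑_{t ∈ U} t ≤ ρ (K m)`.  With `j = Nat.clog 2 (1 + ρ (K m))`, `1 + ∑ ≤ 2 ^ j`
(`Nat.le_pow_clog`), so by PRD, monotonicity, QDB and BND (1)
`2 ^ ρ ≤ finrank (fil (1 + ∑)) ≤ finrank (fil (2 ^ j)) ≤ D ^ (r j)`.  Then LGA. -/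
def T_LOG : Prop := ∀ (p : ℕ) [Fact p.Prime] (k O : Type u) [Field k] [CharP k p] [CommRing O]
  [HopfAlgebra k O], (∀ a : k, ∃ b : k, b ^ p = a) → (∀ f : O, ∃ n, f ∈ fil k O n) →
  FiniteDimensional k (inv k O p 1) → ∀ r : ℕ, QQ k O p r 2 → ∀ K : ℕ, ∃ m₀ : ℕ, ∀ m ≥ m₀,
  K * Set.ncard {t : ℕ | m ≤ t ∧ t < K * m ∧ jump k O t} ≤ m

/-- TAU (70 lines).  Enumeration of a set of integers from `m` on, up to `N`.
PROOF.  Define `τ 0 = m`, `τ 1 =` the least `t ≥ m` with `J t ∨ N ≤ t`, and for `i ≥ 1` `τ (i + 1) =` the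
least `t > τ i` with `J t ∨ N ≤ t` (`Nat.find`, exists since `N ≤ t` for `t` large).  If `i > ρ` and
`τ i < N` then `τ 1 < ⋯ < τ i` are `i` distinct elements of the set, a contradiction
(`Set.ncard_le_ncard` with the image of `Finset.Icc 1 i`). -/
def T_TAU : Prop := ∀ (J : ℕ → Prop) (m N : ℕ), ∃ τ : ℕ → ℕ, (∀ i, m ≤ τ i) ∧
  (∀ t, m ≤ t → t < τ 1 → ¬ J t) ∧ (∀ i ≥ 1, τ i < τ (i + 1)) ∧
  (∀ i ≥ 1, ∀ t, τ i < t → t < τ (i + 1) → ¬ J t) ∧
  (∀ i, Set.ncard {t : ℕ | m ≤ t ∧ t < N ∧ J t} < i → N ≤ τ i)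

/-! ## The conjugation action -/

/-- GRP (110 lines).  Pure ring theory.
PROOF.  (1) `prodSet w' ⊆ prodSet w` for `w ≤ w'`, so `VV` is antitone.  (2) the product of a generator of
`VV a` and one of `VV b` is one of `VV (a + b)` (append the lists); so `VV a * VV b ⊆ VV (a + b)`
(`AddSubgroup.closure_induction` twice).  (3) for one factor: `z ∈ H j`, `u = x z x⁻¹ z⁻¹ ∈ H (j + 1)`,
`i x (i z - 1) i x⁻¹ - (i z - 1) = i (u z) - i z = (i u - 1) + (i u - 1) (i z - 1)`, in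
`VV (j + 1)`.  (4) For a list `q :: l'` with `a = i q.2 - 1`, `v' = ∏ l'`, `c` the conjugation (a ring
endomorphism): `c (a v') - a v' = c a (c v' - v') + (c a - a) v'`, with `c a = a + (c a - a) ∈ VV q.1`,
`c v' - v' ∈ VV (w' + 1)`, `c a - a ∈ VV (q.1 + 1)`, `v' ∈ VV w'` (if `l' = []` it is (3)).  So by
induction on the list every generator `v` of `VV w` has `c v - v ∈ VV (w + 1)`, and this is additive in
`v`. -/
def T_GRP : Prop := ∀ (A G : Type u) [Ring A] [Group G] (i : G →* A) (H : ℕ → Set G),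
  (∀ (j : ℕ) (x z : G), 1 ≤ j → z ∈ H j → x * z * x⁻¹ * z⁻¹ ∈ H (j + 1)) →
  (∀ w : ℕ, VV i H (w + 1) ≤ VV i H w) ∧
  ∀ (w : ℕ) (v : A) (x : G), v ∈ VV i H w → i x * v * i x⁻¹ - v ∈ VV i H (w + 1)

/-- VIN (70 lines; uses VID).  The `(m + 1)`-st term of the filtration vanishes on `fil N`, if there are
few jumps.
PROOF.  It is enough to treat a generator `∏ (cv z_j - 1)`, `z_j ∈ D (τ n_j)`, `n_j ≥ 1`,
`m + 1 ≤ ∑ n_j`.  If `ρ < n_j` for some `j`, then `N ≤ τ n_j`, the factor is in `van (τ n_j)`, so in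
`van N`, and so is the product (VID (2)).  If not, `m + 1 ≤ ∑ n_j ≤ l ρ` with `l` the length of the list;
`K ρ ≤ m < l ρ` gives `K ≤ l`; each factor is in `van m` (`m ≤ τ n_j`), so the product is in
`van (l m)` (VID (1), induction on the list, the empty product is in `van 0`), and `N ≤ K m ≤ l m`. -/
def T_VIN : Prop := ∀ (k O : Type u) [Field k] [CommRing O] [HopfAlgebra k O] (R : Type u) [CommRing R]
  [Algebra k R] (τ : ℕ → ℕ) (m N K ρ : ℕ), (∀ i, m ≤ τ i) → (∀ i, ρ < i → N ≤ τ i) → K * ρ ≤ m →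
  N ≤ K * m → ∀ v ∈ VV (cv (k := k) (O := O) (R := R)) (Hs k O τ R) (m + 1), van N v

/-- CNJ (140 lines).  The conjugation coaction.  Its formula is `cj f = ∑ f₂ ⊗ S f₁ f₃`.
PROOF.  (1) `lift z x : O ⊗ O → R` is an algebra map with `lift z x ∘ includeLeft = z`,
`lift z x ∘ includeRight = x`; `AlgHom.comp_convMul_distrib` gives the value of `lift z x ∘ cj`; the
inverse of `x` is by definition `toConv (x.ofConv.comp (antipodeAlgHom k O))`.
(2) in `R ⊗ O` with `X = includeRight`, `v' = includeLeft ∘ v`: both sides at `f` are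
`∑ v f₂ ⊗ S f₁ f₃`.  One way: `v.rTensor O : O ⊗ O → R ⊗ O` satisfies
`v.rTensor O (s * (1 ⊗ o)) = v.rTensor O s * (1 ⊗ o)`, so for linear maps `a : O → O ⊗ O` and `X : O → O`
one has `(v.rTensor O) ∘ (a * (includeRight ∘ X)) = ((v.rTensor O) ∘ a) * (includeRight ∘ X)` in the
convolution rings (and the same on the left), by `Coalgebra.Repr.convMul_apply` with `ℛ k f`.
(3) coaction: both sides are algebra maps of `f`; by (1)-type naturality
(`AlgHom.comp_convMul_distrib`) with the points `Y, A, B` of `O ⊗ (O ⊗ O)` given by the three inclusions,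
the right side is `(A B)⁻¹ Y (A B)` and the left side is `B⁻¹ (A⁻¹ Y A) B` (the map
`assoc ∘ (cj ⊗ id)` sends `includeLeft` to `A⁻¹ Y A`, `includeRight` to `B`; `id ⊗ Δ` sends `includeLeft`
to `Y` and `includeRight` to `A B`). -/
def T_CNJ : Prop := ∀ (k O : Type u) [Field k] [CommRing O] [HopfAlgebra k O],
  (∀ (R : Type u) [CommRing R] [Algebra k R] (x z : Pt k O R) (f : O),
    Algebra.TensorProduct.lift z.ofConv x.ofConv (fun _ _ => Commute.all _ _) (cj k O f) =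
      (x⁻¹ * z * x) f) ∧
  (∀ (R : Type u) [CommRing R] [Algebra k R] (v : O →ₗ[k] R) (f : O),
    v.rTensor O (cj k O f) =
      (cv ((toConv (Algebra.TensorProduct.includeRight : O →ₐ[k] R ⊗[k] O) :
          Pt k O (R ⊗[k] O))⁻¹) *
        (toConv ((Algebra.TensorProduct.includeLeft : R →ₐ[k] R ⊗[k] O).toLinearMap ∘ₗ v) :
          Cv k O (R ⊗[k] O)) *
        cv (toConv (Algebra.TensorProduct.includeRight : O →ₐ[k] R ⊗[k] O) :
          Pt k O (R ⊗[k] O))) f) ∧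
  (∀ f : O, TensorProduct.assoc k O O O ((cj k O).toLinearMap.rTensor O (cj k O f)) =
    (comul : O →ₗ[k] O ⊗[k] O).lTensor O (cj k O f))

/-- MWS (150 lines; uses SLI, MON, VID, CMM, NJP, GRP, VIN, CNJ).  The filtration `Mw` of `fil N`.
PROOF.  First, `Hs` satisfies the hypothesis of GRP: for `z ∈ D (τ i)`, `i ≥ 1`, the commutator is in
`D (τ i + 1)` by CMM, and `D (τ i + 1) = D (τ (i + 1))` by NJP (`τ i + 1 ≤ τ (i + 1)`, no jump in between,
induction).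
(1) `Mw (m + 1) = fil N` by VIN.
(2) Base change: if `v ∈ VV cv (Hs τ R) w` then `v' = includeLeft ∘ v ∈ VV cv (Hs τ (R ⊗ O)) w`: the map
`a ↦ includeLeft ∘ a` is a ring hom of convolution rings (`LinearMap.algHom_comp_convMul_distrib`), it
maps `cv z` to `cv (includeLeft ∘ z)` and `includeLeft ∘ z ∈ D (τ i)`.
(3) Let `w ≥ 1`, `f ∈ Mw (w + 1)`.  By SLI (1) we must show `sr c (cj f - f ⊗ 1) ∈ Mw w` for all
`c : O → k`.  For a linear map `v : O → R`, `v (sr c s) = (id ⊗ c) (v.rTensor O s)` (with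
`id ⊗ c : R ⊗ O → R`, `TensorProduct.rid` after `c.lTensor R`).  For `v ∈ VV _ _ w`: by CNJ (2)
`v.rTensor O (cj f) = (X⁻¹ v' X) f` with `X = cv includeRight`, and `v.rTensor O (f ⊗ 1) = v' f`; by (2)
and GRP (applied to the point `X⁻¹`) `X⁻¹ v' X - v' ∈ VV _ _ (w + 1)`, which kills `f`.  So
`v (sr c (cj f - f ⊗ 1)) = 0`.  It is in `fil N`: for a linear map `v : O → k` which vanishes on `fil N`,
`v' ∈ van N`, `X⁻¹ v' X - v' ∈ van N` by VID, the same computation with `R = k` gives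
`v (sr c (cj f - f ⊗ 1)) = 0`; a vector killed by all functionals which vanish on a subspace is in the
subspace (`Submodule.exists_le_ker_of_notMem` or a complement).
(4) Let `f ∈ Mw 1`.  In the same way `sr c (cj f) ∈ Mw 1`: `X⁻¹ v' X ∈ VV _ _ 1`, as
`VV (w + 1) ≤ VV w`. -/
def T_MWS : Prop := ∀ (k O : Type u) [Field k] [CommRing O] [HopfAlgebra k O] (τ : ℕ → ℕ)
  (m N K ρ : ℕ), (∀ i, m ≤ τ i) → (∀ i ≥ 1, τ i < τ (i + 1)) →
  (∀ i ≥ 1, ∀ t, τ i < t → t < τ (i + 1) → ¬ jump k O t) → (∀ i, ρ < i → N ≤ τ i) → K * ρ ≤ m →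
  N ≤ K * m →
  (∀ f ∈ fil k O N, f ∈ Mw k O τ N (m + 1)) ∧
  (∀ f ∈ Mw k O τ N 1, cj k O f ∈ tens (Mw k O τ N 1) ⊤) ∧
  (∀ w ≥ 1, ∀ f ∈ Mw k O τ N (w + 1), cj k O f - f ⊗ₜ[k] 1 ∈ tens (Mw k O τ N w) ⊤)

/-- COM (80 lines; uses SLI, CNJ).  The coefficients of a comodule which is an iterated extension of `w`
trivial comodules have degree less than `w`.
PROOF.  Induction on `w`.  By SLI (3) we must show `sl l (cj f) ∈ fil w` for `f ∈ M (w + 1)` and all `l`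
which vanish on `M 1`.  `w = 0`: `cj f ∈ M 1 ⊗ O`, `sl l (cj f) = 0`.  `w + 1`: `cj f = f ⊗ 1 + u` with
`u ∈ M (w + 1) ⊗ O`.  Put `g = sl l (cj f)`.  By CNJ (3), `Δ g = (l ⊗ id ⊗ id) ((id ⊗ Δ) (cj f)) =
(l ⊗ id ⊗ id) ((cj ⊗ id) (cj f)) = Φ (cj f)` with `Φ (a ⊗ b) = sl l (cj a) ⊗ b`.  `Φ (f ⊗ 1) = g ⊗ 1`, and
`Φ u ∈ fil w ⊗ O` by the induction hypothesis.  So `Δ g - g ⊗ 1 ∈ fil w ⊗ O`, `g ∈ fil (w + 1)`. -/
def T_COM : Prop := ∀ (k O : Type u) [Field k] [CommRing O] [HopfAlgebra k O]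
  (M : ℕ → Submodule k O), (∀ f ∈ M 1, cj k O f ∈ tens (M 1) ⊤) →
  (∀ w ≥ 1, ∀ f ∈ M (w + 1), cj k O f - f ⊗ₜ[k] 1 ∈ tens (M w) ⊤) →
  ∀ w : ℕ, ∀ f ∈ M (w + 1), cj k O f ∈ tens (M 1) ⊤ ⊔ tens ⊤ (fil k O w)

/-- CDM (100 lines; uses VID, NJP, TAU, CNJ, MWS, COM).  If there are few jumps in `[m, K m)` then `D m` is
commutative modulo `D (K m)`.
PROOF.  `N = K m`, `J = jump`, `τ` by TAU, `ρ` the number of jumps.  Let `f ∈ fil N`.  By MWS and COM with
`w = m`, `cj f = ∑ a_i ⊗ b_i + ∑ c_j ⊗ d_j` with `a_i ∈ Mw 1` and `d_j ∈ fil m`.  `z ∈ D m` is in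
`D (τ 1)` (NJP, no jump in `[m, τ 1)`), so `cv z - 1 ∈ VV 1` (a list with one element), so
`z a_i = algebraMap (counit a_i)`; `x d_j = algebraMap (counit d_j)`.  By CNJ (1) for the pairs `(z, x)`,
`(z, 1)`, `(1, x)`, `(1, 1)`, and with `ε` for the counit:
`(x⁻¹ z x) f = ∑ ε a_i x b_i + ∑ z c_j ε d_j`, `z f = ∑ ε a_i ε b_i + ∑ z c_j ε d_j`,
`ε f = ∑ ε a_i x b_i + ∑ ε c_j ε d_j`, `ε f = ∑ ε a_i ε b_i + ∑ ε c_j ε d_j`.  So
`(x⁻¹ z x) f = z f`.  (Best: for `s = cj f` show that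
`lift z x s - lift z 1 s - lift 1 x s + lift 1 1 s = 0`, which is linear in `s` and clear on `a ⊗ b` and
on `c ⊗ d`: it is `(z a - ε a) (x b - ε b)`.) -/
def T_CDM : Prop := ∀ (k O : Type u) [Field k] [CommRing O] [HopfAlgebra k O] (m K : ℕ),
  K * Set.ncard {t : ℕ | m ≤ t ∧ t < K * m ∧ jump k O t} ≤ m →
  ∀ (R : Type u) [CommRing R] [Algebra k R] (x z : Pt k O R), InD m x → InD m z →
    van (K * m) (cv (x⁻¹ * z * x) - cv z)

/-- TWI (110 lines; uses VID).  If `Frobenius ^ n` maps into `D m` and `D m` is commutative modulo `D N` then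
the `p ^ n`-th powers of the `f ∈ fil N` are functions on the abelianisation.
PROOF.  Let `R`, `a x y b` be as in `IsAbFun`.  If `R` is trivial there is nothing to prove; if not, `R` has
characteristic `p`.  Let `R'` be the ring `R` with the `k`-algebra structure
`k → R → R`, `algebraMap` followed by `iterateFrobenius R p n` (a type synonym; or apply the hypothesis
with `@` and this algebra structure), so that `F = iterateFrobenius : R → R'` is a `k`-algebra map.  For a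
point `x` of `R` put `x' = F ∘ x`, a point of `R'`; `(x y)' = x' y'` (`AlgHom.comp_convMul_distrib`) and
`x' f = (x f) ^ (p ^ n) = x (f ^ (p ^ n))`.  `x' ∈ D m` by `QQ n m`.  So for `f ∈ fil N` it is enough that
`(a' x' y' b') f = (a' y' x' b') f`: in the ring,
`cv (x' y') - cv (y' x') = cv y' (cv (y'⁻¹ x' y') - cv x')` is in `van N` (hypothesis, with `y', x'` for
`x, z`, and VID), so `cv (a' x' y' b') - cv (a' y' x' b')` is in `van N` (VID). -/
def T_TWI : Prop := ∀ (p : ℕ) [Fact p.Prime] (k O : Type u) [Field k] [CharP k p] [CommRing O]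
  [HopfAlgebra k O] (n m N : ℕ), QQ k O p n m →
  (∀ (R : Type u) [CommRing R] [Algebra k R] (x z : Pt k O R), InD m x → InD m z →
    van N (cv (x⁻¹ * z * x) - cv z)) →
  ∀ f ∈ fil k O N, IsAbFun k (f ^ (p ^ n))

/-- ARI (40 lines).  Arithmetic.
PROOF.  `K ^ l 2 ^ j = 2 ^ (l + j) (D ^ s) ^ l`, and `D ^ (r j + s l) = D ^ (r j) (D ^ s) ^ l`, so
`2 ^ (l + j) ≤ D ^ (r j)` for all `l`, which is false for `l = D ^ (r j)` (`Nat.lt_two_pow_self`). -/
def T_ARI : Prop := ∀ D s r j : ℕ, 1 ≤ D →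
  ¬ ∀ l : ℕ, (2 * D ^ s) ^ l * 2 ^ j ≤ D ^ (r * j + s * l)

/-- FIN (90 lines; uses MON, QDB, BND, LOG, CDM, TWI, ARI).  The theorem on Hopf algebras.
PROOF.  Suppose that `O` is not finite-dimensional.  Let `D = finrank (inv 1)`; `D ≥ 1` (`1 ∈ inv 1`,
`1 ≠ 0`).  Put `K = 2 * D ^ s` and take `m₀` from LOG, `j` with `m₀ ≤ 2 ^ j` (`j = m₀`).  Claim: for all `l`
`QQ (r j + s l) (K ^ l 2 ^ j)`.  `l = 0` is QDB.  Step: `m = K ^ l 2 ^ j ≥ m₀` (`K ≥ 1`), by LOG and CDM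
`D m` is commutative modulo `D (K m)`; by TWI, for `f ∈ fil (K m)`, `g = f ^ (p ^ n)` with `n = r j + s l`
satisfies `IsAbFun`, so `g ^ (p ^ s) = algebraMap (counit g) ^ (p ^ s)` by `hA`, that is
`f ^ (p ^ (n + s)) = algebraMap (counit f) ^ (p ^ (n + s))` (`pow_add`, `pow_mul`,
`Bialgebra.counit_pow`).  So by BND (1) and (3), `K ^ l 2 ^ j ≤ finrank (fil _) ≤ D ^ (r j + s l)` for all
`l`, a contradiction to ARI. -/
def T_FIN : Prop := ∀ (p : ℕ) [Fact p.Prime] (k O : Type u) [Field k] [CharP k p] [CommRing O]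
  [HopfAlgebra k O], (∀ a : k, ∃ b : k, b ^ p = a) → (∀ f : O, ∃ n, f ∈ fil k O n) →
  FiniteDimensional k (inv k O p 1) → ∀ r : ℕ, QQ k O p r 2 →
  ∀ s : ℕ, (∀ g : O, IsAbFun k g →
    g ^ (p ^ s) = algebraMap k O (counit (R := k) g) ^ (p ^ s)) →
  FiniteDimensional k O

/-- ABF (60 lines; uses MON, QDB).  If the functions on the abelianisation are finite-dimensional then their
nilpotency is bounded.
PROOF.  A finite spanning family `g_1, …, g_n` of the span lies in `fil m` for some `m` (`hU`, MON), so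
the span is `≤ fil m ≤ fil (2 ^ j)` with `m ≤ 2 ^ j`, `j = m`.  Then QDB, `s = r j`. -/
def T_ABF : Prop := ∀ (p : ℕ) [Fact p.Prime] (k O : Type u) [Field k] [CharP k p] [CommRing O]
  [HopfAlgebra k O], (∀ f : O, ∃ n, f ∈ fil k O n) → ∀ r : ℕ, QQ k O p r 2 →
  FiniteDimensional k (Submodule.span k {g : O | IsAbFun k g}) →
  ∃ s : ℕ, ∀ g : O, IsAbFun k g → g ^ (p ^ s) = algebraMap k O (counit (R := k) g) ^ (p ^ s)

/-- PRM (40 lines; uses MON).  The primitive elements and `fil 2`.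
PROOF.  `f ∈ fil 2`: `Δ f - f ⊗ 1 ∈ fil 1 ⊗ O`, so it is `1 ⊗ g` for some `g` (`fil 1 = k`, MON); apply
`counit ⊗ id`: `f - algebraMap (counit f) = g`.  So `x = g` has `Δ x = x ⊗ 1 + 1 ⊗ x`, `x ^ (p ^ r) = 0` and
`f ^ (p ^ r) = (x + algebraMap (counit f)) ^ (p ^ r)` (`add_pow_char_pow`). -/
def T_PRM : Prop := ∀ (p : ℕ) [Fact p.Prime] (k O : Type u) [Field k] [CharP k p] [CommRing O]
  [HopfAlgebra k O] (r : ℕ),
  (∀ x : O, (comul x : O ⊗[k] O) = x ⊗ₜ[k] 1 + 1 ⊗ₜ[k] x → x ^ (p ^ r) = 0) → QQ k O p r 2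

/-- ROP (70 lines).  An element of order a power of `p` with a rational annihilating polynomial of degree
less than `p - 1` is trivial.
PROOF.  `X ^ (p ^ a) - 1 = (X - 1) Ψ` with `Ψ = ∏_{c = 1}^{a} Φ_{p ^ c}`
(`Polynomial.prod_cyclotomic_eq_X_pow_sub_one`, `Nat.divisors_prime_pow`); each
`Φ_{p ^ c}`, `c ≥ 1`, is irreducible over `ℚ` (`Polynomial.cyclotomic.irreducible_rat`) of degree
`φ(p ^ c) ≥ p - 1`, larger than the degree of `χ ≠ 0`, so it does not divide `χ` and is coprime to it; so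
`u χ + v Ψ = 1` (`IsCoprime.prod_right`).  Evaluate at `M`: `v(M) Ψ(M) = 1`, and `(M - 1) Ψ(M) = 0`, so
`M - 1 = (M - 1) Ψ(M) v(M) = 0` (polynomials in `M` commute). -/
def T_ROP : Prop := ∀ (p a : ℕ) [Fact p.Prime] (F V : Type u) [Field F] [CharZero F] [AddCommGroup V]
  [Module F V] (M : V →ₗ[F] V) (χ : Polynomial ℚ), M ^ (p ^ a) = 1 → χ ≠ 0 → χ.natDegree < p - 1 →
  Polynomial.aeval M (χ.map (algebraMap ℚ F)) = 0 → M = 1

/-- TRV (60 lines; uses MON, QDB).  If moreover every function is a `p`-th power then `O = k`.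
PROOF.  As in ABF, `O = fil m` for some `m`, so `QQ N (2 ^ j)` with `N = r j` and `fil (2 ^ j) = ⊤`.  Every
`f` is `g ^ (p ^ N)` (iterate `hF`), so `f = algebraMap (counit g ^ (p ^ N))`.  Then
`Module.finrank k O = 1` (`finrank_eq_one_iff_of_nonzero'` with `1`), `inv 1 = ⊤`. -/
def T_TRV : Prop := ∀ (p : ℕ) [Fact p.Prime] (k O : Type u) [Field k] [CharP k p] [CommRing O]
  [HopfAlgebra k O], (∀ f : O, ∃ n, f ∈ fil k O n) → ∀ r : ℕ, QQ k O p r 2 →
  FiniteDimensional k O → (∀ f : O, ∃ g : O, g ^ p = f) →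
  (∀ f : O, f = algebraMap k O (counit (R := k) f)) ∧ Module.finrank k (inv k O p 1) = 1

/-- LNG (110 lines).  A `p`-linear map of a finite-dimensional space over an algebraically closed field
without nonzero fixed vector is nilpotent.
PROOF.  Suppose `φ` is not nilpotent: there is `v` with `φ^n v ≠ 0` for all `n` (if each `v` of a finite
basis is killed by a power, then all vectors are killed by the largest one).  The spans of the images
`W_n = span (φ^n H)`: since `k` is perfect `φ^n H` is a subspace; they decrease and stabilise, `W = φ^n H`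
for large `n`, `W ≠ 0` and `φ : W → W` is surjective, so injective (a surjective additive
`p`-linear map of a finite-dimensional space over a perfect field: the images of a basis span, so are
independent).  Let `v ≠ 0` in `W`, and `n ≥ 1` least such that `v, φ v, …, φ^n v` are dependent:
`φ^n v = ∑_{i<n} a_i φ^i v` with `v, …, φ^(n-1) v` independent; `a_0 ≠ 0`, else `φ` is not injective
(`φ (φ^(n-1) v - ∑ b_i φ^(i-1) v) = 0`, `b_i ^ p = a_i`).  Look for `w = ∑ x_i φ^i v` with `φ w = w`: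
`x_0 = a_0 y^p`, `x_i = x_{i-1}^p + a_i y^p`, `y = x_{n-1}`.  So `x_i = P_i(y)` with
`P_0 = a_0 T^p`, `P_i = P_{i-1}^p + a_i T^p`, additive polynomials in `T` divisible by `T^p`, and the
condition is `P_{n-1}(y) = y`; `P_{n-1}` has degree `p^n` with leading coefficient `a_0^(p^(n-1))`.
`P_{n-1} - T` is divisible by `T` and the quotient has degree `p^n - 1 ≥ 1` and constant term `-1`, so it
has a root `y ≠ 0` (`IsAlgClosed.exists_root`).  `x_{n-1} = y ≠ 0`, so `w ≠ 0`. -/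
def T_LNG : Prop := ∀ (p : ℕ) [Fact p.Prime] (k H : Type u) [Field k] [CharP k p] [IsAlgClosed k]
  [AddCommGroup H] [Module k H] [FiniteDimensional k H] (φ : H → H), (∀ x y, φ (x + y) = φ x + φ y) →
  (∀ (c : k) x, φ (c • x) = c ^ p • φ x) → (∀ x, φ x = x → x = 0) →
  ∃ r : ℕ, ∀ x, φ^[r] x = 0

end Pool.TTriv
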