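import Pool.Agent.Work.MP_10c1eb_ag_h28.Final

/-!
# Varieties with trivial tangent bundle: the definitions of the final statement

`k` is an algebraically closed field of characteristic `p > 0` and `X` a smooth projective variety over
`k` of dimension `d` whose tangent bundle is isomorphic to `𝒪_X ^ d`.  The fields of the structures below
are objects attached to `X` and facts on them which follow from published theorems as explained in the
documentation; they are not formalised further.
-/

set_option autoImplicit false

open TensorProduct Coalgebra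

namespace Pool.TTriv

universe u

section Hopf

variable (K O : Type u) [Field K] [CommRing O] [HopfAlgebra K O]

/-- The affine group scheme `Spec O` is pro-unipotent: every function on it is a polynomial function (lies
in one of the spaces `fil`). -/
def ProUnipotent : Prop := ∀ f : O, ∃ n, f ∈ fil K O n

variable {O} in
/-- The function `x` on `Spec O` is a homomorphism to the additive group. -/
def IsPrimitive (x : O) : Prop := (comul x : O ⊗[K] O) = x ⊗ₜ[K] 1 + 1 ⊗ₜ[K] x

/-- `P = Spec O`: the functions on `P / F P`, that is the functions invariant under right translation by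
the image of the Frobenius of `P`, form a vector space of dimension at most `N`. -/
def FrobeniusIndexLE (p N : ℕ) : Prop :=
  FiniteDimensional K (inv K O p 1) ∧ Module.finrank K (inv K O p 1) ≤ N

/-- The largest commutative quotient of `Spec O` is a finite group scheme. -/
def FiniteAbelianisation : Prop := FiniteDimensional K (Submodule.span K {g : O | IsAbFun K g})

/-- The `m`-th power of the Frobenius of `Spec O` is trivial. -/
def FrobeniusTrivial (p m : ℕ) : Prop :=
  ∀ f : O, f ^ (p ^ m) = algebraMap K O (counit (R := K) f) ^ (p ^ m)

end Hopf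

/-- The data attached to a smooth projective variety `X` over `k` with trivial tangent bundle.

* `dim` is the dimension `d` of `X` and `b1` the first Betti number `b₁(X) = 2 dim Alb(X)`. By Igusa the
  invariant differentials of `Alb(X)` inject into `H⁰(X, Ω¹)`, which has dimension `d`: `b₁(X) ≤ 2 d`.
* `H1` is `H¹(X, 𝒪_X)` and `frob` its Frobenius, induced by `f ↦ f ^ p`. By Artin-Schreier its nonzero
  fixed vectors correspond to the connected étale coverings of `X` with group `ℤ/p` (with a generator).
* `O` is the coordinate ring of the unipotent fundamental group scheme `π` of Nori of `X` at a rational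
  point (the Tannaka dual of the category of the nilpotent vector bundles on `X`), a commutative Hopf
  algebra over `k`; `π` is pro-unipotent: `O` is the union of its coradical filtration `fil`.
* Homomorphisms `π → 𝔾_a`, that is primitive elements of `O`, are the same as classes in
  `H¹(X, 𝒪_X)` (`prim`), and `x ↦ x ^ p` is the Frobenius.
* Let `X^σ` be the twist of `X` by the inverse of the Frobenius of `k`. As `T_X` is trivial the relative
  Frobenius `F : X^σ → X` is a torsor under the infinitesimal group scheme `G` of height one and order
  `p ^ d` whose Lie algebra is `H⁰(X^σ, T)`. So for the fundamental group scheme `π^N` of Nori there is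
  an exact sequence `1 → π^N(X^σ) → π^N(X) → G → 1`, whose first map is the relative Frobenius; `π` is a
  quotient of `π^N(X)`, so the homogeneous space `π / F π^σ`, whose coordinate ring is `inv k O p 1`, is
  a quotient of `G` (`torsor`).
* The largest commutative quotient of `π` is the Cartier dual of the formal completion of `Pic X` at the
  origin; if `b₁(X) = 0` then `Pic⁰ X` is an infinitesimal group scheme, so this quotient is finite
  (`abelian`).
* `homDim m` is the dimension of the scheme `Hom(Y, X)` at the `m`-fold Frobenius `f : Y → X`,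
  `Y = X^(p^-m)`. Suppose that the `m`-fold Frobenius of `π` is trivial, that is, `f^* E` is trivial for
  all nilpotent vector bundles `E` on `X`. The bundle of principal parts
  `P^n = pr₁_* (𝒪_{X × X} / I^(n + 1))` is nilpotent, since its graded pieces `S^i Ω¹` are trivial; so
  `f^* P^n = 𝒪_Y ⊗ A_n` as a sheaf of algebras, and the second projection `Y × Spec A_n → X` is a
  deformation of `f` whose value at a point `y ∈ Y` is the `n`-th infinitesimal neighbourhood of `f y`
  in `X`. So the composition of the complete local rings of `X` at `f y`, of `Hom(Y, X)` at `f` and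
  `lim A_n` is bijective and `d ≤ dim Hom(Y, X)` at `f` (`principalParts`).
* `X` contains no rational curve (for a non-constant `g : ℙ¹ → X`, separable onto its image, the map
  `𝒪(2) = T → g^* T_X` to a trivial bundle would not be zero). So if `homDim m ≠ 0` then a non-constant
  family of morphisms `Y → X` over an open subset of a smooth projective curve `C`, through `f`, extends
  to `C × Y`. If `b₁(X) = 0`, so that `Pic⁰(Y)_red = 0`, then the class of `μ_t^* L` is constant, equal to
  the class of `f^* L`, which is ample (`family`). -/
structure TrivialTangent (p : ℕ) (k : Type u) [Field k] where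
  dim : ℕ
  b1 : ℕ
  b1_le : b1 ≤ 2 * dim
  H1 : Type u
  [acgH1 : AddCommGroup H1]
  [modH1 : Module k H1]
  [finH1 : FiniteDimensional k H1]
  frob : H1 → H1
  frob_add : ∀ x y, frob (x + y) = frob x + frob y
  frob_smul : ∀ (c : k) x, frob (c • x) = c ^ p • frob x
  O : Type u
  [ringO : CommRing O]
  [hopfO : HopfAlgebra k O]
  conilpotent : ProUnipotent k O
  prim : H1 → O
  prim_surj : ∀ x : O, IsPrimitive k x → ∃ h, prim h = x
  prim_zero : prim 0 = 0
  prim_frob : ∀ h, prim (frob h) = prim h ^ p
  torsor : FrobeniusIndexLE k O p (p ^ dim)
  abelian : b1 = 0 → FiniteAbelianisation k O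
  homDim : ℕ → ℕ
  principalParts : ∀ m, FrobeniusTrivial k O p m → dim ≤ homDim m
  family : b1 = 0 → ∀ m, homDim m ≠ 0 → Nonempty (Family dim)

attribute [instance] TrivialTangent.acgH1 TrivialTangent.modH1 TrivialTangent.finH1
  TrivialTangent.ringO TrivialTangent.hopfO

variable {p : ℕ} {k : Type u} [Field k]

/-- `X` has no connected étale covering with group `ℤ/p`: the Frobenius of `H¹(X, 𝒪_X)` has no nonzero
fixed vector (Artin-Schreier). -/
def TrivialTangent.NoCyclicCover (X : TrivialTangent p k) : Prop :=
  ∀ h : X.H1, X.frob h = h → h = 0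

/-- A connected étale Galois covering `X' → X` whose group `E` is a finite `p`-group. For a prime
`ℓ ≠ p`, `V = H¹(X', ℚ_ℓ)` has dimension `b₁(X')`, its invariants are `H¹(X, ℚ_ℓ)`, of dimension
`b₁(X)`, and the characteristic polynomial of `e ∈ E` on `V` (the Tate module of `Alb(X')`, up to
duality) has rational coefficients (Weil). -/
structure GaloisPCovering (X' X : TrivialTangent p k) where
  dim_eq : X'.dim = X.dim
  E : Type
  [groupE : Group E]
  [finE : Finite E]
  pgroup : IsPGroup p E
  ℓ : ℕ
  [prime_ℓ : Fact ℓ.Prime]
  V : Type
  [acgV : AddCommGroup V]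
  [modV : Module ℚ_[ℓ] V]
  [finV : FiniteDimensional ℚ_[ℓ] V]
  ρ : E →* (V →ₗ[ℚ_[ℓ]] V)
  finrank_V : Module.finrank ℚ_[ℓ] V = X'.b1
  inv_V : Module.finrank ℚ_[ℓ] (Submodule.span ℚ_[ℓ] {v : V | ∀ e : E, ρ e v = v}) = X.b1
  weil : ∀ e : E, ∃ χ : Polynomial ℚ, χ.Monic ∧ χ.natDegree = X'.b1 ∧
    (ρ e).charpoly = χ.map (algebraMap ℚ ℚ_[ℓ])

attribute [instance] GaloisPCovering.groupE GaloisPCovering.finE GaloisPCovering.prime_ℓ
  GaloisPCovering.acgV GaloisPCovering.modV GaloisPCovering.finV

/-- The same data, in the form used by the proofs. -/
def TrivialTangent.toOld (X : TrivialTangent p k) : TTrivialVariety p k where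
  dim := X.dim
  b1 := X.b1
  b1_le := X.b1_le
  H1 := X.H1
  frob := X.frob
  frob_add := X.frob_add
  frob_smul := X.frob_smul
  O := X.O
  conilpotent := X.conilpotent
  prim := X.prim
  prim_surj := X.prim_surj
  prim_zero := X.prim_zero
  prim_frob := X.prim_frob
  torsor := X.torsor
  abelian := X.abelian
  homDim := X.homDim
  principalParts := X.principalParts
  family := X.family

/-- The same data, in the form used by the proofs. -/
def GaloisPCovering.toOld {X' X : TrivialTangent p k} (c : GaloisPCovering X' X) :
    GaloisPCover X'.toOld X.toOld where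
  dim_eq := c.dim_eq
  E := c.E
  pgroup := c.pgroup
  ℓ := c.ℓ
  V := c.V
  ρ := c.ρ
  finrank_V := c.finrank_V
  inv_V := c.inv_V
  weil := c.weil

theorem hopf_finite' (p : ℕ) [Fact p.Prime] (K O : Type u) [Field K] [CharP K p] [CommRing O]
    [HopfAlgebra K O] (hk : ∀ a : K, ∃ b : K, b ^ p = a) (hU : ProUnipotent K O) (r : ℕ)
    (hr : ∀ x : O, IsPrimitive K x → x ^ (p ^ r) = 0) (N : ℕ) (hI : FrobeniusIndexLE K O p N)
    (hA : FiniteAbelianisation K O) : FiniteDimensional K O :=
  hopf_finite p K O hk hU r hr hI.1 hA

theorem trivial_dim_zero (p : ℕ) [Fact p.Prime] (k : Type u) [Field k] [CharP k p] [IsAlgClosed k]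
    (X : TrivialTangent p k) (h0 : X.b1 = 0) (h1 : X.NoCyclicCover) : X.dim = 0 :=
  ttrivial_dim_zero p k X.toOld h0 h1

theorem trivial_dim_zero' (p : ℕ) [Fact p.Prime] (k : Type u) [Field k] [CharP k p] [IsAlgClosed k]
    (X' X : TrivialTangent p k) (c : GaloisPCovering X' X) (hp : 2 * X.dim + 1 < p)
    (h0 : X.b1 = 0) (h1 : X'.NoCyclicCover) : X.dim = 0 :=
  ttrivial_dim_zero' p k X'.toOld X.toOld c.toOld hp h0 h1

end Pool.TTriv
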